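import Pool.Agent.Helper73.Dom.Core

set_option autoImplicit false
open MeasureTheory Filter Set
open scoped ENNReal

namespace Pool.Agent.Helper73.Dom

variable {ψ a : ℝ → ℝ}

/-- separation of a point from a closed subspace -/
theorem exists_annihilator {E : Type*} [NormedAddCommGroup E] [NormedSpace ℂ E]
    (I : Submodule ℂ E) (hI : IsClosed (I : Set E)) {x : E} (hx : x ∉ I) :
    ∃ Λ : E →L[ℂ] ℂ, (∀ y ∈ I, Λ y = 0) ∧ Λ x ≠ 0 := by
  have : IsClosed (I : Set E) := hI
  have hq : ‖(Submodule.Quotient.mk x : E ⧸ I)‖ ≠ 0 := by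
    rw [norm_ne_zero_iff]
    rwa [ne_eq, Submodule.Quotient.mk_eq_zero]
  obtain ⟨g, -, hg⟩ := exists_dual_vector ℂ _ hq
  refine ⟨g.comp (I.mkQL), fun y hy => ?_, ?_⟩
  · have : (Submodule.Quotient.mk y : E ⧸ I) = 0 := (Submodule.Quotient.mk_eq_zero I).2 hy
    simp [this]
  · have h1 : (g.comp I.mkQL) x = g (Submodule.Quotient.mk x) := by simp
    rw [h1, hg]
    simpa using hq

theorem Weight.of_convex (hm : Measurable ψ) (hc : ConvexOn ℝ (Ici 0) ψ)
    (hl : Tendsto (fun x => ψ x / x) atTop atTop) : ∃ a, Weight ψ a := by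
  obtain ⟨a, ham, hsub⟩ := exists_subgradient hc
  refine ⟨a, hm, ham, hsub, hl, fun x hx y hy => ?_⟩
  rcases eq_or_lt_of_le (add_nonneg hx hy) with h | h
  · have hx0 : x = 0 := by linarith
    have hy0 : y = 0 := by linarith
    rw [hx0, hy0]; simp
  · have h00 : (0:ℝ) ∈ Ici (0:ℝ) := mem_Ici.2 le_rfl
    have h1 := hc.2 h00 (show x + y ∈ Ici (0:ℝ) from h.le)
      (show (0:ℝ) ≤ y / (x + y) by positivity) (show (0:ℝ) ≤ x / (x + y) by positivity)
      (by field_simp; ring)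
    have h2 := hc.2 h00 (show x + y ∈ Ici (0:ℝ) from h.le)
      (show (0:ℝ) ≤ x / (x + y) by positivity) (show (0:ℝ) ≤ y / (x + y) by positivity)
      (by field_simp)
    have e1 : (y / (x + y)) • (0:ℝ) + (x / (x + y)) • (x + y) = x := by
      simp only [smul_eq_mul]; field_simp; ring
    have e2 : (x / (x + y)) • (0:ℝ) + (y / (x + y)) • (x + y) = y := by
      simp only [smul_eq_mul]; field_simp; ring
    rw [e1] at h1
    rw [e2] at h2
    simp only [smul_eq_mul] at h1 h2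
    have e3 : y / (x + y) + x / (x + y) = 1 := by field_simp; ring
    have e4 : y / (x + y) * ψ 0 + x / (x + y) * ψ (x + y) +
        (x / (x + y) * ψ 0 + y / (x + y) * ψ (x + y)) = ψ 0 + ψ (x + y) := by
      have : y / (x + y) * ψ 0 + x / (x + y) * ψ (x + y) +
        (x / (x + y) * ψ 0 + y / (x + y) * ψ (x + y))
        = (y / (x + y) + x / (x + y)) * (ψ 0 + ψ (x + y)) := by ring
      rw [this, e3, one_mul]
    linarith

theorem shift_convex (hc : ConvexOn ℝ (Ici 0) ψ) {b : ℝ} (hb : 0 ≤ b) :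
    ConvexOn ℝ (Ici 0) (fun x => ψ (x + b)) := by
  refine ⟨convex_Ici 0, fun x hx y hy s t hs ht hst => ?_⟩
  have hx' : x + b ∈ Ici (0:ℝ) := add_nonneg hx hb
  have hy' : y + b ∈ Ici (0:ℝ) := add_nonneg hy hb
  have h := hc.2 hx' hy' hs ht hst
  have e : s • x + t • y + b = s • (x + b) + t • (y + b) := by
    simp only [smul_eq_mul]
    have : b = s * b + t * b := by rw [← add_mul, hst, one_mul]
    linarith
  simp only
  rw [e]
  exact h

theorem shift_lim (W : Weight ψ a) {b : ℝ} (hb : 0 ≤ b) :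
    Tendsto (fun x => ψ (x + b) / x) atTop atTop := by
  rw [tendsto_atTop]
  intro C
  obtain ⟨m, hm⟩ := W.lower (|C| + 1)
  filter_upwards [eventually_ge_atTop (max 1 m)] with x hx
  have hx1 : 1 ≤ x := (le_max_left _ _).trans hx
  have hxm : m ≤ x := (le_max_right _ _).trans hx
  have hx0 : 0 < x := by linarith
  rw [le_div_iff₀ hx0]
  have h1 := hm (x + b) (by linarith)
  have h2 : C * x ≤ |C| * x := mul_le_mul_of_nonneg_right (le_abs_self _) hx0.le
  have h3 : 0 ≤ |C| * b := by positivity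
  nlinarith

/-- the two variable kernel of the convolution pairing -/
noncomputable def EE (φ f : ℝ → ℂ) (s : ℂ) (p : ℝ × ℝ) : ℂ :=
  {q : ℝ × ℝ | 0 < q.2 ∧ q.2 < q.1}.indicator
    (fun q => φ q.1 * (f q.2 * Complex.exp (s * ((q.1:ℂ) - (q.2:ℂ))))) p

theorem EE_meas {φ f : ℝ → ℂ} (hφ : Measurable φ) (hf : Measurable f) (s : ℂ) :
    Measurable (EE φ f s) := by
  unfold EE
  refine Measurable.indicator ?_ ?_
  · exact (hφ.comp measurable_fst).mul ((hf.comp measurable_snd).mul (by fun_prop))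
  · exact (measurableSet_lt measurable_const measurable_snd).inter
      (measurableSet_lt measurable_snd measurable_fst)

theorem EE_shift {φ f : ℝ → ℂ} (s : ℂ) {t : ℝ} (ht : 0 < t) (u : ℝ) :
    EE φ f s (u + t, t) = (Ioi (0:ℝ)).indicator
      (fun u : ℝ => f t * (φ (u + t) * Complex.exp (s * (u:ℂ)))) u := by
  unfold EE
  by_cases hu : 0 < u
  · have h1 : ((u + t, t) : ℝ × ℝ) ∈ {q : ℝ × ℝ | 0 < q.2 ∧ q.2 < q.1} := ⟨ht, by simp; exact hu⟩
    rw [indicator_of_mem h1, indicator_of_mem (show u ∈ Ioi (0:ℝ) from hu)]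
    simp only
    have : (((u + t : ℝ) : ℂ) - (t : ℂ)) = (u : ℂ) := by push_cast; ring
    rw [this]; ring
  · have h1 : ((u + t, t) : ℝ × ℝ) ∉ {q : ℝ × ℝ | 0 < q.2 ∧ q.2 < q.1} := by
      rintro ⟨-, h⟩
      simp at h
      exact hu h
    rw [indicator_of_notMem h1, indicator_of_notMem (show u ∉ Ioi (0:ℝ) from hu)]

theorem EE_neg {φ f : ℝ → ℂ} (s : ℂ) {t : ℝ} (ht : ¬ 0 < t) (x : ℝ) :
    EE φ f s (x, t) = 0 := by
  unfold EE
  rw [indicator_of_notMem]
  rintro ⟨h, -⟩
  exact ht h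

theorem EE_neg' {φ f : ℝ → ℂ} (s : ℂ) {x : ℝ} (hx : ¬ 0 < x) (t : ℝ) :
    EE φ f s (x, t) = 0 := by
  unfold EE
  rw [indicator_of_notMem]
  rintro ⟨h, h'⟩
  exact hx (lt_trans h h')

section pairing

variable {φ f : ℝ → ℂ}

theorem shift_int (W : Weight ψ a) (hφ : Measurable φ)
    (hφb : ∀ x > 0, ‖φ x‖ ≤ Real.exp (-ψ x)) (s : ℂ) {t : ℝ} (ht : 0 < t) :
    IntegrableOn (fun u : ℝ => φ (u + t) * Complex.exp (s * (u:ℂ))) (Ioi 0) ∧
    ∫ u in Ioi (0:ℝ), ‖φ (u + t) * Complex.exp (s * (u:ℂ))‖ ≤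
      Real.exp (ψ 0) * Real.exp (-ψ t) *
        ∫ x in Ioi (0:ℝ), Real.exp (-ψ x) * Real.exp (s.re * x) := by
  have hb : ∀ u ∈ Ioi (0:ℝ), ‖φ (u + t) * Complex.exp (s * (u:ℂ))‖ ≤
      Real.exp (ψ 0) * Real.exp (-ψ t) * (Real.exp (-ψ u) * Real.exp (s.re * u)) := by
    intro u hu
    have hu' : 0 < u := hu
    rw [norm_mul, Data.norm_cexp_mul, ← mul_assoc]
    refine mul_le_mul_of_nonneg_right ?_ (Real.exp_pos _).le
    refine (hφb _ (by linarith)).trans ?_
    rw [← Real.exp_add, ← Real.exp_add]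
    apply Real.exp_le_exp.2
    have := W.supadd u hu'.le t ht.le
    linarith
  have hi := (W.wint s.re).const_mul (Real.exp (ψ 0) * Real.exp (-ψ t))
  have hI : IntegrableOn (fun u : ℝ => φ (u + t) * Complex.exp (s * (u:ℂ))) (Ioi 0) := by
    refine Integrable.mono' hi ?_ ((ae_restrict_mem measurableSet_Ioi).mono hb)
    exact ((hφ.comp (measurable_id.add_const t)).mul (by fun_prop)).aestronglyMeasurable
  refine ⟨hI, ?_⟩
  rw [← integral_const_mul]
  exact setIntegral_mono_on hI.norm hi measurableSet_Ioi hb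

theorem EE_int (W : Weight ψ a) (hφ : Measurable φ) (hf : Measurable f)
    (hφb : ∀ x > 0, ‖φ x‖ ≤ Real.exp (-ψ x))
    (hfi : IntegrableOn (fun y => ‖f y‖ * Real.exp (-ψ y)) (Ioi 0)) (s : ℂ) :
    Integrable (EE φ f s) (volume.prod volume) := by
  rw [integrable_prod_iff' (EE_meas hφ hf s).aestronglyMeasurable]
  have hI : ∀ t : ℝ, 0 < t → Integrable (fun x : ℝ => EE φ f s (x, t)) := by
    intro t ht
    have h1 : Integrable (fun u : ℝ => EE φ f s (u + t, t)) := by
      have h2 := IntegrableOn.integrable_indicator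
        ((shift_int W hφ hφb s ht).1.const_mul (f t)) measurableSet_Ioi
      refine h2.congr (Eventually.of_forall fun u => ?_)
      exact (EE_shift s ht u).symm
    have h3 := h1.comp_sub_right t
    simpa using h3
  refine ⟨Eventually.of_forall fun t => ?_, ?_⟩
  · by_cases ht : 0 < t
    · exact hI t ht
    · simp only [EE_neg s ht]
      exact integrable_zero _ _ _
  · have hdom : Integrable ((Ioi (0:ℝ)).indicator fun t => (‖f t‖ * Real.exp (-ψ t)) *
        (Real.exp (ψ 0) * ∫ x in Ioi (0:ℝ), Real.exp (-ψ x) * Real.exp (s.re * x))) :=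
      IntegrableOn.integrable_indicator (hfi.mul_const _) measurableSet_Ioi
    refine hdom.mono' ?_ (Eventually.of_forall fun t => ?_)
    · have h : StronglyMeasurable (fun q : ℝ × ℝ => ‖EE φ f s (q.2, q.1)‖) :=
        ((EE_meas hφ hf s).comp measurable_swap).norm.stronglyMeasurable
      exact (h.integral_prod_right (ν := (volume : Measure ℝ))).aestronglyMeasurable
    · rw [Real.norm_eq_abs, abs_of_nonneg (integral_nonneg fun _ => norm_nonneg _)]
      by_cases ht : 0 < t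
      · rw [indicator_of_mem (show t ∈ Ioi (0:ℝ) from ht)]
        have e1 : ∫ x, ‖EE φ f s (x, t)‖ = ∫ u, ‖EE φ f s (u + t, t)‖ :=
          (integral_add_right_eq_self (fun x => ‖EE φ f s (x, t)‖) t).symm
        have e2 : ∫ u, ‖EE φ f s (u + t, t)‖
            = ∫ u in Ioi (0:ℝ), ‖f t‖ * ‖φ (u + t) * Complex.exp (s * (u:ℂ))‖ := by
          rw [← integral_indicator measurableSet_Ioi]
          refine integral_congr_ae (Eventually.of_forall fun u => ?_)
          simp only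
          rw [EE_shift s ht]
          by_cases hu : u ∈ Ioi (0:ℝ)
          · simp only [indicator_of_mem hu, norm_mul]
          · simp only [indicator_of_notMem hu, norm_zero]
        rw [e1, e2, integral_const_mul]
        calc ‖f t‖ * ∫ u in Ioi (0:ℝ), ‖φ (u + t) * Complex.exp (s * (u:ℂ))‖
            ≤ ‖f t‖ * (Real.exp (ψ 0) * Real.exp (-ψ t) *
                ∫ x in Ioi (0:ℝ), Real.exp (-ψ x) * Real.exp (s.re * x)) :=
              mul_le_mul_of_nonneg_left (shift_int W hφ hφb s ht).2 (norm_nonneg _)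
          _ = _ := by ring
      · rw [indicator_of_notMem (show t ∉ Ioi (0:ℝ) from ht)]
        simp only [EE_neg s ht, norm_zero, integral_zero, le_refl]

theorem EE_left {x : ℝ} (hx : 0 < x) (s : ℂ) :
    ∫ t, EE φ f s (x, t)
      = φ x * ∫ t in (0:ℝ)..x, f t * Complex.exp (s * ((x:ℂ) - (t:ℂ))) := by
  rw [intervalIntegral.integral_of_le hx.le, integral_Ioc_eq_integral_Ioo, ← integral_const_mul,
    ← integral_indicator measurableSet_Ioo]
  refine integral_congr_ae (Eventually.of_forall fun t => ?_)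
  by_cases ht : t ∈ Ioo 0 x
  · simp only [indicator_of_mem ht]
    unfold EE
    rw [indicator_of_mem]
    exact ht
  · simp only [indicator_of_notMem ht]
    unfold EE
    rw [indicator_of_notMem]
    exact ht

theorem conv_int (W : Weight ψ a) (hφ : Measurable φ) (hf : Measurable f)
    (hφb : ∀ x > 0, ‖φ x‖ ≤ Real.exp (-ψ x))
    (hfi : IntegrableOn (fun y => ‖f y‖ * Real.exp (-ψ y)) (Ioi 0)) (s : ℂ) :
    IntegrableOn (fun x => φ x * ∫ t in (0:ℝ)..x, f t * Complex.exp (s * ((x:ℂ) - (t:ℂ))))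
      (Ioi 0) := by
  have h1 := (EE_int W hφ hf hφb hfi s).integral_prod_left.integrableOn (s := Ioi (0:ℝ))
  refine h1.congr ((ae_restrict_mem measurableSet_Ioi).mono fun x hx => ?_)
  exact EE_left hx s

theorem conv_pairing (W : Weight ψ a) (hφ : Measurable φ) (hf : Measurable f)
    (hφb : ∀ x > 0, ‖φ x‖ ≤ Real.exp (-ψ x))
    (hfi : IntegrableOn (fun y => ‖f y‖ * Real.exp (-ψ y)) (Ioi 0)) (s : ℂ) :
    ∫ x in Ioi (0:ℝ), φ x * ∫ t in (0:ℝ)..x, f t * Complex.exp (s * ((x:ℂ) - (t:ℂ)))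
      = ∫ t in Ioi (0:ℝ), f t * ∫ u in Ioi (0:ℝ), φ (u + t) * Complex.exp (s * (u:ℂ)) := by
  have h1 := integral_integral_swap (f := fun x t => EE φ f s (x, t)) (EE_int W hφ hf hφb hfi s)
  have e1 : ∫ x, ∫ t, EE φ f s (x, t)
      = ∫ x in Ioi (0:ℝ), φ x * ∫ t in (0:ℝ)..x, f t * Complex.exp (s * ((x:ℂ) - (t:ℂ))) := by
    rw [← integral_indicator measurableSet_Ioi]
    refine integral_congr_ae (Eventually.of_forall fun x => ?_)
    by_cases hx : x ∈ Ioi (0:ℝ)
    · simp only [indicator_of_mem hx]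
      exact EE_left hx s
    · simp only [indicator_of_notMem hx]
      have hx' : ¬ 0 < x := hx
      simp only [EE_neg' s hx', integral_zero]
  have e2 : ∫ t, ∫ x, EE φ f s (x, t)
      = ∫ t in Ioi (0:ℝ), f t * ∫ u in Ioi (0:ℝ), φ (u + t) * Complex.exp (s * (u:ℂ)) := by
    rw [← integral_indicator measurableSet_Ioi]
    refine integral_congr_ae (Eventually.of_forall fun t => ?_)
    by_cases ht : t ∈ Ioi (0:ℝ)
    · simp only [indicator_of_mem ht]
      rw [← integral_add_right_eq_self (fun x => EE φ f s (x, t)) t, ← integral_const_mul,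
        ← integral_indicator measurableSet_Ioi]
      refine integral_congr_ae (Eventually.of_forall fun u => ?_)
      simp only
      rw [EE_shift s (show 0 < t from ht)]
    · simp only [indicator_of_notMem ht]
      have ht' : ¬ 0 < t := ht
      simp only [EE_neg s ht', integral_zero]
  rw [← e1, ← e2]
  exact h1

end pairing

section mu

variable {μ : Measure ℝ}

theorem mu_eq (hμ : μ = (volume.restrict (Ici (0:ℝ))).withDensity
    (fun x => ENNReal.ofReal (Real.exp (-ψ x)))) :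
    μ = (volume.restrict (Ioi (0:ℝ))).withDensity
      (fun x => ENNReal.ofReal (Real.exp (-ψ x))) := by
  rw [hμ, Measure.restrict_congr_set Ioi_ae_eq_Ici]

theorem dens_meas (W : Weight ψ a) : Measurable fun x => ENNReal.ofReal (Real.exp (-ψ x)) :=
  W.ψm.neg.exp.ennreal_ofReal

theorem ae_mu (W : Weight ψ a) (hμ : μ = (volume.restrict (Ici (0:ℝ))).withDensity
    (fun x => ENNReal.ofReal (Real.exp (-ψ x)))) {p : ℝ → Prop} :
    (∀ᵐ x ∂μ, p x) ↔ ∀ᵐ x : ℝ, 0 < x → p x := by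
  rw [mu_eq hμ, ae_withDensity_iff (dens_meas W), ae_restrict_iff' measurableSet_Ioi]
  refine eventually_congr (Eventually.of_forall fun x => ?_)
  have h : ENNReal.ofReal (Real.exp (-ψ x)) ≠ 0 := by
    rw [ne_eq, ENNReal.ofReal_eq_zero, not_le]; exact Real.exp_pos _
  simp only [mem_Ioi, ne_eq, h, not_false_eq_true, true_imp_iff]

theorem integrable_mu (W : Weight ψ a) (hμ : μ = (volume.restrict (Ici (0:ℝ))).withDensity
    (fun x => ENNReal.ofReal (Real.exp (-ψ x)))) {g : ℝ → ℂ} :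
    Integrable g μ ↔ IntegrableOn (fun x => (Real.exp (-ψ x) : ℂ) * g x) (Ioi 0) := by
  rw [mu_eq hμ, integrable_withDensity_iff_integrable_smul' (dens_meas W)
    (Eventually.of_forall fun x => ENNReal.ofReal_lt_top)]
  refine integrable_congr (Eventually.of_forall fun x => ?_)
  simp only
  rw [ENNReal.toReal_ofReal (Real.exp_pos _).le, Complex.real_smul]
  

theorem integral_mu (W : Weight ψ a) (hμ : μ = (volume.restrict (Ici (0:ℝ))).withDensity
    (fun x => ENNReal.ofReal (Real.exp (-ψ x)))) (g : ℝ → ℂ) :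
    ∫ x, g x ∂μ = ∫ x in Ioi (0:ℝ), (Real.exp (-ψ x) : ℂ) * g x := by
  rw [mu_eq hμ, integral_withDensity_eq_integral_toReal_smul (dens_meas W)
    (Eventually.of_forall fun x => ENNReal.ofReal_lt_top)]
  refine integral_congr_ae (Eventually.of_forall fun x => ?_)
  simp only
  rw [ENNReal.toReal_ofReal (Real.exp_pos _).le, Complex.real_smul]

theorem finite_mu (W : Weight ψ a) (hμ : μ = (volume.restrict (Ici (0:ℝ))).withDensity
    (fun x => ENNReal.ofReal (Real.exp (-ψ x)))) : IsFiniteMeasure μ := by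
  rw [mu_eq hμ]
  refine isFiniteMeasure_withDensity_ofReal ?_
  have := W.wint 0
  simp only [zero_mul, Real.exp_zero, mul_one] at this
  exact this.2

end mu

theorem ae_add {P : ℝ → Prop} (h : ∀ᵐ x : ℝ, P x) (b : ℝ) : ∀ᵐ x : ℝ, P (x + b) :=
  (measurePreserving_add_right volume b).quasiMeasurePreserving.ae h

/-- the core theorem applied to a translate -/
theorem vanish_beyond (hψm : Measurable ψ) (hconv : ConvexOn ℝ (Ici 0) ψ)
    (hlim : Tendsto (fun x => ψ x / x) atTop atTop) {f k : ℝ → ℂ} (hfm : Measurable f)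
    (hkm : Measurable k) (hkb : ∀ x > 0, ‖k x‖ ≤ Real.exp (-ψ x))
    (hfi : IntegrableOn (fun y => ‖f y‖ * Real.exp (-ψ y)) (Ioi 0))
    (horth : ∀ s : ℂ, ∫ y in Ioi (0:ℝ), f y *
      ∫ x in Ioi (0:ℝ), k (x + y) * Complex.exp (s * (x:ℂ)) = 0)
    {c : ℝ} (hc : 0 ≤ c) (hf0 : ¬ ∀ᵐ x : ℝ, 0 < x → x < c → f x = 0) :
    ∀ᵐ x : ℝ, c < x → k x = 0 := by
  obtain ⟨a, W⟩ := Weight.of_convex hψm hconv hlim
  set S : Set ℝ := {b | 0 ≤ b ∧ ∀ᵐ x : ℝ, 0 < x → x < b → f x = 0} with hS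
  have h0S : (0:ℝ) ∈ S := ⟨le_rfl, Eventually.of_forall fun x h1 h2 => absurd h2 (not_lt.2 h1.le)⟩
  have hub : ∀ b ∈ S, b ≤ c := by
    intro b hb
    by_contra hcon
    push Not at hcon
    apply hf0
    filter_upwards [hb.2] with x hx h1 h2
    exact hx h1 (h2.trans hcon)
  have hbdd : BddAbove S := ⟨c, fun b hb => hub b hb⟩
  set b := sSup S with hb
  have hb0 : 0 ≤ b := le_csSup hbdd h0S
  have hbc : b ≤ c := csSup_le ⟨0, h0S⟩ hub
  have hfb : ∀ᵐ x : ℝ, 0 < x → x < b → f x = 0 := by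
    have h1 : ∀ n : ℕ, ∀ᵐ x : ℝ, 0 < x → x < b - 1 / ((n:ℝ) + 1) → f x = 0 := by
      intro n
      have hn : b - 1 / ((n:ℝ) + 1) < b := by
        have : 0 < 1 / ((n:ℝ) + 1) := by positivity
        linarith
      obtain ⟨d, hd, hdlt⟩ := exists_lt_of_lt_csSup ⟨0, h0S⟩ hn
      filter_upwards [hd.2] with x hx h1 h2
      exact hx h1 (h2.trans hdlt)
    filter_upwards [ae_all_iff.2 h1] with x hx h2 h3
    obtain ⟨n, hn⟩ := exists_nat_one_div_lt (show 0 < b - x by linarith)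
    exact hx n h2 (by linarith)
  have hfb' : ∀ ε > 0, ¬ ∀ᵐ x : ℝ, 0 < x → x < b + ε → f x = 0 := by
    intro ε hε hcon
    have : b + ε ∈ S := ⟨by linarith, hcon⟩
    have := le_csSup hbdd this
    linarith
  obtain ⟨a', W'⟩ := Weight.of_convex (ψ := fun x => ψ (x + b))
    (hψm.comp (measurable_id.add_const b)) (shift_convex hconv hb0) (shift_lim W hb0)
  have D : Data (fun x => ψ (x + b)) a' (fun x => f (x + b)) (fun x => k (x + b)) := by
    refine { toWeight := W', fm := ?_, km := ?_, fint := ?_, kb := ?_, orth := ?_, alpha := ?_ }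
    · exact hfm.comp (measurable_id.add_const b)
    · exact hkm.comp (measurable_id.add_const b)
    · have h1 : Integrable ((Ioi b).indicator fun y => ‖f y‖ * Real.exp (-ψ y)) :=
        (hfi.mono_set (Ioi_subset_Ioi hb0)).integrable_indicator measurableSet_Ioi
      have h2 := h1.comp_add_right b
      have h3 : Integrable ((Ioi (0:ℝ)).indicator
          fun y => ‖f (y + b)‖ * Real.exp (-ψ (y + b))) := by
        refine h2.congr (Eventually.of_forall fun y => ?_)
        by_cases hy : y ∈ Ioi (0:ℝ)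
        · have hy' : y + b ∈ Ioi b := by
            have : 0 < y := hy
            simp only [mem_Ioi]; linarith
          simp only [indicator_of_mem hy, indicator_of_mem hy']
        · have hy' : y + b ∉ Ioi b := by
            have : ¬ 0 < y := hy
            simp only [mem_Ioi]; linarith
          simp only [indicator_of_notMem hy, indicator_of_notMem hy']
      exact (integrable_indicator_iff measurableSet_Ioi).1 h3
    · intro x hx
      exact hkb _ (by linarith)
    · intro s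
      rw [← horth s, ← integral_indicator measurableSet_Ioi, ← integral_indicator measurableSet_Ioi]
      rw [← integral_add_right_eq_self (fun y : ℝ => (Ioi (0:ℝ)).indicator (fun y => f y *
        ∫ x in Ioi (0:ℝ), k (x + y) * Complex.exp (s * (x:ℂ))) y) b]
      refine integral_congr_ae ?_
      have hne : ∀ᵐ y : ℝ, y ≠ 0 := by rw [ae_iff]; simp
      filter_upwards [ae_add hfb b, hne] with y hy hy0
      by_cases hyp : 0 < y
      · have h1 : y ∈ Ioi (0:ℝ) := hyp
        have h2 : y + b ∈ Ioi (0:ℝ) := by simp only [mem_Ioi]; linarith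
        simp only [indicator_of_mem h1, indicator_of_mem h2]
        congr 1
        refine integral_congr_ae (Eventually.of_forall fun x => ?_)
        simp only
        rw [add_assoc]
      · have h1 : y ∉ Ioi (0:ℝ) := hyp
        simp only [indicator_of_notMem h1]
        by_cases h2 : y + b ∈ Ioi (0:ℝ)
        · rw [indicator_of_mem h2]
          have : y < 0 := lt_of_le_of_ne (not_lt.1 hyp) hy0
          rw [hy h2 (by linarith), zero_mul]
        · rw [indicator_of_notMem h2]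
    · intro ε hε hcon
      apply hfb' ε hε
      have h1 := ae_add hcon (-b)
      have hne : ∀ᵐ y : ℝ, y ≠ b := by rw [ae_iff]; simp
      filter_upwards [h1, hfb, hne] with x hx1 hx2 hx3 h2 h3
      rcases lt_trichotomy x b with h | h | h
      · exact hx2 h2 h
      · exact absurd h hx3
      · have := hx1 (by linarith) (by linarith)
        simpa using this
  have h1 := ae_add D.main (-b)
  filter_upwards [h1] with x hx h2
  have := hx (by linarith)
  simpa using this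

section ideal

variable {μ : Measure ℝ}

theorem fint_of_Lp (W : Weight ψ a) (hμ : μ = (volume.restrict (Ici (0:ℝ))).withDensity
    (fun x => ENNReal.ofReal (Real.exp (-ψ x)))) (f : Lp ℂ 1 μ) :
    IntegrableOn (fun y => ‖(f : ℝ → ℂ) y‖ * Real.exp (-ψ y)) (Ioi 0) := by
  have h1 := ((integrable_mu W hμ).1 (L1.integrable_coeFn f)).norm
  refine h1.congr (Eventually.of_forall fun x => ?_)
  simp only
  rw [norm_mul, Complex.norm_real, Real.norm_eq_abs, abs_of_pos (Real.exp_pos _), mul_comm]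

theorem orth_of_ideal (W : Weight ψ a) (hμ : μ = (volume.restrict (Ici (0:ℝ))).withDensity
    (fun x => ENNReal.ofReal (Real.exp (-ψ x)))) (I : Submodule ℂ (Lp ℂ 1 μ))
    (hid : ∀ f ∈ I, ∀ g h : Lp ℂ 1 μ, (h : ℝ → ℂ) =ᵐ[μ]
      (fun x => ∫ t in (0:ℝ)..x, (f : ℝ → ℂ) t * (g : ℝ → ℂ) (x - t)) → h ∈ I)
    {k : ℝ → ℂ} (hkm : Measurable k) (hkb : ∀ x > 0, ‖k x‖ ≤ Real.exp (-ψ x))
    (hkI : ∀ f ∈ I, ∫ x in Ioi (0:ℝ), k x * (f : ℝ → ℂ) x = 0)
    {f : Lp ℂ 1 μ} (hf : f ∈ I) (s : ℂ) :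
    ∫ y in Ioi (0:ℝ), (f : ℝ → ℂ) y *
      ∫ x in Ioi (0:ℝ), k (x + y) * Complex.exp (s * (x:ℂ)) = 0 := by
  have hfm : Measurable (f : ℝ → ℂ) := (Lp.stronglyMeasurable f).measurable
  have hfi := fint_of_Lp W hμ f
  have hE : MemLp (fun x : ℝ => Complex.exp (s * (x:ℂ))) 1 μ := by
    rw [memLp_one_iff_integrable, integrable_mu W hμ]
    refine Integrable.mono' (W.wint s.re) ?_ ?_
    · exact ((Complex.measurable_ofReal.comp W.ψm.neg.exp).mul (by fun_prop)).aestronglyMeasurable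
    · refine Eventually.of_forall fun x => ?_
      rw [norm_mul, Data.norm_cexp_mul, Complex.norm_real, Real.norm_eq_abs,
        abs_of_pos (Real.exp_pos _)]
  set H : ℝ → ℂ := fun x => ∫ t in (0:ℝ)..x, (f : ℝ → ℂ) t * Complex.exp (s * ((x:ℂ) - (t:ℂ)))
    with hHdef
  have hH : MemLp H 1 μ := by
    rw [memLp_one_iff_integrable, integrable_mu W hμ]
    refine conv_int W (φ := fun x => (Real.exp (-ψ x) : ℂ))
      (Complex.measurable_ofReal.comp W.ψm.neg.exp) hfm ?_ hfi s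
    intro x _
    rw [Complex.norm_real, Real.norm_eq_abs, abs_of_pos (Real.exp_pos _)]
  have hgE : ∀ᵐ x : ℝ, 0 < x → (hE.toLp _ : ℝ → ℂ) x = Complex.exp (s * (x:ℂ)) :=
    (ae_mu W hμ).1 hE.coeFn_toLp
  have hHH : ∀ᵐ x : ℝ, 0 < x → (hH.toLp _ : ℝ → ℂ) x = H x :=
    (ae_mu W hμ).1 hH.coeFn_toLp
  have hmem : hH.toLp H ∈ I := by
    refine hid f hf (hE.toLp _) _ ?_
    refine (ae_mu W hμ).2 ?_
    filter_upwards [hHH] with x hx hx0
    rw [hx hx0, hHdef]
    refine intervalIntegral.integral_congr_ae ?_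
    have h1 : ∀ᵐ t : ℝ, 0 < x - t →
        (hE.toLp _ : ℝ → ℂ) (x - t) = Complex.exp (s * ((x - t : ℝ) : ℂ)) :=
      (Measure.measurePreserving_sub_left volume x).quasiMeasurePreserving.ae hgE
    have hne : ∀ᵐ t : ℝ, t ≠ x := by rw [ae_iff]; simp
    filter_upwards [h1, hne] with t ht1 ht2 ht3
    rw [uIoc_of_le hx0.le] at ht3
    have : t < x := lt_of_le_of_ne ht3.2 ht2
    rw [ht1 (by linarith)]
    push_cast
    ring_nf
  have h0 := hkI _ hmem
  have h1 : ∫ x in Ioi (0:ℝ), k x * (hH.toLp H : ℝ → ℂ) x = ∫ x in Ioi (0:ℝ), k x * H x := by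
    refine integral_congr_ae ?_
    rw [EventuallyEq, ae_restrict_iff' measurableSet_Ioi]
    filter_upwards [hHH] with x hx hx0
    rw [hx hx0]
  rw [h1] at h0
  rw [← h0]
  exact (conv_pairing W hkm hfm hkb hfi s).symm

/-- every nonzero closed ideal of the weighted convolution algebra is standard -/
theorem ideal_standard (hψm : Measurable ψ) (hconv : ConvexOn ℝ (Ici 0) ψ)
    (hlim : Tendsto (fun x => ψ x / x) atTop atTop)
    (hμ : μ = (volume.restrict (Ici (0:ℝ))).withDensity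
      (fun x => ENNReal.ofReal (Real.exp (-ψ x)))) (I : Submodule ℂ (Lp ℂ 1 μ))
    (hcl : IsClosed (I : Set (Lp ℂ 1 μ)))
    (hid : ∀ f ∈ I, ∀ g h : Lp ℂ 1 μ, (h : ℝ → ℂ) =ᵐ[μ]
      (fun x => ∫ t in (0:ℝ)..x, (f : ℝ → ℂ) t * (g : ℝ → ℂ) (x - t)) → h ∈ I)
    (hne : I ≠ ⊥) :
    ∃ b : ℝ, 0 ≤ b ∧ ∀ h : Lp ℂ 1 μ, h ∈ I ↔ ∀ᵐ x ∂μ, x < b → (h : ℝ → ℂ) x = 0 := by
  obtain ⟨a, W⟩ := Weight.of_convex hψm hconv hlim
  have hfin : IsFiniteMeasure μ := finite_mu W hμ
  -- the common vanishing threshold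
  set S : Set ℝ := {c | 0 ≤ c ∧ ∀ f ∈ I, ∀ᵐ x : ℝ, 0 < x → x < c → (f : ℝ → ℂ) x = 0} with hS
  have h0S : (0:ℝ) ∈ S :=
    ⟨le_rfl, fun f _ => Eventually.of_forall fun x h1 h2 => absurd h2 (not_lt.2 h1.le)⟩
  obtain ⟨f₀, hf₀I, hf₀⟩ := (Submodule.ne_bot_iff I).1 hne
  have hn : ∃ n : ℕ, ¬ ∀ᵐ x : ℝ, 0 < x → x < n → (f₀ : ℝ → ℂ) x = 0 := by
    by_contra hcon
    push Not at hcon
    apply hf₀
    refine (Lp.eq_zero_iff_ae_eq_zero (f := f₀)).2 ?_
    refine (ae_mu W hμ).2 ?_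
    filter_upwards [ae_all_iff.2 hcon] with x hx hx0
    obtain ⟨n, hn⟩ := exists_nat_gt x
    exact hx n hx0 hn
  obtain ⟨n, hn⟩ := hn
  have hub : ∀ c ∈ S, c ≤ n := by
    intro c hc
    by_contra hcon
    push Not at hcon
    apply hn
    filter_upwards [hc.2 f₀ hf₀I] with x hx h1 h2
    exact hx h1 (h2.trans hcon)
  have hbdd : BddAbove S := ⟨n, fun c hc => hub c hc⟩
  set b := sSup S with hb
  have hb0 : 0 ≤ b := le_csSup hbdd h0S
  have hvan : ∀ f ∈ I, ∀ᵐ x : ℝ, 0 < x → x < b → (f : ℝ → ℂ) x = 0 := by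
    intro f hf
    have h1 : ∀ n : ℕ, ∀ᵐ x : ℝ, 0 < x → x < b - 1 / ((n:ℝ) + 1) → (f : ℝ → ℂ) x = 0 := by
      intro n
      have hn : b - 1 / ((n:ℝ) + 1) < b := by
        have : 0 < 1 / ((n:ℝ) + 1) := by positivity
        linarith
      obtain ⟨d, hd, hdlt⟩ := exists_lt_of_lt_csSup ⟨0, h0S⟩ hn
      filter_upwards [hd.2 f hf] with x hx h1 h2
      exact hx h1 (h2.trans hdlt)
    filter_upwards [ae_all_iff.2 h1] with x hx h2 h3
    obtain ⟨n, hn⟩ := exists_nat_one_div_lt (show 0 < b - x by linarith)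
    exact hx n h2 (by linarith)
  refine ⟨b, hb0, fun h => ⟨fun hh => (ae_mu W hμ).2 (hvan h hh), fun hh => ?_⟩⟩
  by_contra hnot
  obtain ⟨Λ, hΛI, hΛh⟩ := exists_annihilator I hcl hnot
  obtain ⟨κ, hκm, hκb, hκ⟩ := exists_dual_rep Λ
  set C : ℝ := ‖Λ‖ + 1 with hC
  have hCpos : 0 < C := by positivity
  set k : ℝ → ℂ := fun x => ((C⁻¹ * Real.exp (-ψ x) : ℝ) : ℂ) * κ x with hk
  have hkm : Measurable k :=
    (Complex.measurable_ofReal.comp (W.ψm.neg.exp.const_mul _)).mul hκm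
  have hkb : ∀ x > 0, ‖k x‖ ≤ Real.exp (-ψ x) := by
    intro x _
    rw [hk]
    simp only
    rw [norm_mul, Complex.norm_real, Real.norm_eq_abs, abs_of_nonneg (by positivity)]
    have h1 := hκb x
    have h2 : C⁻¹ * ‖κ x‖ ≤ 1 := by
      rw [inv_mul_le_iff₀ hCpos]
      linarith
    calc C⁻¹ * Real.exp (-ψ x) * ‖κ x‖ = (C⁻¹ * ‖κ x‖) * Real.exp (-ψ x) := by ring
      _ ≤ 1 * Real.exp (-ψ x) := mul_le_mul_of_nonneg_right h2 (Real.exp_pos _).le
      _ = _ := one_mul _
  have hrep : ∀ f : Lp ℂ 1 μ, Λ f = (C : ℂ) * ∫ x in Ioi (0:ℝ), k x * (f : ℝ → ℂ) x := by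
    intro f
    rw [hκ f, integral_mu W hμ, ← integral_const_mul]
    refine integral_congr_ae (Eventually.of_forall fun x => ?_)
    simp only [hk]
    have : (C : ℂ) ≠ 0 := by exact_mod_cast hCpos.ne'
    push_cast
    field_simp
  have hkI : ∀ f ∈ I, ∫ x in Ioi (0:ℝ), k x * (f : ℝ → ℂ) x = 0 := by
    intro f hf
    have h1 := hrep f
    rw [hΛI f hf] at h1
    have : (C : ℂ) ≠ 0 := by exact_mod_cast hCpos.ne'
    exact (mul_eq_zero.1 h1.symm).resolve_left this
  -- k vanishes beyond b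
  have hkv : ∀ n : ℕ, ∀ᵐ x : ℝ, b + 1 / ((n:ℝ) + 1) < x → k x = 0 := by
    intro n
    have hpos : 0 < 1 / ((n:ℝ) + 1) := by positivity
    have hnS : b + 1 / ((n:ℝ) + 1) ∉ S := fun hcon => by
      have := le_csSup hbdd hcon
      linarith
    have : ∃ f ∈ I, ¬ ∀ᵐ x : ℝ, 0 < x → x < b + 1 / ((n:ℝ) + 1) → (f : ℝ → ℂ) x = 0 := by
      by_contra hcon
      push Not at hcon
      exact hnS ⟨by linarith, hcon⟩
    obtain ⟨f, hf, hf0⟩ := this
    exact vanish_beyond hψm hconv hlim (Lp.stronglyMeasurable f).measurable hkm hkb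
      (fint_of_Lp W hμ f) (fun s => orth_of_ideal W hμ I hid hkm hkb hkI hf s)
      (by linarith) hf0
  apply hΛh
  rw [hrep h]
  have hz : ∫ x in Ioi (0:ℝ), k x * (h : ℝ → ℂ) x = 0 := by
    rw [← integral_zero ℝ ℂ (μ := volume.restrict (Ioi (0:ℝ)))]
    refine integral_congr_ae ?_
    rw [EventuallyEq, ae_restrict_iff' measurableSet_Ioi]
    have hne' : ∀ᵐ x : ℝ, x ≠ b := by rw [ae_iff]; simp
    filter_upwards [ae_all_iff.2 hkv, (ae_mu W hμ).1 hh, hne'] with x h1 h2 h3 hx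
    rcases lt_trichotomy x b with h | h | h
    · rw [h2 hx h, mul_zero]
    · exact absurd h h3
    · obtain ⟨n, hn⟩ := exists_nat_one_div_lt (show 0 < x - b by linarith)
      rw [h1 n (by linarith), zero_mul]
  rw [hz, mul_zero]

end ideal

end Pool.Agent.Helper73.Dom
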