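import Pool.Agent.Helper73.Dom.Tools

set_option autoImplicit false
open MeasureTheory Filter Set
open scoped ENNReal

namespace Pool.Agent.Helper73.Dom


/-- minus the logarithm of a log-concave radical weight, with a subgradient selection -/
structure Weight (ψ a : ℝ → ℝ) : Prop where
  ψm : Measurable ψ
  am : Measurable a
  sub : ∀ y > 0, ∀ z ≥ 0, ψ y + a y * (z - y) ≤ ψ z
  lim : Tendsto (fun x => ψ x / x) atTop atTop
  supadd : ∀ x ≥ 0, ∀ y ≥ 0, ψ x + ψ y - ψ 0 ≤ ψ (x + y)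

/-- the data of the core theorem -/
structure Data (ψ a : ℝ → ℝ) (f k : ℝ → ℂ) : Prop extends Weight ψ a where
  fm : Measurable f
  km : Measurable k
  fint : IntegrableOn (fun y => ‖f y‖ * Real.exp (-ψ y)) (Ioi 0)
  kb : ∀ x > 0, ‖k x‖ ≤ Real.exp (-ψ x)
  orth : ∀ s : ℂ, ∫ y in Ioi (0:ℝ), f y * ∫ x in Ioi (0:ℝ), k (x + y) * Complex.exp (s * x) = 0
  alpha : ∀ ε > 0, ¬ (∀ᵐ x : ℝ, 0 < x → x < ε → f x = 0)

variable {ψ a : ℝ → ℝ} {f k : ℝ → ℂ}

namespace Weight

theorem mono (D : Weight ψ a) {x y : ℝ} (hx : 0 < x) (hxy : x ≤ y) : a x ≤ a y := by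
  rcases hxy.eq_or_lt with h | h
  · rw [h]
  have hy : 0 < y := hx.trans h
  have h1 := D.sub x hx y hy.le
  have h2 := D.sub y hy x hx.le
  nlinarith

/-- linear lower bounds of arbitrary slope -/
theorem lower (D : Weight ψ a) (c : ℝ) : ∃ m : ℝ, ∀ x ≥ 0, c * x - m ≤ ψ x := by
  obtain ⟨X, hX⟩ := (eventually_atTop.1 (D.lim.eventually (eventually_ge_atTop c)))
  set X' := max X 1 with hX'
  have hX'1 : 1 ≤ X' := le_max_right _ _
  refine ⟨|c| * X' + |ψ 1| + |a 1| * (X' + 1), fun x hx => ?_⟩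
  rcases le_total x X' with h | h
  · have h1 := D.sub 1 one_pos x hx
    have h2 : c * x ≤ |c| * X' := by
      calc c * x ≤ |c| * x := mul_le_mul_of_nonneg_right (le_abs_self c) hx
        _ ≤ |c| * X' := mul_le_mul_of_nonneg_left h (abs_nonneg _)
    have h3 : -(|a 1| * (X' + 1)) ≤ a 1 * (x - 1) := by
      have : |a 1 * (x - 1)| ≤ |a 1| * (X' + 1) := by
        rw [abs_mul]
        apply mul_le_mul_of_nonneg_left _ (abs_nonneg _)
        rw [abs_le]; constructor <;> linarith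
      linarith [neg_abs_le (a 1 * (x - 1))]
    have h4 := neg_abs_le (ψ 1)
    linarith
  · have hxp : 0 < x := by linarith
    have h1 := hX x (le_trans (le_max_left _ _) h)
    rw [le_div_iff₀ hxp] at h1
    have h2 : 0 ≤ |c| * X' + |ψ 1| + |a 1| * (X' + 1) := by positivity
    linarith

/-- integrability of exp(-ψ) against all exponentials -/
theorem wint (D : Weight ψ a) (c : ℝ) :
    IntegrableOn (fun x => Real.exp (-ψ x) * Real.exp (c * x)) (Ioi 0) := by
  obtain ⟨m, hm⟩ := D.lower (c + 1)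
  have h1 : IntegrableOn (fun x : ℝ => Real.exp m * Real.exp (-(1:ℝ) * x)) (Ioi 0) :=
    (exp_neg_integrableOn_Ioi 0 one_pos).const_mul _
  refine Integrable.mono' h1 ?_ ?_
  · exact ((D.ψm.neg.exp).mul (by fun_prop)).aestronglyMeasurable
  · refine (ae_restrict_mem measurableSet_Ioi).mono fun x hx => ?_
    have hx' : 0 < x := hx
    rw [Real.norm_eq_abs, abs_of_pos (by positivity), ← Real.exp_add, ← Real.exp_add]
    apply Real.exp_le_exp.2
    have := hm x hx'.le
    linarith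

end Weight

/-- Laplace transform of k -/
noncomputable def GG (k : ℝ → ℂ) (s : ℂ) : ℂ := ∫ x in Ioi (0:ℝ), k x * Complex.exp (s * (x:ℂ))

/-- shifted transform -/
noncomputable def JJ (k : ℝ → ℂ) (s : ℂ) (y : ℝ) : ℂ :=
  ∫ x in Ioi (0:ℝ), k (x + y) * Complex.exp (s * (x:ℂ))

/-- sublevel set of the subgradient -/
def AA (a : ℝ → ℝ) (σ : ℝ) : Set ℝ := {y | 0 < y ∧ a y ≤ σ}

/-- truncated transform of f -/
noncomputable def FF (a : ℝ → ℝ) (f : ℝ → ℂ) (σ : ℝ) (s : ℂ) : ℂ :=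
  ∫ y in AA a σ, f y * Complex.exp (-s * (y:ℂ))

/-- reflected truncated transform of f -/
noncomputable def FS (a : ℝ → ℝ) (f : ℝ → ℂ) (σ : ℝ) (s : ℂ) : ℂ :=
  ∫ y in AA a σ, ((starRingEnd ℂ) (f y) * Complex.exp (-(2 * (σ:ℂ)) * (y:ℂ))) *
    Complex.exp (s * (y:ℂ))

namespace Data

theorem norm_cexp_mul (s : ℂ) (x : ℝ) : ‖Complex.exp (s * (x:ℂ))‖ = Real.exp (s.re * x) := by
  rw [Complex.norm_exp]; simp

theorem k_int (D : Data ψ a f k) (s : ℂ) :
    IntegrableOn (fun x : ℝ => k x * Complex.exp (s * (x:ℂ))) (Ioi 0) := by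
  refine Integrable.mono' (D.wint s.re) ?_ ?_
  · exact (D.km.mul (by fun_prop)).aestronglyMeasurable
  · refine (ae_restrict_mem measurableSet_Ioi).mono fun x hx => ?_
    rw [norm_mul, norm_cexp_mul]
    exact mul_le_mul_of_nonneg_right (D.kb x hx) (Real.exp_pos _).le

theorem G_bound (D : Data ψ a f k) {c : ℝ} {s : ℂ} (hs : s.re ≤ c) :
    ‖GG k s‖ ≤ ∫ x in Ioi (0:ℝ), Real.exp (-ψ x) * Real.exp (c * x) := by
  refine norm_integral_le_of_norm_le (D.wint c) ?_
  refine (ae_restrict_mem measurableSet_Ioi).mono fun x hx => ?_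
  have hx' : (0:ℝ) < x := hx
  rw [norm_mul, norm_cexp_mul]
  apply mul_le_mul (D.kb x hx) _ (Real.exp_pos _).le (Real.exp_pos _).le
  exact Real.exp_le_exp.2 (mul_le_mul_of_nonneg_right hs hx'.le)

theorem kshift (D : Data ψ a f k) {x y : ℝ} (hx : 0 < x) (hy : 0 < y) :
    ‖k (x + y)‖ ≤ Real.exp (ψ 0) * Real.exp (-ψ y) * Real.exp (-ψ x) := by
  refine (D.kb _ (by linarith)).trans ?_
  rw [← Real.exp_add, ← Real.exp_add]
  apply Real.exp_le_exp.2
  have := D.supadd x hx.le y hy.le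
  linarith

theorem kshift_int (D : Data ψ a f k) (s : ℂ) {y : ℝ} (hy : 0 < y) :
    IntegrableOn (fun x : ℝ => k (x + y) * Complex.exp (s * (x:ℂ))) (Ioi 0) := by
  refine Integrable.mono' ((D.wint s.re).const_mul (Real.exp (ψ 0) * Real.exp (-ψ y))) ?_ ?_
  · exact ((D.km.comp (measurable_id.add_const y)).mul (by fun_prop)).aestronglyMeasurable
  · refine (ae_restrict_mem measurableSet_Ioi).mono fun x hx => ?_
    rw [norm_mul, norm_cexp_mul, ← mul_assoc]
    exact mul_le_mul_of_nonneg_right (D.kshift hx hy) (Real.exp_pos _).le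

theorem J_bound (D : Data ψ a f k) (s : ℂ) {y : ℝ} (hy : 0 < y) :
    ‖JJ k s y‖ ≤ Real.exp (ψ 0) * Real.exp (-ψ y) *
      ∫ x in Ioi (0:ℝ), Real.exp (-ψ x) * Real.exp (s.re * x) := by
  rw [← integral_const_mul]
  refine norm_integral_le_of_norm_le
    ((D.wint s.re).const_mul (Real.exp (ψ 0) * Real.exp (-ψ y))) ?_
  refine (ae_restrict_mem measurableSet_Ioi).mono fun x hx => ?_
  rw [norm_mul, norm_cexp_mul, ← mul_assoc]
  exact mul_le_mul_of_nonneg_right (D.kshift hx hy) (Real.exp_pos _).le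

theorem G_diff (D : Data ψ a f k) : Differentiable ℂ (GG k) := by
  refine laplace_differentiable D.km.aestronglyMeasurable fun c => ?_
  refine Integrable.mono' (D.wint c) ?_ ?_
  · exact ((D.km.norm).mul (by fun_prop)).aestronglyMeasurable
  · refine (ae_restrict_mem measurableSet_Ioi).mono fun x hx => ?_
    have hx' : (0:ℝ) < x := hx
    rw [Real.norm_eq_abs, abs_of_nonneg (by positivity), abs_of_pos hx']
    exact mul_le_mul_of_nonneg_right (D.kb x hx) (Real.exp_pos _).le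

theorem A_meas (D : Data ψ a f k) (σ : ℝ) : MeasurableSet (AA a σ) :=
  measurableSet_Ioi.inter (D.am measurableSet_Iic)

theorem A_sub (σ : ℝ) : AA a σ ⊆ Ioi 0 := fun _ h => h.1

/-- on the sublevel set ψ y ≤ ψ 0 + σ y -/
theorem A_le (D : Data ψ a f k) {σ y : ℝ} (hy : y ∈ AA a σ) : ψ y ≤ ψ 0 + σ * y := by
  have h1 := D.sub y hy.1 0 le_rfl
  have h2 : a y * y ≤ σ * y := mul_le_mul_of_nonneg_right hy.2 hy.1.le
  linarith

theorem A_bdd (D : Data ψ a f k) (σ : ℝ) : ∃ Y > 0, ∀ y ∈ AA a σ, y ≤ Y := by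
  obtain ⟨m, hm⟩ := D.lower (σ + 1)
  refine ⟨max 1 (ψ 0 + m), lt_of_lt_of_le one_pos (le_max_left _ _), fun y hy => ?_⟩
  refine le_trans ?_ (le_max_right _ _)
  have h1 := D.A_le hy
  have h2 := hm y hy.1.le
  linarith

theorem f_meas_cexp (D : Data ψ a f k) (s : ℂ) :
    Measurable (fun y : ℝ => f y * Complex.exp (-s * (y:ℂ))) := D.fm.mul (by fun_prop)

theorem fexp_le (D : Data ψ a f k) {σ : ℝ} {s : ℂ} (hs : σ ≤ s.re) {y : ℝ} (hy : y ∈ AA a σ) :
    ‖f y * Complex.exp (-s * (y:ℂ))‖ ≤ Real.exp (ψ 0) * (‖f y‖ * Real.exp (-ψ y)) := by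
  rw [norm_mul, norm_cexp_mul]
  have h1 := D.A_le hy
  have h2 : σ * y ≤ s.re * y := mul_le_mul_of_nonneg_right hs hy.1.le
  have h3 : Real.exp ((-s).re * y) ≤ Real.exp (ψ 0) * Real.exp (-ψ y) := by
    rw [← Real.exp_add]
    apply Real.exp_le_exp.2
    simp only [Complex.neg_re]
    linarith
  calc ‖f y‖ * Real.exp ((-s).re * y) ≤ ‖f y‖ * (Real.exp (ψ 0) * Real.exp (-ψ y)) :=
        mul_le_mul_of_nonneg_left h3 (norm_nonneg _)
    _ = _ := by ring

/-- the constant c_F -/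
noncomputable def cF (ψ : ℝ → ℝ) (f : ℝ → ℂ) : ℝ :=
  Real.exp (ψ 0) * ∫ y in Ioi (0:ℝ), ‖f y‖ * Real.exp (-ψ y)

theorem F_bound (D : Data ψ a f k) {σ : ℝ} {s : ℂ} (hs : σ ≤ s.re) :
    ‖FF a f σ s‖ ≤ cF ψ f := by
  have h1 : ‖FF a f σ s‖ ≤ ∫ y in AA a σ, Real.exp (ψ 0) * (‖f y‖ * Real.exp (-ψ y)) := by
    refine norm_integral_le_of_norm_le ((D.fint.mono_set (A_sub σ)).const_mul _) ?_
    exact (ae_restrict_mem (D.A_meas σ)).mono fun y hy => D.fexp_le hs hy
  refine h1.trans ?_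
  rw [integral_const_mul, cF]
  refine mul_le_mul_of_nonneg_left ?_ (Real.exp_pos _).le
  exact setIntegral_mono_set D.fint (Eventually.of_forall fun y => by positivity)
    (Eventually.of_forall fun x hx => A_sub σ hx)

theorem fA_int (D : Data ψ a f k) (σ : ℝ) (c : ℝ) :
    IntegrableOn (fun y : ℝ => ‖f y‖ * Real.exp (c * y)) (AA a σ) := by
  obtain ⟨Y, hY, hYb⟩ := D.A_bdd σ
  have h1 := ((D.fint.mono_set (A_sub (a := a) σ)).const_mul
    (Real.exp (ψ 0 + (|c| + |σ|) * Y)))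
  refine Integrable.mono' h1 ?_ ?_
  · exact ((D.fm.norm).mul (by fun_prop)).aestronglyMeasurable
  · refine (ae_restrict_mem (D.A_meas σ)).mono fun y hy => ?_
    rw [Real.norm_eq_abs, abs_of_nonneg (by positivity)]
    have h2 : Real.exp (c * y) ≤ Real.exp (ψ 0 + (|c| + |σ|) * Y) * Real.exp (-ψ y) := by
      rw [← Real.exp_add]
      apply Real.exp_le_exp.2
      have h3 := D.A_le hy
      have hy0 := hy.1
      have h4 : c * y ≤ |c| * Y :=
        (mul_le_mul_of_nonneg_right (le_abs_self c) hy0.le).trans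
          (mul_le_mul_of_nonneg_left (hYb y hy) (abs_nonneg _))
      have h5 : σ * y ≤ |σ| * Y :=
        (mul_le_mul_of_nonneg_right (le_abs_self σ) hy0.le).trans
          (mul_le_mul_of_nonneg_left (hYb y hy) (abs_nonneg _))
      linarith
    calc ‖f y‖ * Real.exp (c * y)
        ≤ ‖f y‖ * (Real.exp (ψ 0 + (|c| + |σ|) * Y) * Real.exp (-ψ y)) :=
          mul_le_mul_of_nonneg_left h2 (norm_nonneg _)
      _ = _ := by ring

theorem FS_diff (D : Data ψ a f k) (σ : ℝ) : Differentiable ℂ (FS a f σ) := by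
  refine laplace_differentiable
    (u := fun y : ℝ => (starRingEnd ℂ) (f y) * Complex.exp (-(2 * (σ:ℂ)) * (y:ℂ))) ?_ fun c => ?_
  · have h1 : Measurable fun y : ℝ => (starRingEnd ℂ) (f y) :=
      Complex.continuous_conj.measurable.comp D.fm
    exact (h1.mul (by fun_prop)).aestronglyMeasurable
  · have h2 := D.fA_int σ (-(2 * σ) + c)
    refine h2.congr ?_
    refine (ae_restrict_mem (D.A_meas σ)).mono fun y hy => ?_
    simp only
    rw [norm_mul, norm_cexp_mul, Complex.norm_conj, abs_of_pos hy.1]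
    have : (-(2 * (σ:ℂ))).re = -(2 * σ) := by simp
    rw [this, mul_assoc, ← Real.exp_add]
    congr 2
    ring

theorem FS_eq (σ : ℝ) (s : ℂ) :
    FS a f σ s = (starRingEnd ℂ) (FF a f σ (2 * σ - (starRingEnd ℂ) s)) := by
  rw [FF, ← integral_conj]
  refine integral_congr_ae (Eventually.of_forall fun y => ?_)
  simp only [map_mul, ← Complex.exp_conj, map_sub, map_neg, Complex.conj_conj, Complex.conj_ofReal,
    map_ofNat]
  rw [mul_assoc, ← Complex.exp_add]
  congr 2
  ring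

theorem FS_norm (σ : ℝ) (s : ℂ) :
    ‖FS a f σ s‖ = ‖FF a f σ (2 * σ - (starRingEnd ℂ) s)‖ := by
  rw [FS_eq, Complex.norm_conj]

theorem FS_bound (D : Data ψ a f k) {σ : ℝ} {s : ℂ} (hs : s.re ≤ σ) :
    ‖FS a f σ s‖ ≤ cF ψ f := by
  rw [FS_norm]
  apply D.F_bound
  simp
  linarith

/-- K_y(s) -/
noncomputable def KK (k : ℝ → ℂ) (s : ℂ) (y : ℝ) : ℂ :=
  Complex.exp (-s * (y:ℂ)) * GG k s - JJ k s y

theorem K_eq (D : Data ψ a f k) (s : ℂ) {y : ℝ} (hy : 0 < y) :
    KK k s y = ∫ x in Ioi (0:ℝ), (if x < y then k (y - x) else 0) * Complex.exp (-s * (x:ℂ)) := by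
  have e1 : Complex.exp (-s * (y:ℂ)) * GG k s
      = ∫ u, (Ioi (0:ℝ)).indicator (fun u : ℝ => k u * Complex.exp (s * ((u:ℂ) - (y:ℂ)))) u := by
    rw [integral_indicator measurableSet_Ioi, GG, ← integral_const_mul]
    refine integral_congr_ae (Eventually.of_forall fun u => ?_)
    simp only
    rw [mul_left_comm, ← Complex.exp_add]
    congr 2
    ring
  have e2 : JJ k s y
      = ∫ u, (Ioi y).indicator (fun u : ℝ => k u * Complex.exp (s * ((u:ℂ) - (y:ℂ)))) u := by
    rw [JJ, ← integral_indicator measurableSet_Ioi]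
    rw [← integral_add_right_eq_self (μ := volume)
      (fun u : ℝ => (Ioi y).indicator (fun u : ℝ => k u * Complex.exp (s * ((u:ℂ) - (y:ℂ)))) u) y]
    refine integral_congr_ae (Eventually.of_forall fun u => ?_)
    by_cases hu : 0 < u
    · have h1 : u ∈ Ioi (0:ℝ) := hu
      have h2 : u + y ∈ Ioi y := by simp only [mem_Ioi]; linarith
      simp only [indicator_of_mem h1, indicator_of_mem h2]
      congr 3
      push_cast; ring
    · have h1 : u ∉ Ioi (0:ℝ) := hu
      have h2 : u + y ∉ Ioi y := by simp only [mem_Ioi]; linarith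
      simp only [indicator_of_notMem h1, indicator_of_notMem h2]
  have e3 : (∫ x in Ioi (0:ℝ), (if x < y then k (y - x) else 0) * Complex.exp (-s * (x:ℂ)))
      = ∫ u, (Ioo (0:ℝ) y).indicator (fun u : ℝ => k u * Complex.exp (s * ((u:ℂ) - (y:ℂ)))) u := by
    rw [← integral_indicator measurableSet_Ioi]
    rw [← integral_sub_left_eq_self
      (fun u : ℝ => (Ioo (0:ℝ) y).indicator
        (fun u : ℝ => k u * Complex.exp (s * ((u:ℂ) - (y:ℂ)))) u) volume y]
    refine integral_congr_ae (Eventually.of_forall fun u => ?_)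
    by_cases hu : 0 < u
    · have h1 : u ∈ Ioi (0:ℝ) := hu
      by_cases hu2 : u < y
      · have h2 : y - u ∈ Ioo (0:ℝ) y := by simp only [mem_Ioo]; constructor <;> linarith
        simp only [indicator_of_mem h1, indicator_of_mem h2, if_pos hu2]
        congr 2
        push_cast; ring
      · have h2 : y - u ∉ Ioo (0:ℝ) y := by
          simp only [mem_Ioo, not_and]; intro; linarith
        simp only [indicator_of_mem h1, indicator_of_notMem h2, if_neg hu2, zero_mul]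
    · have h1 : u ∉ Ioi (0:ℝ) := hu
      have h2 : y - u ∉ Ioo (0:ℝ) y := by
        simp only [mem_Ioo, not_and]; intro; linarith
      simp only [indicator_of_notMem h1, indicator_of_notMem h2]
  rw [KK, e1, e2, e3, ← integral_sub]
  · refine integral_congr_ae ?_
    have hne : ∀ᵐ u : ℝ, u ≠ y := by
      rw [ae_iff]; simp
    filter_upwards [hne] with u hu
    rcases lt_trichotomy u y with h | h | h
    · by_cases h0 : 0 < u
      · have h1 : u ∈ Ioi (0:ℝ) := h0
        have h2 : u ∈ Ioo (0:ℝ) y := ⟨h0, h⟩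
        have h3 : u ∉ Ioi y := by simp only [mem_Ioi]; linarith
        simp only [indicator_of_mem h1, indicator_of_mem h2, indicator_of_notMem h3, sub_zero]
      · have h1 : u ∉ Ioi (0:ℝ) := h0
        have h2 : u ∉ Ioo (0:ℝ) y := fun hh => h0 hh.1
        have h3 : u ∉ Ioi y := by simp only [mem_Ioi]; linarith
        simp only [indicator_of_notMem h1, indicator_of_notMem h2, indicator_of_notMem h3, sub_zero]
    · exact absurd h hu
    · have h1 : u ∈ Ioi (0:ℝ) := hy.trans h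
      have h2 : u ∉ Ioo (0:ℝ) y := fun hh => absurd hh.2 (by linarith)
      have h3 : u ∈ Ioi y := h
      simp only [indicator_of_mem h1, indicator_of_notMem h2, indicator_of_mem h3, sub_self]
  · have hb : IntegrableOn (fun u : ℝ => k u * Complex.exp (s * ((u:ℂ) - (y:ℂ)))) (Ioi 0) := by
      refine ((D.k_int s).mul_const (Complex.exp (-s * (y:ℂ)))).congr
        (Eventually.of_forall fun u => ?_)
      simp only
      rw [mul_assoc, ← Complex.exp_add]
      congr 2
      ring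
    exact hb.integrable_indicator measurableSet_Ioi
  · have hb : IntegrableOn (fun u : ℝ => k u * Complex.exp (s * ((u:ℂ) - (y:ℂ)))) (Ioi 0) := by
      refine ((D.k_int s).mul_const (Complex.exp (-s * (y:ℂ)))).congr
        (Eventually.of_forall fun u => ?_)
      simp only
      rw [mul_assoc, ← Complex.exp_add]
      congr 2
      ring
    exact (hb.mono_set (Ioi_subset_Ioi hy.le)).integrable_indicator measurableSet_Ioi

open Classical in
/-- the kernel N -/
noncomputable def NN (a : ℝ → ℝ) (k : ℝ → ℂ) (σ : ℝ) (s : ℂ) (y : ℝ) : ℂ :=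
  if a y ≤ σ then KK k s y else - JJ k s y

theorem JJ_meas (D : Data ψ a f k) : Measurable (fun p : ℂ × ℝ => JJ k p.1 p.2) := by
  have h : StronglyMeasurable (fun q : (ℂ × ℝ) × ℝ => k (q.2 + q.1.2) * Complex.exp (q.1.1 * (q.2:ℂ))) := by
    apply Measurable.stronglyMeasurable
    exact (D.km.comp (by fun_prop)).mul (by fun_prop)
  exact (h.integral_prod_right (ν := volume.restrict (Ioi (0:ℝ)))).measurable

theorem KK_meas (D : Data ψ a f k) : Measurable (fun p : ℂ × ℝ => KK k p.1 p.2) := by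
  unfold KK
  refine Measurable.sub (Measurable.mul (by fun_prop) ?_) D.JJ_meas
  exact D.G_diff.continuous.measurable.comp measurable_fst

theorem NN_meas (D : Data ψ a f k) (σ : ℝ) : Measurable (fun p : ℂ × ℝ => NN a k σ p.1 p.2) := by
  unfold NN
  refine Measurable.ite ?_ D.KK_meas D.JJ_meas.neg
  exact (D.am.comp measurable_snd) measurableSet_Iic

theorem fJ_int (D : Data ψ a f k) (s : ℂ) :
    IntegrableOn (fun y => f y * JJ k s y) (Ioi 0) := by
  set W := ∫ x in Ioi (0:ℝ), Real.exp (-ψ x) * Real.exp (s.re * x)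
  refine Integrable.mono' (D.fint.mul_const (Real.exp (ψ 0) * W)) ?_ ?_
  · exact (D.fm.mul (D.JJ_meas.comp (by fun_prop : Measurable fun y : ℝ => (s, y)))).aestronglyMeasurable
  · refine (ae_restrict_mem measurableSet_Ioi).mono fun y hy => ?_
    rw [norm_mul]
    have h1 := D.J_bound s (show 0 < y from hy)
    calc ‖f y‖ * ‖JJ k s y‖ ≤ ‖f y‖ * (Real.exp (ψ 0) * Real.exp (-ψ y) * W) :=
          mul_le_mul_of_nonneg_left h1 (norm_nonneg _)
      _ = _ := by ring

/-- product formula -/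
theorem prod_formula (D : Data ψ a f k) (σ : ℝ) (s : ℂ) :
    FF a f σ s * GG k s = ∫ y in Ioi (0:ℝ), f y * NN a k σ s y := by
  have h0 : ∫ y in Ioi (0:ℝ), f y * JJ k s y = 0 := D.orth s
  have hA := D.A_meas σ
  have hi1 : IntegrableOn (fun y : ℝ => f y * Complex.exp (-s * (y:ℂ)) * GG k s) (AA a σ) := by
    refine Integrable.mul_const ?_ _
    refine Integrable.mono' (D.fA_int σ (-s.re)) (D.f_meas_cexp s).aestronglyMeasurable ?_
    refine Eventually.of_forall fun y => ?_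
    rw [norm_mul, norm_cexp_mul]
    simp
  have hi : IntegrableOn ((AA a σ).indicator (fun y : ℝ => f y * Complex.exp (-s * (y:ℂ)) * GG k s))
      (Ioi 0) := (hi1.integrable_indicator hA).integrableOn
  have e1 : FF a f σ s * GG k s
      = ∫ y in Ioi (0:ℝ), (AA a σ).indicator
          (fun y : ℝ => f y * Complex.exp (-s * (y:ℂ)) * GG k s) y := by
    rw [setIntegral_indicator hA, inter_eq_right.2 (A_sub σ), integral_mul_const, FF]
  have e2 : ∫ y in Ioi (0:ℝ), f y * NN a k σ s y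
      = ∫ y in Ioi (0:ℝ), ((AA a σ).indicator
          (fun y : ℝ => f y * Complex.exp (-s * (y:ℂ)) * GG k s) y - f y * JJ k s y) := by
    refine setIntegral_congr_fun measurableSet_Ioi fun y hy => ?_
    by_cases h : a y ≤ σ
    · have hy' : y ∈ AA a σ := ⟨hy, h⟩
      simp only [indicator_of_mem hy', NN, if_pos h, KK]
      ring
    · have hy' : y ∉ AA a σ := fun hh => h hh.2
      simp only [indicator_of_notMem hy', NN, if_neg h]
      ring
  rw [e2, integral_sub hi (D.fJ_int s), h0, sub_zero, e1]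

theorem window_fourier' {φ : ℝ → ℂ} (hφ : Measurable φ) {A b : ℝ} (hA : 0 ≤ A) (hb : 0 < b)
    (h : ∀ x > 0, ‖φ x‖ ≤ A * Real.exp (-b * x)) (t : ℝ) :
    ∫ τ in (t-1)..(t+1), ‖∫ x in Ioi (0:ℝ), φ x * Complex.exp (-((τ:ℂ) * (x:ℂ) * Complex.I))‖
      ≤ 6 * A / Real.sqrt b := by
  have h1 := window_fourier hφ hA hb h (-t)
  have h2 := intervalIntegral.integral_comp_neg (a := t - 1) (b := t + 1)
    (fun τ : ℝ => ‖∫ x in Ioi (0:ℝ), φ x * Complex.exp ((τ:ℂ) * (x:ℂ) * Complex.I)‖)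
  have e : (-(t + 1)) = -t - 1 := by ring
  have e' : (-(t - 1)) = -t + 1 := by ring
  rw [e, e'] at h2
  rw [← h2] at h1
  refine le_of_eq_of_le ?_ h1
  refine intervalIntegral.integral_congr fun τ _ => ?_
  congr 2
  funext x
  congr 2
  push_cast; ring

theorem window_N (D : Data ψ a f k) {σ : ℝ} {y : ℝ} (hy : 0 < y) (hne : a y ≠ σ) (t : ℝ) :
    ∫ τ in (t-1)..(t+1), ‖NN a k σ ((σ:ℂ) + (τ:ℂ) * Complex.I) y‖
      ≤ 6 * Real.exp (-ψ y) / Real.sqrt |σ - a y| := by
  rcases lt_or_gt_of_ne hne with h | h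
  · have hb : 0 < σ - a y := by linarith
    rw [abs_of_pos hb]
    have hφm : Measurable fun x : ℝ => (if x < y then k (y - x) else 0) * Complex.exp (-(σ:ℂ) * (x:ℂ)) := by
      refine Measurable.mul ?_ (by fun_prop)
      exact Measurable.ite measurableSet_Iio (D.km.comp (by fun_prop)) measurable_const
    have h1 := window_fourier' hφm (Real.exp_pos (-ψ y)).le hb (fun x hx => ?_) t
    · refine le_of_eq_of_le ?_ h1
      refine intervalIntegral.integral_congr fun τ _ => ?_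
      simp only [NN, if_pos h.le]
      rw [D.K_eq _ hy]
      congr 2
      funext x
      rw [mul_assoc, ← Complex.exp_add]
      congr 2
      ring
    · rw [norm_mul, norm_cexp_mul]
      by_cases hxy : x < y
      · rw [if_pos hxy]
        have h2 := D.kb (y - x) (by linarith)
        have h3 := D.sub y hy (y - x) (by linarith)
        calc ‖k (y - x)‖ * Real.exp ((-(σ:ℂ)).re * x)
            ≤ Real.exp (-ψ (y - x)) * Real.exp ((-(σ:ℂ)).re * x) :=
              mul_le_mul_of_nonneg_right h2 (Real.exp_pos _).le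
          _ ≤ Real.exp (-ψ y) * Real.exp (-(σ - a y) * x) := by
              rw [← Real.exp_add, ← Real.exp_add]
              apply Real.exp_le_exp.2
              simp only [Complex.neg_re, Complex.ofReal_re]
              nlinarith
      · rw [if_neg hxy, norm_zero, zero_mul]
        positivity
  · have hb : 0 < a y - σ := by linarith
    rw [abs_sub_comm, abs_of_pos hb]
    have hφm : Measurable fun x : ℝ => k (x + y) * Complex.exp ((σ:ℂ) * (x:ℂ)) := by
      exact (D.km.comp (by fun_prop)).mul (by fun_prop)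
    have h1 := window_fourier hφm (Real.exp_pos (-ψ y)).le hb (fun x hx => ?_) t
    · refine le_of_eq_of_le ?_ h1
      refine intervalIntegral.integral_congr fun τ _ => ?_
      simp only [NN, if_neg (not_le.2 h), norm_neg]
      rw [JJ]
      congr 2
      funext x
      rw [mul_assoc, ← Complex.exp_add]
      congr 2
      ring
    · rw [norm_mul, norm_cexp_mul]
      have h2 := D.kb (x + y) (by linarith)
      have h3 := D.sub y hy (x + y) (by linarith)
      calc ‖k (x + y)‖ * Real.exp (((σ:ℂ)).re * x)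
          ≤ Real.exp (-ψ (x + y)) * Real.exp (((σ:ℂ)).re * x) :=
            mul_le_mul_of_nonneg_right h2 (Real.exp_pos _).le
        _ ≤ Real.exp (-ψ y) * Real.exp (-(a y - σ) * x) := by
            rw [← Real.exp_add, ← Real.exp_add]
            apply Real.exp_le_exp.2
            simp only [Complex.ofReal_re]
            nlinarith

/-- the total mass ∫|f|w -/
noncomputable def fN (ψ : ℝ → ℝ) (f : ℝ → ℂ) : ℝ := ∫ y in Ioi (0:ℝ), ‖f y‖ * Real.exp (-ψ y)

theorem line_bound (D : Data ψ a f k) (τ₀ : ℝ) :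
    ∃ σ ∈ Icc τ₀ (τ₀ + 1), ∀ t : ℝ,
      ∫ τ in (t-1)..(t+1), ‖FF a f σ ((σ:ℂ) + (τ:ℂ) * Complex.I) *
        GG k ((σ:ℂ) + (τ:ℂ) * Complex.I)‖ ≤ 24 * fN ψ f := by
  classical
  set v : ℝ → ℝ≥0∞ := fun y => ‖f y‖ₑ * ENNReal.ofReal (Real.exp (-ψ y)) with hv
  have hvm : Measurable v := D.fm.enorm.mul (D.ψm.neg.exp.ennreal_ofReal)
  obtain ⟨σ, hσ, hle⟩ := exists_good_level (ν := volume.restrict (Ioi (0:ℝ))) hvm D.am τ₀
  refine ⟨σ, hσ, fun t => ?_⟩
  have hvint : ∫⁻ y in Ioi (0:ℝ), v y = ENNReal.ofReal (fN ψ f) := by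
    rw [fN, ofReal_integral_eq_lintegral_ofReal D.fint (Eventually.of_forall fun y => by positivity)]
    refine lintegral_congr fun y => ?_
    rw [ENNReal.ofReal_mul (norm_nonneg _), ofReal_norm]
  have hfN : 0 ≤ fN ψ f := integral_nonneg fun y => by positivity
  -- pointwise window bound in ENNReal
  have hw : ∀ y ∈ Ioi (0:ℝ), ‖f y‖ₑ * ∫⁻ τ in Icc (t-1) (t+1),
      ‖NN a k σ ((σ:ℂ) + (τ:ℂ) * Complex.I) y‖ₑ
      ≤ 6 * (v y * (ENNReal.ofReal |σ - a y|) ^ (-(1/2) : ℝ)) := by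
    intro y hy
    by_cases hf0 : f y = 0
    · simp [hf0]
    by_cases hay : a y = σ
    · have h1 : (ENNReal.ofReal |σ - a y|) ^ (-(1/2) : ℝ) = ⊤ := by
        rw [hay]; simp
      rw [h1]
      have h2 : v y ≠ 0 := by
        simp only [hv]
        refine mul_ne_zero ?_ ?_
        · simpa using hf0
        · rw [ne_eq, ENNReal.ofReal_eq_zero, not_le]; exact Real.exp_pos _
      rw [ENNReal.mul_top h2, ENNReal.mul_top (by norm_num)]
      exact le_top
    · have hpos : 0 < |σ - a y| := abs_pos.2 (sub_ne_zero.2 (Ne.symm hay))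
      have hNm : Measurable fun τ : ℝ => NN a k σ ((σ:ℂ) + (τ:ℂ) * Complex.I) y :=
        (D.NN_meas σ).comp (by fun_prop : Measurable fun τ : ℝ => ((σ:ℂ) + (τ:ℂ) * Complex.I, y))
      have hb : ∀ τ : ℝ, ‖NN a k σ ((σ:ℂ) + (τ:ℂ) * Complex.I) y‖ ≤
          Real.exp (-σ * y) * (∫ x in Ioi (0:ℝ), Real.exp (-ψ x) * Real.exp (σ * x)) +
          Real.exp (ψ 0) * Real.exp (-ψ y) *
            ∫ x in Ioi (0:ℝ), Real.exp (-ψ x) * Real.exp (σ * x) := by
        intro τ
        have hJ := D.J_bound ((σ:ℂ) + (τ:ℂ) * Complex.I) (show 0 < y from hy)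
        have hG := D.G_bound (c := σ) (s := (σ:ℂ) + (τ:ℂ) * Complex.I) (by simp)
        have hre : ((σ:ℂ) + (τ:ℂ) * Complex.I).re = σ := by simp
        rw [hre] at hJ
        have hW : 0 ≤ ∫ x in Ioi (0:ℝ), Real.exp (-ψ x) * Real.exp (σ * x) :=
          integral_nonneg fun x => by positivity
        unfold NN
        split_ifs
        · rw [KK]
          refine (norm_sub_le _ _).trans (add_le_add ?_ hJ)
          rw [norm_mul, norm_cexp_mul]
          have : (-((σ:ℂ) + (τ:ℂ) * Complex.I)).re = -σ := by simp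
          rw [this]
          exact mul_le_mul_of_nonneg_left hG (Real.exp_pos _).le
        · rw [norm_neg]
          refine hJ.trans ?_
          have : 0 ≤ Real.exp (-σ * y) * (∫ x in Ioi (0:ℝ), Real.exp (-ψ x) * Real.exp (σ * x)) := by
            positivity
          linarith
      have hNi : IntegrableOn (fun τ : ℝ => ‖NN a k σ ((σ:ℂ) + (τ:ℂ) * Complex.I) y‖)
          (Icc (t-1) (t+1)) := by
        refine Measure.integrableOn_of_bounded (M := Real.exp (-σ * y) * (∫ x in Ioi (0:ℝ), Real.exp (-ψ x) * Real.exp (σ * x)) +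
          Real.exp (ψ 0) * Real.exp (-ψ y) *
            ∫ x in Ioi (0:ℝ), Real.exp (-ψ x) * Real.exp (σ * x)) (by simp) hNm.norm.aestronglyMeasurable ?_
        refine Eventually.of_forall fun τ => ?_
        rw [norm_norm]
        exact hb τ
      have h1 := D.window_N (show 0 < y from hy) hay t
      rw [intervalIntegral.integral_of_le (by linarith), ← integral_Icc_eq_integral_Ioc] at h1
      have h2 : ∫⁻ τ in Icc (t-1) (t+1), ‖NN a k σ ((σ:ℂ) + (τ:ℂ) * Complex.I) y‖ₑ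
          ≤ ENNReal.ofReal (6 * Real.exp (-ψ y) / Real.sqrt |σ - a y|) := by
        have h3 := ofReal_integral_eq_lintegral_ofReal hNi
          (Eventually.of_forall fun τ => norm_nonneg _)
        have h4 : ∫⁻ τ in Icc (t-1) (t+1), ‖NN a k σ ((σ:ℂ) + (τ:ℂ) * Complex.I) y‖ₑ
            = ∫⁻ τ in Icc (t-1) (t+1),
              ENNReal.ofReal ‖NN a k σ ((σ:ℂ) + (τ:ℂ) * Complex.I) y‖ := by
          refine lintegral_congr fun τ => ?_
          rw [ofReal_norm]
        rw [h4, ← h3]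
        exact ENNReal.ofReal_le_ofReal h1
      have h5 : ENNReal.ofReal (6 * Real.exp (-ψ y) / Real.sqrt |σ - a y|)
          = 6 * (ENNReal.ofReal (Real.exp (-ψ y)) * (ENNReal.ofReal |σ - a y|) ^ (-(1/2) : ℝ)) := by
        rw [ENNReal.ofReal_rpow_of_pos hpos, ← ENNReal.ofReal_mul (Real.exp_pos _).le]
        have : (6 : ℝ≥0∞) = ENNReal.ofReal 6 := by norm_num
        rw [this, ← ENNReal.ofReal_mul (by norm_num)]
        congr 1
        rw [Real.rpow_neg (abs_nonneg _), ← Real.sqrt_eq_rpow]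
        field_simp
      calc ‖f y‖ₑ * ∫⁻ τ in Icc (t-1) (t+1), ‖NN a k σ ((σ:ℂ) + (τ:ℂ) * Complex.I) y‖ₑ
          ≤ ‖f y‖ₑ * (6 * (ENNReal.ofReal (Real.exp (-ψ y)) *
              (ENNReal.ofReal |σ - a y|) ^ (-(1/2) : ℝ))) := by
            gcongr
            exact h2.trans h5.le
        _ = _ := by simp only [hv]; ring
  have hmain : ∫⁻ τ in Icc (t-1) (t+1), ‖FF a f σ ((σ:ℂ) + (τ:ℂ) * Complex.I) *
        GG k ((σ:ℂ) + (τ:ℂ) * Complex.I)‖ₑ ≤ ENNReal.ofReal (24 * fN ψ f) := by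
    calc ∫⁻ τ in Icc (t-1) (t+1), ‖FF a f σ ((σ:ℂ) + (τ:ℂ) * Complex.I) *
        GG k ((σ:ℂ) + (τ:ℂ) * Complex.I)‖ₑ
        ≤ ∫⁻ τ in Icc (t-1) (t+1), ∫⁻ y in Ioi (0:ℝ),
            ‖f y‖ₑ * ‖NN a k σ ((σ:ℂ) + (τ:ℂ) * Complex.I) y‖ₑ := by
          refine lintegral_mono fun τ => ?_
          rw [D.prod_formula]
          refine (enorm_integral_le_lintegral_enorm _).trans ?_
          refine lintegral_mono fun y => ?_
          simp only [enorm_mul, le_refl]
      _ = ∫⁻ y in Ioi (0:ℝ), ∫⁻ τ in Icc (t-1) (t+1),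
            ‖f y‖ₑ * ‖NN a k σ ((σ:ℂ) + (τ:ℂ) * Complex.I) y‖ₑ := by
          refine lintegral_lintegral_swap ?_
          refine Measurable.aemeasurable ?_
          refine Measurable.mul (D.fm.comp measurable_snd).enorm ?_
          exact ((D.NN_meas σ).comp (by fun_prop : Measurable
            fun p : ℝ × ℝ => ((σ:ℂ) + (p.1:ℂ) * Complex.I, p.2))).enorm
      _ = ∫⁻ y in Ioi (0:ℝ), ‖f y‖ₑ * ∫⁻ τ in Icc (t-1) (t+1),
            ‖NN a k σ ((σ:ℂ) + (τ:ℂ) * Complex.I) y‖ₑ := by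
          refine lintegral_congr fun y => ?_
          rw [lintegral_const_mul]
          exact ((D.NN_meas σ).comp (by fun_prop : Measurable
            fun τ : ℝ => ((σ:ℂ) + (τ:ℂ) * Complex.I, y))).enorm
      _ ≤ ∫⁻ y in Ioi (0:ℝ), 6 * (v y * (ENNReal.ofReal |σ - a y|) ^ (-(1/2) : ℝ)) :=
          setLIntegral_mono' measurableSet_Ioi hw
      _ = 6 * ∫⁻ y in Ioi (0:ℝ), (v y * (ENNReal.ofReal |σ - a y|) ^ (-(1/2) : ℝ)) := by
          rw [lintegral_const_mul]
          refine hvm.mul ?_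
          exact ((measurable_const.sub D.am).abs.ennreal_ofReal).pow_const _
      _ ≤ 6 * (4 * ∫⁻ y in Ioi (0:ℝ), v y) := by gcongr
      _ = ENNReal.ofReal (24 * fN ψ f) := by
          rw [hvint, ENNReal.ofReal_mul (by norm_num), ← mul_assoc]
          norm_num
  -- back to real integrals
  have hFGc : Measurable fun τ : ℝ => FF a f σ ((σ:ℂ) + (τ:ℂ) * Complex.I) *
        GG k ((σ:ℂ) + (τ:ℂ) * Complex.I) := by
    have : (fun τ : ℝ => FF a f σ ((σ:ℂ) + (τ:ℂ) * Complex.I) *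
        GG k ((σ:ℂ) + (τ:ℂ) * Complex.I))
        = fun τ : ℝ => ∫ y in Ioi (0:ℝ), f y * NN a k σ ((σ:ℂ) + (τ:ℂ) * Complex.I) y := by
      funext τ; exact D.prod_formula σ _
    rw [this]
    have h : StronglyMeasurable (fun q : ℝ × ℝ => f q.2 * NN a k σ ((σ:ℂ) + (q.1:ℂ) * Complex.I) q.2) := by
      apply Measurable.stronglyMeasurable
      exact (D.fm.comp measurable_snd).mul ((D.NN_meas σ).comp (by fun_prop : Measurable
        fun q : ℝ × ℝ => ((σ:ℂ) + (q.1:ℂ) * Complex.I, q.2)))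
    exact (h.integral_prod_right (ν := volume.restrict (Ioi (0:ℝ)))).measurable
  rw [intervalIntegral.integral_of_le (by linarith), ← integral_Icc_eq_integral_Ioc]
  rw [integral_norm_eq_lintegral_enorm hFGc.aestronglyMeasurable]
  refine ENNReal.toReal_le_of_le_ofReal (by positivity) hmain

theorem fN_nonneg : 0 ≤ fN ψ f := integral_nonneg fun y => by positivity

theorem cF_nonneg : 0 ≤ cF ψ f :=
  mul_nonneg (Real.exp_pos _).le (integral_nonneg fun y => by positivity)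

/-- the bound of G on the left half plane -/
noncomputable def M0 (ψ : ℝ → ℝ) : ℝ := ∫ x in Ioi (0:ℝ), Real.exp (-ψ x) * Real.exp (0 * x)

theorem M0_nonneg : 0 ≤ M0 ψ := integral_nonneg fun y => by positivity

/-- the window bound -/
noncomputable def BB (ψ : ℝ → ℝ) (f : ℝ → ℂ) : ℝ := max (2 * (cF ψ f * M0 ψ)) (24 * fN ψ f)

theorem BB_nonneg : 0 ≤ BB ψ f :=
  le_max_of_le_right (mul_nonneg (by norm_num) fN_nonneg)

theorem window_left (D : Data ψ a f k) {σ : ℝ} (hσ : 0 < σ) {x : ℝ} (hx : x ≤ 0) (t : ℝ) :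
    ∫ τ in (t-1)..(t+1), ‖FS a f σ ((x:ℂ) + (τ:ℂ) * Complex.I) *
      GG k ((x:ℂ) + (τ:ℂ) * Complex.I)‖ ≤ BB ψ f := by
  have h1 : ∀ τ : ℝ, ‖FS a f σ ((x:ℂ) + (τ:ℂ) * Complex.I) *
      GG k ((x:ℂ) + (τ:ℂ) * Complex.I)‖ ≤ cF ψ f * M0 ψ := by
    intro τ
    rw [norm_mul]
    refine mul_le_mul (D.FS_bound ?_) (D.G_bound ?_) (norm_nonneg _) cF_nonneg
    · simp; linarith
    · simp [hx]
  have h2 := intervalIntegral.norm_integral_le_of_norm_le_const (a := t - 1) (b := t + 1)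
    (C := cF ψ f * M0 ψ)
    (f := fun τ : ℝ => ‖FS a f σ ((x:ℂ) + (τ:ℂ) * Complex.I) *
      GG k ((x:ℂ) + (τ:ℂ) * Complex.I)‖) (fun τ _ => by rw [norm_norm]; exact h1 τ)
  have h3 : |t + 1 - (t - 1)| = 2 := by
    rw [show t + 1 - (t - 1) = 2 by ring]; norm_num
  rw [h3] at h2
  refine (le_trans (le_abs_self _) h2).trans (le_trans (by linarith) (le_max_left _ _))

theorem window_all (D : Data ψ a f k) {σ : ℝ} (hσ : 0 < σ)
    (hline : ∀ t : ℝ, ∫ τ in (t-1)..(t+1), ‖FF a f σ ((σ:ℂ) + (τ:ℂ) * Complex.I) *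
        GG k ((σ:ℂ) + (τ:ℂ) * Complex.I)‖ ≤ 24 * fN ψ f) {x : ℝ} (hx : x ≤ σ) (t : ℝ) :
    ∫ τ in (t-1)..(t+1), ‖FS a f σ ((x:ℂ) + (τ:ℂ) * Complex.I) *
      GG k ((x:ℂ) + (τ:ℂ) * Complex.I)‖ ≤ BB ψ f := by
  rcases le_total x 0 with h0 | h0
  · exact D.window_left hσ h0 t
  refine strip_window (Φ := fun s => FS a f σ s * GG k s) ((D.FS_diff σ).mul D.G_diff) hσ
    (M := cF ψ f * ∫ x in Ioi (0:ℝ), Real.exp (-ψ x) * Real.exp (σ * x)) ?_ ?_ ?_ x t h0 hx
  · intro s hs0 hs1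
    rw [norm_mul]
    exact mul_le_mul (D.FS_bound hs1) (D.G_bound hs1) (norm_nonneg _) cF_nonneg
  · intro t
    exact D.window_left hσ le_rfl t
  · intro t
    refine le_trans (le_of_eq ?_) ((hline t).trans (le_max_right _ _))
    refine intervalIntegral.integral_congr fun τ _ => ?_
    simp only [norm_mul]
    rw [FS_norm]
    congr 3
    simp only [map_add, map_mul, Complex.conj_ofReal, Complex.conj_I]
    ring

theorem F_large (D : Data ψ a f k) {σ P : ℝ} (h1 : a 1 ≤ σ) (hP : σ ≤ P) :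
    ‖∫ x in Ioc (0:ℝ) 1, f x * Complex.exp (-(P:ℂ) * (x:ℂ))‖
      ≤ ‖FF a f σ (P:ℂ)‖ + cF ψ f * Real.exp (-(P - σ)) := by
  have hsub : Ioc (0:ℝ) 1 ⊆ AA a σ := fun y hy => ⟨hy.1, (D.mono hy.1 hy.2).trans h1⟩
  have hint : IntegrableOn (fun y : ℝ => f y * Complex.exp (-(P:ℂ) * (y:ℂ))) (AA a σ) := by
    refine Integrable.mono' (D.fA_int σ (-P)) (D.f_meas_cexp _).aestronglyMeasurable ?_
    refine Eventually.of_forall fun y => ?_
    rw [norm_mul, norm_cexp_mul]
    simp
  have e1 := setIntegral_sdiff (measurableSet_Ioc : MeasurableSet (Ioc (0:ℝ) 1)) hint hsub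
  have e2 : ∫ x in Ioc (0:ℝ) 1, f x * Complex.exp (-(P:ℂ) * (x:ℂ))
      = FF a f σ (P:ℂ) - ∫ x in AA a σ \ Ioc 0 1, f x * Complex.exp (-(P:ℂ) * (x:ℂ)) := by
    rw [e1, FF]; ring
  rw [e2]
  refine (norm_sub_le _ _).trans (add_le_add le_rfl ?_)
  have h2 : ‖∫ x in AA a σ \ Ioc 0 1, f x * Complex.exp (-(P:ℂ) * (x:ℂ))‖
      ≤ ∫ x in AA a σ \ Ioc 0 1, (Real.exp (ψ 0) * Real.exp (-(P - σ))) *
          (‖f x‖ * Real.exp (-ψ x)) := by
    refine norm_integral_le_of_norm_le ?_ ?_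
    · exact (D.fint.mono_set (sdiff_subset.trans (A_sub σ))).const_mul _
    · refine (ae_restrict_mem ((D.A_meas σ).diff measurableSet_Ioc)).mono fun y hy => ?_
      rw [norm_mul, norm_cexp_mul]
      have hyA := hy.1
      have hy1 : 1 < y := by
        by_contra hcon
        exact hy.2 ⟨hyA.1, not_lt.1 hcon⟩
      have h3 := D.A_le hyA
      have h4 : Real.exp ((-(P:ℂ)).re * y) ≤
          (Real.exp (ψ 0) * Real.exp (-(P - σ))) * Real.exp (-ψ y) := by
        rw [← Real.exp_add, ← Real.exp_add]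
        apply Real.exp_le_exp.2
        simp only [Complex.neg_re, Complex.ofReal_re]
        nlinarith
      calc ‖f y‖ * Real.exp ((-(P:ℂ)).re * y)
          ≤ ‖f y‖ * ((Real.exp (ψ 0) * Real.exp (-(P - σ))) * Real.exp (-ψ y)) :=
            mul_le_mul_of_nonneg_left h4 (norm_nonneg _)
        _ = _ := by ring
  refine h2.trans ?_
  rw [integral_const_mul, cF]
  have h5 : ∫ x in AA a σ \ Ioc 0 1, (‖f x‖ * Real.exp (-ψ x))
      ≤ ∫ x in Ioi (0:ℝ), (‖f x‖ * Real.exp (-ψ x)) :=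
    setIntegral_mono_set D.fint (Eventually.of_forall fun y => by positivity)
      (Eventually.of_forall fun x hx => A_sub (a := a) σ (sdiff_subset hx))
  have h6 := Real.exp_pos (ψ 0)
  have h7 := Real.exp_pos (-(P - σ))
  calc Real.exp (ψ 0) * Real.exp (-(P - σ)) * ∫ x in AA a σ \ Ioc 0 1, (‖f x‖ * Real.exp (-ψ x))
      ≤ Real.exp (ψ 0) * Real.exp (-(P - σ)) * ∫ x in Ioi (0:ℝ), (‖f x‖ * Real.exp (-ψ x)) :=
        mul_le_mul_of_nonneg_left h5 (by positivity)
    _ = _ := by ring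

theorem f_int01 (D : Data ψ a f k) : IntegrableOn f (Ioc 0 1) := by
  have h1 := (D.fint.mono_set (fun y hy => hy.1 : Ioc (0:ℝ) 1 ⊆ Ioi 0)).const_mul
    (Real.exp (ψ 0 + |a 1|))
  refine Integrable.mono' h1 D.fm.aestronglyMeasurable ?_
  refine (ae_restrict_mem measurableSet_Ioc).mono fun y hy => ?_
  have h2 : ψ y ≤ ψ 0 + |a 1| := by
    have h3 := D.A_le (σ := |a 1|) ⟨hy.1, (D.mono hy.1 hy.2).trans (le_abs_self _)⟩
    have : |a 1| * y ≤ |a 1| * 1 := mul_le_mul_of_nonneg_left hy.2 (abs_nonneg _)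
    linarith
  have h4 : 1 ≤ Real.exp (ψ 0 + |a 1|) * Real.exp (-ψ y) := by
    rw [← Real.exp_add]
    exact Real.one_le_exp (by linarith)
  calc ‖f y‖ = ‖f y‖ * 1 := (mul_one _).symm
    _ ≤ ‖f y‖ * (Real.exp (ψ 0 + |a 1|) * Real.exp (-ψ y)) :=
        mul_le_mul_of_nonneg_left h4 (norm_nonneg _)
    _ = _ := by ring

theorem growth (D : Data ψ a f k) : ∀ ε > 0, ∀ T : ℝ, ∃ R : ℝ, T ≤ R ∧
    ∀ z : ℂ, ‖z‖ ≤ R → ‖GG k z‖ ≤ (32 * BB ψ f * cF ψ f ^ 3 * Real.exp 1) * Real.exp (ε * R) := by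
  intro ε hε T
  set ε' := min (ε / 32) (1 / 72) with hε'
  have hε'pos : 0 < ε' := lt_min (by positivity) (by norm_num)
  have hε'1 : ε' ≤ ε / 32 := min_le_left _ _
  have hε'2 : ε' ≤ 1 / 72 := min_le_right _ _
  set T' := max T 0 with hT'
  set L := max (max (8 * cF ψ f) (8 * T' + 18)) (2 * a 1 + 2) with hL
  obtain ⟨P, hPL, hPf⟩ := exists_large_laplace D.f_int01 D.alpha ε' hε'pos L
  have hP1 : 8 * cF ψ f ≤ P := ((le_max_left _ _).trans (le_max_left _ _)).trans hPL
  have hP2 : 8 * T' + 18 ≤ P := ((le_max_right _ _).trans (le_max_left _ _)).trans hPL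
  have hP3 : 2 * a 1 + 2 ≤ P := (le_max_right _ _).trans hPL
  have hT0 : 0 ≤ T' := le_max_right _ _
  obtain ⟨σ, hσ, hline⟩ := D.line_bound (P / 2 - 1)
  have hσ1 : P / 2 - 1 ≤ σ := hσ.1
  have hσ2 : σ ≤ P / 2 := by linarith [hσ.2]
  have hσpos : 0 < σ := by linarith
  refine ⟨σ / 4 - 2, ?_, fun z hz => ?_⟩
  · have : T ≤ T' := le_max_left _ _
    linarith
  set c : ℂ := ((2 * σ - P : ℝ) : ℂ) with hc
  have hcre : c.re = 2 * σ - P := by simp [hc]
  have hcn : ‖c‖ ≤ 2 := by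
    rw [hc, Complex.norm_real, Real.norm_eq_abs, abs_le]; constructor <;> linarith
  have hzc : ‖z - c‖ ≤ σ / 4 := by
    calc ‖z - c‖ ≤ ‖z‖ + ‖c‖ := norm_sub_le _ _
      _ ≤ _ := by linarith
  have hzre : z.re + σ / 4 ≤ σ := by
    have h1 : z.re ≤ ‖z‖ := Complex.re_le_norm z
    linarith
  have hwin := fun x t (hx : x ≤ σ) => D.window_all hσpos hline hx t
  have hball : ∫ w in Metric.ball z (σ / 4), ‖FS a f σ w * GG k w‖ ≤ 4 * (σ / 4) ^ 2 * BB ψ f :=
    ball_of_window (Φ := fun s => FS a f σ s * GG k s)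
      ((D.FS_diff σ).mul D.G_diff).continuous hwin (by linarith) hzre
  have hball' : ∫ w in Metric.ball z (σ / 4), ‖FS a f σ w * GG k w‖
      ≤ (2 * BB ψ f) * (Real.pi * (σ / 4) ^ 2) := by
    refine hball.trans ?_
    have hB := BB_nonneg (ψ := ψ) (f := f)
    have hpi := Real.pi_gt_three
    have : 0 ≤ (σ / 4) ^ 2 * BB ψ f := by positivity
    nlinarith
  have hdiv := division_lemma (D.FS_diff σ) D.G_diff (c := c) (p := z) (R := σ / 4)
    (cF := cF ψ f) (B := 2 * BB ψ f) (by positivity) hzc (fun w hw => by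
      apply D.FS_bound
      rw [Metric.mem_ball, dist_eq_norm] at hw
      have h1 : (w - c).re ≤ ‖w - c‖ := Complex.re_le_norm _
      rw [Complex.sub_re, hcre] at h1
      linarith) hball'
  have hFS : ‖FS a f σ c‖ = ‖FF a f σ (P:ℂ)‖ := by
    rw [FS_norm]
    congr 2
    rw [hc, Complex.conj_ofReal]
    push_cast; ring
  have hlow : Real.exp (-ε' * P) / 2 ≤ ‖FF a f σ (P:ℂ)‖ := by
    have h1 := D.F_large (σ := σ) (P := P) (by linarith) (by linarith)
    have h2 : cF ψ f * Real.exp (-(P - σ)) ≤ Real.exp (-ε' * P) / 2 := by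
      have h3 : Real.exp (-(P - σ)) ≤ Real.exp (-ε' * P) * Real.exp (-(P / 4)) := by
        rw [← Real.exp_add]
        apply Real.exp_le_exp.2
        nlinarith
      have h4 : 2 * cF ψ f ≤ Real.exp (P / 4) := by
        have := Real.add_one_le_exp (P / 4)
        linarith
      have h5 : cF ψ f * Real.exp (-(P / 4)) ≤ 1 / 2 := by
        rw [Real.exp_neg, ← div_eq_mul_inv, div_le_iff₀ (Real.exp_pos _)]
        linarith
      calc cF ψ f * Real.exp (-(P - σ))
          ≤ cF ψ f * (Real.exp (-ε' * P) * Real.exp (-(P / 4))) :=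
            mul_le_mul_of_nonneg_left h3 cF_nonneg
        _ = Real.exp (-ε' * P) * (cF ψ f * Real.exp (-(P / 4))) := by ring
        _ ≤ Real.exp (-ε' * P) * (1 / 2) := mul_le_mul_of_nonneg_left h5 (Real.exp_pos _).le
        _ = _ := by ring
    linarith
  rw [hFS] at hdiv
  have h4 : (Real.exp (-ε' * P) / 2) ^ 4 ≤ ‖FF a f σ (P:ℂ)‖ ^ 4 :=
    pow_le_pow_left₀ (by positivity) hlow 4
  have h5 : ‖GG k z‖ * (Real.exp (-ε' * P) / 2) ^ 4 ≤ 2 * BB ψ f * cF ψ f ^ 3 :=
    (mul_le_mul_of_nonneg_left h4 (norm_nonneg _)).trans hdiv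
  have h6 : (Real.exp (-ε' * P) / 2) ^ 4 = Real.exp (-(4 * ε' * P)) / 16 := by
    rw [div_pow, ← Real.exp_nat_mul]
    congr 1
    · congr 1; push_cast; ring
    · norm_num
  rw [h6] at h5
  have h7 : ‖GG k z‖ ≤ 32 * BB ψ f * cF ψ f ^ 3 * Real.exp (4 * ε' * P) := by
    have h8 : Real.exp (-(4 * ε' * P)) * Real.exp (4 * ε' * P) = 1 := by
      rw [← Real.exp_add]; simp
    have h9 := Real.exp_pos (4 * ε' * P)
    calc ‖GG k z‖ = (‖GG k z‖ * (Real.exp (-(4 * ε' * P)) / 16)) * (16 * Real.exp (4 * ε' * P)) := by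
          have : (‖GG k z‖ * (Real.exp (-(4 * ε' * P)) / 16)) * (16 * Real.exp (4 * ε' * P))
            = ‖GG k z‖ * (Real.exp (-(4 * ε' * P)) * Real.exp (4 * ε' * P)) := by ring
          rw [this, h8, mul_one]
      _ ≤ (2 * BB ψ f * cF ψ f ^ 3) * (16 * Real.exp (4 * ε' * P)) :=
          mul_le_mul_of_nonneg_right h5 (by positivity)
      _ = _ := by ring
  refine h7.trans ?_
  have hBc : 0 ≤ 32 * BB ψ f * cF ψ f ^ 3 := by
    have := BB_nonneg (ψ := ψ) (f := f)
    have := cF_nonneg (ψ := ψ) (f := f)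
    positivity
  rw [mul_assoc (32 * BB ψ f * cF ψ f ^ 3) (Real.exp 1), ← Real.exp_add]
  refine mul_le_mul_of_nonneg_left ?_ hBc
  apply Real.exp_le_exp.2
  have hR' : 0 ≤ σ / 4 - 2 := by linarith
  have hPR : P ≤ 8 * (σ / 4 - 2) + 18 := by linarith
  have h10 : 4 * ε' * P ≤ 4 * ε' * (8 * (σ / 4 - 2) + 18) :=
    mul_le_mul_of_nonneg_left hPR (by positivity)
  have h11 : ε' * (σ / 4 - 2) ≤ ε / 32 * (σ / 4 - 2) := mul_le_mul_of_nonneg_right hε'1 hR'
  linarith

theorem G_zero (D : Data ψ a f k) (s : ℂ) : GG k s = 0 := by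
  have hb := bounded_of_small_growth D.G_diff (M := M0 ψ)
    (C := 32 * BB ψ f * cF ψ f ^ 3 * Real.exp 1) (fun s hs => D.G_bound hs) D.growth
  obtain ⟨m, hm⟩ := D.lower 0
  have hconst : ∀ z w, GG k z = GG k w := by
    intro z w
    refine D.G_diff.apply_eq_apply_of_bounded ?_ z w
    rw [isBounded_iff_forall_norm_le]
    exact ⟨_, fun y ⟨x, hx⟩ => hx ▸ hb x⟩
  have hn : ∀ n : ℝ, 0 < n → ‖GG k s‖ ≤ Real.exp m * n⁻¹ := by
    intro n hn
    rw [hconst s (-(n:ℂ))]
    have h1 := D.G_bound (c := -n) (s := -(n:ℂ)) (by simp)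
    refine h1.trans ?_
    have h2 : ∫ x in Ioi (0:ℝ), Real.exp m * Real.exp (-n * x) = Real.exp m * n⁻¹ := by
      rw [integral_const_mul]
      congr 1
      have := integral_exp_mul_Ioi (a := -n) (by linarith) 0
      rw [this]; simp
    rw [← h2]
    refine setIntegral_mono_on (D.wint _) ((exp_neg_integrableOn_Ioi 0 hn).const_mul _)
      measurableSet_Ioi fun x hx => ?_
    refine mul_le_mul_of_nonneg_right (Real.exp_le_exp.2 ?_) (Real.exp_pos _).le
    have := hm x (le_of_lt hx)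
    linarith
  have h0 : ‖GG k s‖ ≤ 0 := by
    refine le_of_forall_pos_le_add fun δ hδ => ?_
    have h1 := hn (Real.exp m / δ) (by positivity)
    rw [inv_div, mul_div_cancel₀] at h1
    · linarith
    · exact (Real.exp_pos m).ne'
  exact norm_le_zero_iff.1 h0

/-- the core theorem -/
theorem main (D : Data ψ a f k) : ∀ᵐ x : ℝ, 0 < x → k x = 0 := by
  have hki : IntegrableOn k (Ioi 0) := by
    have := D.k_int 0
    simpa using this
  have h := fourier_injective (k := (Ioi (0:ℝ)).indicator k)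
    (hki.integrable_indicator measurableSet_Ioi) (fun t => by
      have h1 := D.G_zero ((t:ℂ) * Complex.I)
      rw [GG, ← integral_indicator measurableSet_Ioi] at h1
      rw [← h1]
      refine integral_congr_ae (Eventually.of_forall fun x => ?_)
      by_cases hx : x ∈ Ioi (0:ℝ)
      · simp only [indicator_of_mem hx]
        congr 2
        ring
      · simp only [indicator_of_notMem hx, zero_mul])
  filter_upwards [h] with x hx hx0
  rw [indicator_of_mem (show x ∈ Ioi (0:ℝ) from hx0)] at hx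
  simpa using hx

end Data

end Pool.Agent.Helper73.Dom
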