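import Mathlib

set_option autoImplicit false
open MeasureTheory Filter Set
open scoped ENNReal

namespace Pool.Agent.Helper73.Dom

lemma circle_one {h : ℂ → ℂ} (hh : Differentiable ℂ h) (c : ℂ) {r : ℝ} (hr : 0 < r) :
    Real.log (‖h c‖ + 1) ≤ Real.circleAverage (fun z => Real.log (‖h z‖ + 1)) c r := by
  obtain ⟨b, hb, hcb⟩ : ∃ b : ℂ, ‖b‖ = 1 ∧ ‖h c + b‖ = ‖h c‖ + 1 := by
    by_cases h0 : h c = 0
    · exact ⟨1, by simp, by simp [h0]⟩
    · have hn : ‖h c‖ ≠ 0 := norm_ne_zero_iff.mpr h0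
      refine ⟨h c / ‖h c‖, ?_, ?_⟩
      · rw [norm_div, Complex.norm_real, norm_norm, div_self hn]
      · have h1 : h c + h c / (‖h c‖ : ℂ) = h c * ((1 + ‖h c‖⁻¹ : ℝ) : ℂ) := by
          push_cast; ring
        rw [h1, norm_mul, Complex.norm_real, Real.norm_eq_abs, abs_of_pos (by positivity)]
        field_simp
  set g : ℂ → ℂ := fun z => h z + b with hg
  have hga : Differentiable ℂ g := hh.add_const b
  have hgan : AnalyticOnNhd ℂ g (Metric.closedBall c |r|) := fun z _ => hga.analyticAt z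
  have hgc : g c ≠ 0 := by
    intro h0
    have : ‖g c‖ = ‖h c‖ + 1 := hcb
    rw [h0, norm_zero] at this
    have := norm_nonneg (h c)
    linarith
  have hJ := hgan.circleAverage_log_norm hr.ne' hgc
  have hsum : 0 ≤ ∑ᶠ u, (MeromorphicOn.divisor g (Metric.closedBall c |r|) u : ℝ) * Real.log (r * ‖c - u‖⁻¹) := by
    apply finsum_nonneg
    intro u
    by_cases hu : u ∈ Metric.closedBall c |r|
    · apply mul_nonneg
      · exact_mod_cast MeromorphicOn.AnalyticOnNhd.divisor_nonneg hgan u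
      · rw [mem_closedBall_iff_norm', abs_of_pos hr] at hu
        rcases (norm_nonneg (c - u)).eq_or_lt with h0 | h0
        · rw [← h0, inv_zero, mul_zero, Real.log_zero]
        · apply Real.log_nonneg
          rw [← div_eq_mul_inv, le_div_iff₀ h0, one_mul]
          exact hu
    · have : MeromorphicOn.divisor g (Metric.closedBall c |r|) u = 0 :=
        Function.locallyFinsuppWithin.apply_eq_zero_of_notMem _ hu
      rw [this]; simp
  have h1 : Real.log (‖h c‖ + 1) ≤ Real.circleAverage (Real.log ‖g ·‖) c r := by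
    rw [hJ]
    have : Real.log ‖g c‖ = Real.log (‖h c‖ + 1) := by rw [← hcb]
    rw [this]; linarith
  refine h1.trans ?_
  apply Real.circleAverage_mono
  · exact (hgan.mono Metric.sphere_subset_closedBall).meromorphicOn.circleIntegrable_log_norm
  · apply ContinuousOn.circleIntegrable'
    apply Continuous.continuousOn
    have hc : Continuous (fun z => ‖h z‖ + 1) := hh.continuous.norm.add continuous_const
    exact hc.log (fun z => by positivity)
  · intro z _
    by_cases h0 : g z = 0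
    · rw [h0, norm_zero, Real.log_zero]
      exact Real.log_nonneg (by linarith [norm_nonneg (h z)])
    · apply Real.log_le_log (norm_pos_iff.mpr h0)
      calc ‖g z‖ ≤ ‖h z‖ + ‖b‖ := norm_add_le _ _
        _ = ‖h z‖ + 1 := by rw [hb]

lemma area_of_circle {U : ℂ → ℝ} (hU : Continuous U) (c : ℂ)
    (h : ∀ r : ℝ, 0 < r → U c ≤ Real.circleAverage U c r) {R : ℝ} (hR : 0 < R) :
    Real.pi * R ^ 2 * U c ≤ ∫ z in Metric.ball c R, U z := by
  -- the rotated integrals
  have hrot : ∀ θ : ℝ, ∫ z in Metric.ball (0 : ℂ) R, U (c + Complex.exp (θ * Complex.I) * z) =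
      ∫ z in Metric.ball c R, U z := by
    intro θ
    have h1 : ∫ z in Metric.ball (0 : ℂ) R, U (c + Complex.exp (θ * Complex.I) * z) =
        ∫ z in Metric.ball (0 : ℂ) R, U (c + z) := by
      have hmp := (rotation (Circle.exp θ)).measurePreserving
      have hpre : (rotation (Circle.exp θ)) ⁻¹' (Metric.ball (0 : ℂ) R) = Metric.ball (0 : ℂ) R := by
        rw [LinearIsometryEquiv.preimage_ball, map_zero]
      have h2 := hmp.setIntegral_preimage_emb
        (rotation (Circle.exp θ)).toHomeomorph.measurableEmbedding (fun z => U (c + z))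
        (Metric.ball (0 : ℂ) R)
      rw [hpre] at h2
      rw [← h2]
      congr 1
    have h3 : ∫ z in Metric.ball (0 : ℂ) R, U (c + z) = ∫ z in Metric.ball c R, U z := by
      have hmp := measurePreserving_add_left (volume : Measure ℂ) c
      have hpre : (fun z => c + z) ⁻¹' (Metric.ball c R) = Metric.ball (0 : ℂ) R := by
        ext z
        simp [Metric.mem_ball, dist_eq_norm]
      have h2 := hmp.setIntegral_preimage_emb (measurableEmbedding_addLeft c) U (Metric.ball c R)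
      rw [hpre] at h2
      exact h2
    rw [h1, h3]
  -- mean over the angle
  have hcircle : ∀ z : ℂ, 2 * Real.pi * U c ≤
      ∫ θ in (0 : ℝ)..(2 * Real.pi), U (c + Complex.exp (θ * Complex.I) * z) := by
    intro z
    have hpi : 0 < 2 * Real.pi := Real.two_pi_pos
    by_cases hz : z = 0
    · simp [hz]
    · have h1 := h ‖z‖ (norm_pos_iff.mpr hz)
      rw [Real.circleAverage_eq_integral_add z.arg, smul_eq_mul, le_inv_mul_iff₀ hpi] at h1
      refine h1.trans (le_of_eq ?_)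
      congr 1
      funext θ
      congr 1
      unfold circleMap
      congr 1
      have h2 : z = ‖z‖ * Complex.exp (z.arg * Complex.I) := (Complex.norm_mul_exp_arg_mul_I z).symm
      conv_rhs => rw [h2]
      rw [Complex.ofReal_add, add_mul, Complex.exp_add]
      ring
  have hcontF : Continuous (fun p : ℝ × ℂ => U (c + Complex.exp (p.1 * Complex.I) * p.2)) := by
    fun_prop
  have hint : Integrable (Function.uncurry (fun (θ : ℝ) (z : ℂ) => U (c + Complex.exp (θ * Complex.I) * z)))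
      ((volume.restrict (uIoc 0 (2 * Real.pi))).prod (volume.restrict (Metric.ball (0 : ℂ) R))) := by
    rw [Measure.prod_restrict]
    have hK : IsCompact (Icc (0 : ℝ) (2 * Real.pi) ×ˢ Metric.closedBall (0 : ℂ) R) :=
      isCompact_Icc.prod (isCompact_closedBall _ _)
    have := (hcontF.continuousOn (s := Icc (0 : ℝ) (2 * Real.pi) ×ˢ Metric.closedBall (0 : ℂ) R)).integrableOn_compact
      (μ := (volume : Measure ℝ).prod (volume : Measure ℂ)) hK
    refine this.mono_set ?_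
    apply Set.prod_mono
    · rw [uIoc_of_le Real.two_pi_pos.le]; exact Ioc_subset_Icc_self
    · exact Metric.ball_subset_closedBall
  have hswap := intervalIntegral_integral_swap hint
  have hlhs : ∫ θ in (0 : ℝ)..(2 * Real.pi), ∫ z in Metric.ball (0 : ℂ) R,
      U (c + Complex.exp (θ * Complex.I) * z) = 2 * Real.pi * ∫ z in Metric.ball c R, U z := by
    simp_rw [hrot]
    rw [intervalIntegral.integral_const, sub_zero, smul_eq_mul]
  rw [hlhs] at hswap
  have hge : ∫ z in Metric.ball (0 : ℂ) R, 2 * Real.pi * U c ≤ ∫ z in Metric.ball (0 : ℂ) R,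
      ∫ θ in (0 : ℝ)..(2 * Real.pi), U (c + Complex.exp (θ * Complex.I) * z) := by
    apply setIntegral_mono
    · apply integrableOn_const
      · exact measure_ball_lt_top.ne
      · exact enorm_ne_top
    · have := hint.integral_prod_right
      refine (this.congr ?_)
      filter_upwards with z
      rw [intervalIntegral.intervalIntegral_eq_integral_uIoc]
      simp [Real.two_pi_pos.le]
    · exact hcircle
  have hvol : (volume : Measure ℂ).real (Metric.ball (0 : ℂ) R) = Real.pi * R ^ 2 := by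
    rw [Measure.real, Complex.volume_ball]
    simp [ENNReal.toReal_mul, hR.le]
    ring
  rw [setIntegral_const, hvol, smul_eq_mul, ← hswap] at hge
  have hpi : 0 < 2 * Real.pi := Real.two_pi_pos
  have : 2 * Real.pi * (Real.pi * R ^ 2 * U c) ≤ 2 * Real.pi * ∫ z in Metric.ball c R, U z := by
    linarith
  exact le_of_mul_le_mul_left this hpi

/-- area sub-mean-value property of log(|h|+δ) for entire h -/
theorem log_add_le_area {h : ℂ → ℂ} (hh : Differentiable ℂ h) {δ : ℝ} (hδ : 0 < δ) (c : ℂ)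
    {R : ℝ} (hR : 0 < R) :
    Real.pi * R ^ 2 * Real.log (‖h c‖ + δ) ≤ ∫ z in Metric.ball c R, Real.log (‖h z‖ + δ) := by
  set k : ℂ → ℂ := fun z => (δ : ℂ)⁻¹ * h z with hk
  have hkd : Differentiable ℂ k := hh.const_mul _
  have heq : ∀ z, Real.log (‖h z‖ + δ) = Real.log δ + Real.log (‖k z‖ + 1) := by
    intro z
    have h1 : ‖k z‖ = δ⁻¹ * ‖h z‖ := by
      rw [hk]
      simp only
      rw [norm_mul, norm_inv, Complex.norm_real, Real.norm_eq_abs, abs_of_pos hδ]
    rw [← Real.log_mul hδ.ne' (by positivity), h1]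
    congr 1
    field_simp
  have hkc : Continuous (fun z => Real.log (‖k z‖ + 1)) := by
    have hc : Continuous (fun z => ‖k z‖ + 1) := hkd.continuous.norm.add continuous_const
    exact hc.log (fun z => by positivity)
  have hUc : Continuous (fun z => Real.log (‖h z‖ + δ)) := by
    have hc : Continuous (fun z => ‖h z‖ + δ) := hh.continuous.norm.add continuous_const
    exact hc.log (fun z => by positivity)
  apply area_of_circle hUc c _ hR
  intro r hr
  have h1 := circle_one hkd c hr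
  have h2 : Real.circleAverage (fun z => Real.log (‖h z‖ + δ)) c r =
      Real.log δ + Real.circleAverage (fun z => Real.log (‖k z‖ + 1)) c r := by
    have h3 : (fun z => Real.log (‖h z‖ + δ)) = (fun _ => Real.log δ) + (fun z => Real.log (‖k z‖ + 1)) := by
      funext z; exact heq z
    rw [h3, Real.circleAverage_add (circleIntegrable_const _ _ _)
      (hkc.continuousOn.circleIntegrable'), Real.circleAverage_const]
  rw [h2, heq c]
  linarith

theorem division_lemma_aux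
    (J1 : ∀ h : ℂ → ℂ, Differentiable ℂ h → ∀ δ : ℝ, 0 < δ → ∀ (c : ℂ) (R : ℝ), 0 < R →
      Real.pi * R ^ 2 * Real.log (‖h c‖ + δ) ≤ ∫ z in Metric.ball c R, Real.log (‖h z‖ + δ))
    {F G : ℂ → ℂ} (hF : Differentiable ℂ F) (hG : Differentiable ℂ G) {c p : ℂ} {R cF B : ℝ}
    (hR : 0 < R) (hp : ‖p - c‖ ≤ R) (hcF : ∀ z ∈ Metric.ball c (2 * R), ‖F z‖ ≤ cF)
    (hB : ∫ z in Metric.ball p R, ‖F z * G z‖ ≤ B * (Real.pi * R ^ 2)) :
    ‖G p‖ * ‖F c‖ ^ 4 ≤ B * cF ^ 3 := by
  have hcF0 : 0 ≤ cF := le_trans (norm_nonneg _) (hcF c (Metric.mem_ball_self (by positivity)))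
  have hV : 0 < Real.pi * R ^ 2 := by positivity
  have hvol : ∀ (q : ℂ) (r : ℝ), 0 ≤ r →
      (volume : Measure ℂ).real (Metric.ball q r) = Real.pi * r ^ 2 := by
    intro q r hr
    rw [Measure.real, Complex.volume_ball]
    simp [ENNReal.toReal_mul, ENNReal.toReal_ofReal hr, mul_comm]
  have hB0 : 0 ≤ B := by
    have h0 : 0 ≤ ∫ z in Metric.ball p R, ‖F z * G z‖ :=
      integral_nonneg (fun z => norm_nonneg _)
    by_contra hneg
    push Not at hneg
    have : B * (Real.pi * R ^ 2) < 0 := mul_neg_of_neg_of_pos hneg hV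
    linarith
  obtain ⟨M0, hM0⟩ := (isCompact_closedBall p R).exists_bound_of_continuousOn
    hG.continuous.continuousOn
  set M : ℝ := max M0 0 with hMdef
  have hM : ∀ z ∈ Metric.ball p R, ‖G z‖ ≤ M := fun z hz =>
    le_trans (hM0 z (Metric.ball_subset_closedBall hz)) (le_max_left _ _)
  have hMn : 0 ≤ M := le_max_right _ _
  have hlogc : ∀ h : ℂ → ℂ, Continuous h → ∀ δ : ℝ, 0 < δ →
      Continuous fun z => Real.log (‖h z‖ + δ) := by
    intro h hh δ hδ
    exact Continuous.log (by fun_prop) (fun z => by positivity)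
  have hint : ∀ f : ℂ → ℝ, Continuous f → ∀ (q : ℂ) (r : ℝ), IntegrableOn f (Metric.ball q r) :=
    fun f hf q r => (hf.continuousOn.integrableOn_compact (isCompact_closedBall q r)).mono_set
      Metric.ball_subset_closedBall
  have hST : Metric.ball p R ⊆ Metric.ball c (2 * R) := by
    intro z hz
    rw [Metric.mem_ball] at hz ⊢
    have h1 : dist z c ≤ dist z p + dist p c := dist_triangle _ _ _
    have h2 : dist p c ≤ R := by rw [dist_eq_norm]; exact hp
    linarith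
  have key : ∀ δ : ℝ, 0 < δ →
      (‖G p‖ + δ) * (‖F c‖ + δ) ^ 4 ≤ (B + δ * (M + cF + δ)) * (cF + δ) ^ 3 := by
    intro δ hδ
    have h1 := J1 G hG δ hδ p R hR
    have h2 := J1 F hF δ hδ c (2 * R) (by positivity)
    set L : ℝ := Real.log (cF + δ) with hL
    have hcfF := hlogc F hF.continuous δ hδ
    have hcfG := hlogc G hG.continuous δ hδ
    have h3 : ∫ z in Metric.ball p R, (L - Real.log (‖F z‖ + δ)) ≤
        ∫ z in Metric.ball c (2 * R), (L - Real.log (‖F z‖ + δ)) := by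
      apply setIntegral_mono_set
      · exact hint _ (continuous_const.sub hcfF) _ _
      · filter_upwards [ae_restrict_mem measurableSet_ball] with z hz
        have : Real.log (‖F z‖ + δ) ≤ L :=
          Real.log_le_log (by positivity) (by linarith [hcF z hz])
        simpa using this
      · exact hST.eventuallyLE
    rw [integral_sub (hint _ continuous_const _ _) (hint _ hcfF _ _),
      integral_sub (hint _ continuous_const _ _) (hint _ hcfF _ _),
      setIntegral_const, setIntegral_const, hvol p R hR.le, hvol c (2 * R) (by positivity),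
      smul_eq_mul, smul_eq_mul] at h3
    set m : ℝ := B + δ * (M + cF + δ) with hm
    have hm0 : 0 < m := by positivity
    have h4 : ∫ z in Metric.ball p R, (Real.log (‖G z‖ + δ) + Real.log (‖F z‖ + δ)) ≤
        ∫ z in Metric.ball p R, ((Real.log m - 1) +
          (‖F z * G z‖ + δ * (M + cF + δ)) / m) := by
      apply setIntegral_mono_on
      · exact hint _ (hcfG.add hcfF) _ _
      · apply hint
        have := hF.continuous
        have := hG.continuous
        fun_prop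
      · exact measurableSet_ball
      · intro z hz
        have hg := hM z hz
        have hf := hcF z (hST hz)
        have hgp : 0 < ‖G z‖ + δ := by positivity
        have hfp : 0 < ‖F z‖ + δ := by positivity
        rw [← Real.log_mul hgp.ne' hfp.ne']
        set u : ℝ := ‖F z * G z‖ + δ * (M + cF + δ) with hu
        have hu0 : 0 < u := by positivity
        have h5 : (‖G z‖ + δ) * (‖F z‖ + δ) ≤ u := by
          rw [hu, norm_mul]
          nlinarith [mul_le_mul_of_nonneg_left hg hδ.le, mul_le_mul_of_nonneg_left hf hδ.le]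
        have h6 : Real.log ((‖G z‖ + δ) * (‖F z‖ + δ)) ≤ Real.log u :=
          Real.log_le_log (by positivity) h5
        have h7 : Real.log (u / m) ≤ u / m - 1 := Real.log_le_sub_one_of_pos (by positivity)
        rw [Real.log_div hu0.ne' hm0.ne'] at h7
        linarith
    rw [integral_add (hint _ hcfG _ _) (hint _ hcfF _ _)] at h4
    have hcFG : Continuous fun z => ‖F z * G z‖ := by
      have := hF.continuous
      have := hG.continuous
      fun_prop
    have h8 : ∫ z in Metric.ball p R, ((Real.log m - 1) +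
          (‖F z * G z‖ + δ * (M + cF + δ)) / m) =
        Real.pi * R ^ 2 * (Real.log m - 1) + ((∫ z in Metric.ball p R, ‖F z * G z‖) +
          Real.pi * R ^ 2 * (δ * (M + cF + δ))) / m := by
      have hc2 : Continuous fun z => (‖F z * G z‖ + δ * (M + cF + δ)) / m :=
        (hcFG.add continuous_const).div_const m
      rw [integral_add (hint _ continuous_const _ _) (hint _ hc2 _ _), integral_div,
        integral_add (hint _ hcFG _ _) (hint _ continuous_const _ _),
        setIntegral_const, setIntegral_const, hvol p R hR.le, smul_eq_mul, smul_eq_mul]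
    rw [h8] at h4
    have h9 : ((∫ z in Metric.ball p R, ‖F z * G z‖) +
          Real.pi * R ^ 2 * (δ * (M + cF + δ))) / m ≤ Real.pi * R ^ 2 := by
      rw [div_le_iff₀ hm0, hm]
      nlinarith [hB]
    have h10 : Real.pi * R ^ 2 * (Real.log (‖G p‖ + δ) + 4 * Real.log (‖F c‖ + δ)) ≤
        Real.pi * R ^ 2 * (Real.log m + 3 * L) := by
      nlinarith [h1, h2, h3, h4, h9]
    have h11 := le_of_mul_le_mul_left h10 hV
    have hg0 : 0 < ‖G p‖ + δ := by positivity
    have hf0 : 0 < ‖F c‖ + δ := by positivity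
    have hc0 : 0 < cF + δ := by positivity
    have h12 : Real.log ((‖G p‖ + δ) * (‖F c‖ + δ) ^ 4) ≤
        Real.log (m * (cF + δ) ^ 3) := by
      rw [Real.log_mul hg0.ne' (by positivity), Real.log_mul hm0.ne' (by positivity),
        Real.log_pow, Real.log_pow]
      push_cast
      linarith
    exact (Real.log_le_log_iff (by positivity) (by positivity)).1 h12
  have hl : Tendsto (fun δ : ℝ => (‖G p‖ + δ) * (‖F c‖ + δ) ^ 4) (nhdsWithin 0 (Ioi 0))
      (nhds ((‖G p‖ + 0) * (‖F c‖ + 0) ^ 4)) := by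
    apply tendsto_nhdsWithin_of_tendsto_nhds
    apply Continuous.tendsto
    fun_prop
  have hr : Tendsto (fun δ : ℝ => (B + δ * (M + cF + δ)) * (cF + δ) ^ 3) (nhdsWithin 0 (Ioi 0))
      (nhds ((B + 0 * (M + cF + 0)) * (cF + 0) ^ 3)) := by
    apply tendsto_nhdsWithin_of_tendsto_nhds
    apply Continuous.tendsto (f := fun δ : ℝ => (B + δ * (M + cF + δ)) * (cF + δ) ^ 3)
    fun_prop
  have := le_of_tendsto_of_tendsto hl hr (by
    filter_upwards [self_mem_nhdsWithin] with δ hδ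
    exact key δ hδ)
  simpa using this

theorem division_lemma
    {F G : ℂ → ℂ} (hF : Differentiable ℂ F) (hG : Differentiable ℂ G) {c p : ℂ} {R cF B : ℝ}
    (hR : 0 < R) (hp : ‖p - c‖ ≤ R) (hcF : ∀ z ∈ Metric.ball c (2 * R), ‖F z‖ ≤ cF)
    (hB : ∫ z in Metric.ball p R, ‖F z * G z‖ ≤ B * (Real.pi * R ^ 2)) :
    ‖G p‖ * ‖F c‖ ^ 4 ≤ B * cF ^ 3 :=
  division_lemma_aux (fun _ hh _ hδ c _ hR => log_add_le_area hh hδ c hR) hF hG hR hp hcF hB


/-- the window average as an integral over `[-1,1]` -/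
theorem sw_shift (Φ : ℂ → ℂ) (x t : ℝ) :
    ∫ τ in (t-1)..(t+1), ‖Φ ((x:ℂ) + (τ:ℂ) * Complex.I)‖
      = ∫ τ in (-1 : ℝ)..1, ‖Φ (((x:ℂ) + (t:ℂ) * Complex.I) + (τ:ℂ) * Complex.I)‖ := by
  have h := intervalIntegral.integral_comp_add_left (a := -1) (b := 1)
    (fun τ : ℝ => ‖Φ ((x:ℂ) + (τ:ℂ) * Complex.I)‖) t
  rw [← sub_eq_add_neg] at h
  rw [← h]
  refine intervalIntegral.integral_congr fun τ _ => ?_
  change ‖Φ ((x:ℂ) + ((t + τ : ℝ) : ℂ) * Complex.I)‖ = _
  congr 2
  push_cast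
  ring

theorem sw_cont {Φ : ℂ → ℂ} (hΦ : Continuous Φ) (s : ℂ) :
    Continuous fun τ : ℝ => Φ (s + (τ:ℂ) * Complex.I) := by
  fun_prop

theorem sw_bound {Φ : ℂ → ℂ} (hΦ : Continuous Φ) {χ : ℝ → ℂ} (hχ1 : ∀ τ, ‖χ τ‖ ≤ 1) (s : ℂ) :
    ‖∫ τ in (-1 : ℝ)..1, Φ (s + (τ:ℂ) * Complex.I) * χ τ‖
      ≤ ∫ τ in (-1 : ℝ)..1, ‖Φ (s + (τ:ℂ) * Complex.I)‖ := by
  refine intervalIntegral.norm_integral_le_of_norm_le (by norm_num) ?_
    ((sw_cont hΦ s).norm.intervalIntegrable _ _)
  refine Eventually.of_forall fun τ _ => ?_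
  rw [norm_mul]
  exact mul_le_of_le_one_right (norm_nonneg _) (hχ1 τ)

theorem sw_diff {Φ : ℂ → ℂ} (hΦ : Differentiable ℂ Φ) {χ : ℝ → ℂ} (hχ : Measurable χ)
    (hχ1 : ∀ τ, ‖χ τ‖ ≤ 1) :
    Differentiable ℂ fun s => ∫ τ in (-1 : ℝ)..1, Φ (s + (τ:ℂ) * Complex.I) * χ τ := by
  intro s₀
  have hd : Continuous (deriv Φ) := (hΦ.contDiff (n := 1)).continuous_deriv le_rfl
  obtain ⟨C, hC⟩ := (isCompact_closedBall s₀ 3).bddAbove_image hd.norm.continuousOn
  have hmeas : ∀ {Ψ : ℂ → ℂ}, Continuous Ψ → ∀ s : ℂ,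
      AEStronglyMeasurable (fun τ : ℝ => Ψ (s + (τ:ℂ) * Complex.I) * χ τ)
        ((volume : Measure ℝ).restrict (Set.uIoc (-1 : ℝ) 1)) := by
    intro Ψ hΨ s
    exact ((sw_cont hΨ s).measurable.mul hχ).aestronglyMeasurable
  have h := intervalIntegral.hasDerivAt_integral_of_dominated_loc_of_deriv_le (𝕜 := ℂ)
    (μ := (volume : Measure ℝ)) (a := -1) (b := 1) (x₀ := s₀) (s := Metric.ball s₀ 1)
    (F := fun s τ => Φ (s + (τ:ℂ) * Complex.I) * χ τ)
    (F' := fun s τ => deriv Φ (s + (τ:ℂ) * Complex.I) * χ τ)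
    (bound := fun _ => C)
    (Metric.ball_mem_nhds s₀ one_pos)
    (Eventually.of_forall fun s => hmeas hΦ.continuous s)
    (((sw_cont hΦ.continuous s₀).intervalIntegrable _ _).mono_fun (hmeas hΦ.continuous s₀)
      (Eventually.of_forall fun τ => by
        change ‖Φ (s₀ + (τ:ℂ) * Complex.I) * χ τ‖ ≤ ‖Φ (s₀ + (τ:ℂ) * Complex.I)‖
        rw [norm_mul]
        exact mul_le_of_le_one_right (norm_nonneg _) (hχ1 τ)))
    (hmeas hd s₀)
    (Eventually.of_forall fun τ hτ s hs => by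
      rw [norm_mul]
      refine (mul_le_of_le_one_right (norm_nonneg _) (hχ1 τ)).trans ?_
      refine hC ⟨s + (τ:ℂ) * Complex.I, ?_, rfl⟩
      rw [uIoc_of_le (by norm_num : (-1 : ℝ) ≤ 1)] at hτ
      rw [Metric.mem_ball, dist_eq_norm] at hs
      rw [Metric.mem_closedBall, dist_eq_norm]
      have e : s + (τ:ℂ) * Complex.I - s₀ = (s - s₀) + (τ:ℂ) * Complex.I := by ring
      rw [e]
      refine (norm_add_le _ _).trans ?_
      rw [norm_mul, Complex.norm_I, mul_one, Complex.norm_real, Real.norm_eq_abs]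
      have : |τ| ≤ 1 := abs_le.2 ⟨by linarith [hτ.1], hτ.2⟩
      linarith)
    (intervalIntegrable_const)
    (Eventually.of_forall fun τ _ s _ => by
      have h1 : HasDerivAt (fun s : ℂ => s + (τ:ℂ) * Complex.I) 1 s :=
        (hasDerivAt_id s).add_const _
      have h2 := (hΦ (s + (τ:ℂ) * Complex.I)).hasDerivAt.comp s h1
      rw [mul_one] at h2
      exact h2.mul_const (χ τ))
  exact h.2.differentiableAt

theorem strip_window {Φ : ℂ → ℂ} (hΦ : Differentiable ℂ Φ) {σ M B : ℝ} (hσ : 0 < σ)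
    (hM : ∀ s : ℂ, 0 ≤ s.re → s.re ≤ σ → ‖Φ s‖ ≤ M)
    (h0 : ∀ t : ℝ, ∫ τ in (t-1)..(t+1), ‖Φ (((0:ℝ):ℂ) + (τ:ℂ) * Complex.I)‖ ≤ B)
    (h1 : ∀ t : ℝ, ∫ τ in (t-1)..(t+1), ‖Φ ((σ:ℂ) + (τ:ℂ) * Complex.I)‖ ≤ B) :
    ∀ x t : ℝ, 0 ≤ x → x ≤ σ → ∫ τ in (t-1)..(t+1), ‖Φ ((x:ℂ) + (τ:ℂ) * Complex.I)‖ ≤ B := by
  intro x₀ t₀ hx0 hx1
  set s₀ : ℂ := (x₀ : ℂ) + (t₀ : ℂ) * Complex.I with hs₀
  set g : ℝ → ℂ := fun τ => Φ (s₀ + (τ:ℂ) * Complex.I) with hg
  have hgc : Continuous g := sw_cont hΦ.continuous s₀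
  set χ : ℝ → ℂ := fun τ => (starRingEnd ℂ) (g τ) / (‖g τ‖ : ℂ) with hχdef
  have hχ : Measurable χ := by
    have e1 : Measurable fun τ => (starRingEnd ℂ) (g τ) :=
      (Complex.continuous_conj.comp hgc).measurable
    have e2 : Measurable fun τ => ((‖g τ‖ : ℝ) : ℂ) :=
      (Complex.continuous_ofReal.comp hgc.norm).measurable
    exact e1.div e2
  have hχ1 : ∀ τ, ‖χ τ‖ ≤ 1 := by
    intro τ
    simp only [hχdef]
    rw [norm_div, RCLike.norm_conj, Complex.norm_real, norm_norm]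
    exact div_self_le_one _
  have hmul : ∀ τ, g τ * χ τ = ((‖g τ‖ : ℝ) : ℂ) := by
    intro τ
    simp only [hχdef]
    by_cases hz : g τ = 0
    · simp [hz]
    · have hn : ((‖g τ‖ : ℝ) : ℂ) ≠ 0 := by
        rw [Ne, Complex.ofReal_eq_zero, norm_eq_zero]
        exact hz
      rw [← mul_div_assoc, Complex.mul_conj, Complex.normSq_eq_norm_sq, div_eq_iff hn]
      push_cast
      ring
  set Q : ℂ → ℂ := fun s => ∫ τ in (-1 : ℝ)..1, Φ (s + (τ:ℂ) * Complex.I) * χ τ with hQ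
  have hQd : Differentiable ℂ Q := sw_diff hΦ hχ hχ1
  have hQb : ∀ s, ‖Q s‖ ≤ ∫ τ in (-1 : ℝ)..1, ‖Φ (s + (τ:ℂ) * Complex.I)‖ :=
    fun s => sw_bound hΦ.continuous hχ1 s
  have hre : ∀ (s : ℂ) (τ : ℝ), (s + (τ:ℂ) * Complex.I).re = s.re := by
    intro s τ
    simp
  have hstrip : ∀ s : ℂ, 0 ≤ s.re → s.re ≤ σ → ‖Q s‖ ≤ M * |(1 : ℝ) - (-1)| := by
    intro s hs0 hs1
    refine intervalIntegral.norm_integral_le_of_norm_le_const fun τ _ => ?_
    rw [norm_mul]
    refine (mul_le_of_le_one_right (norm_nonneg _) (hχ1 τ)).trans ?_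
    exact hM _ (by rw [hre]; exact hs0) (by rw [hre]; exact hs1)
  have hedge : ∀ (y : ℝ), (∀ t : ℝ, ∫ τ in (t-1)..(t+1), ‖Φ ((y:ℂ) + (τ:ℂ) * Complex.I)‖ ≤ B) →
      ∀ s : ℂ, s.re = y → ‖Q s‖ ≤ B := by
    intro y hy s hs
    refine (hQb s).trans ?_
    have h2 := hy s.im
    rw [sw_shift Φ y s.im] at h2
    have e : (y : ℂ) + (s.im : ℂ) * Complex.I = s := by
      rw [← hs]
      exact Complex.re_add_im s
    rwa [e] at h2
  have hPL : ‖Q s₀‖ ≤ B := by
    refine PhragmenLindelof.vertical_strip (a := 0) (b := σ) hQd.diffContOnCl ?_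
      (hedge 0 h0) (hedge σ h1) ?_ ?_
    · refine ⟨0, by rw [sub_zero]; positivity, 0, ?_⟩
      refine Asymptotics.IsBigO.of_bound (M * |(1 : ℝ) - (-1)|) ?_
      refine mem_inf_of_right ?_
      rw [mem_principal]
      intro s hs
      change ‖Q s‖ ≤ _
      rw [zero_mul, Real.exp_zero, norm_one, mul_one]
      exact hstrip s (le_of_lt hs.1) (le_of_lt hs.2)
    · rw [hs₀]
      simpa using hx0
    · rw [hs₀]
      simpa using hx1
  rw [sw_shift Φ x₀ t₀]
  have hQ0 : Q s₀ = ((∫ τ in (-1 : ℝ)..1, ‖Φ (s₀ + (τ:ℂ) * Complex.I)‖ : ℝ) : ℂ) := by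
    rw [← intervalIntegral.integral_ofReal]
    exact intervalIntegral.integral_congr fun τ _ => hmul τ
  rw [hQ0, Complex.norm_real, Real.norm_eq_abs] at hPL
  exact (le_abs_self _).trans hPL

theorem ball_of_window {Φ : ℂ → ℂ} (hΦ : Continuous Φ) {σ B : ℝ}
    (h : ∀ x t : ℝ, x ≤ σ → ∫ τ in (t-1)..(t+1), ‖Φ ((x:ℂ) + (τ:ℂ) * Complex.I)‖ ≤ B)
    {p : ℂ} {R : ℝ} (hR : 1 ≤ R) (hp : p.re + R ≤ σ) :
    ∫ z in Metric.ball p R, ‖Φ z‖ ≤ 4 * R ^ 2 * B := by
  have hR0 : 0 ≤ R := by linarith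
  have hB : 0 ≤ B := by
    refine le_trans ?_ (h σ 0 le_rfl)
    apply intervalIntegral.integral_nonneg (by norm_num)
    intro u _; exact norm_nonneg _
  -- slice functions
  have hcont : ∀ x : ℝ, Continuous fun τ : ℝ => ‖Φ ((x:ℂ) + (τ:ℂ) * Complex.I)‖ := by
    intro x; fun_prop
  have hwin : ∀ (x u : ℝ) (n : ℕ), x ≤ σ →
      ∫ τ in u..(u + 2 * n), ‖Φ ((x:ℂ) + (τ:ℂ) * Complex.I)‖ ≤ n * B := by
    intro x u n hx
    induction n with
    | zero => simp
    | succ n ih =>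
      have h1 : ∫ τ in u..(u + 2 * ((n+1:ℕ):ℝ)), ‖Φ ((x:ℂ) + (τ:ℂ) * Complex.I)‖ =
          (∫ τ in u..(u + 2 * n), ‖Φ ((x:ℂ) + (τ:ℂ) * Complex.I)‖) +
          ∫ τ in (u + 2 * n)..(u + 2 * ((n+1:ℕ):ℝ)), ‖Φ ((x:ℂ) + (τ:ℂ) * Complex.I)‖ := by
        rw [intervalIntegral.integral_add_adjacent_intervals]
        · exact (hcont x).intervalIntegrable _ _
        · exact (hcont x).intervalIntegrable _ _
      have h2 := h x (u + 2 * n + 1) hx
      have h3 : u + 2 * (n:ℝ) + 1 - 1 = u + 2 * n := by ring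
      have h4 : u + 2 * (n:ℝ) + 1 + 1 = u + 2 * ((n+1:ℕ):ℝ) := by push_cast; ring
      rw [h3, h4] at h2
      rw [h1]
      push_cast at *
      linarith
  have hinner : ∀ x : ℝ, x ≤ σ → ∀ u : ℝ,
      ∫ τ in u..(u + 2 * R), ‖Φ ((x:ℂ) + (τ:ℂ) * Complex.I)‖ ≤ 2 * R * B := by
    intro x hx u
    have hn : (⌈R⌉₊ : ℝ) < R + 1 := Nat.ceil_lt_add_one hR0
    have hn2 : R ≤ (⌈R⌉₊ : ℝ) := Nat.le_ceil R
    calc ∫ τ in u..(u + 2 * R), ‖Φ ((x:ℂ) + (τ:ℂ) * Complex.I)‖
        ≤ ∫ τ in u..(u + 2 * (⌈R⌉₊ : ℝ)), ‖Φ ((x:ℂ) + (τ:ℂ) * Complex.I)‖ := by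
          apply intervalIntegral.integral_mono_interval le_rfl (by linarith) (by linarith)
          · exact Eventually.of_forall fun τ => norm_nonneg _
          · exact (hcont x).intervalIntegrable _ _
      _ ≤ ⌈R⌉₊ * B := hwin x u _ hx
      _ ≤ 2 * R * B := by
          apply mul_le_mul_of_nonneg_right _ hB
          linarith
  set a := p.re - R with ha
  set b := p.re + R with hb
  set c := p.im - R with hc
  set d := p.im + R with hd
  let G : ℝ × ℝ → ℝ := fun q => ‖Φ ((q.1:ℂ) + (q.2:ℂ) * Complex.I)‖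
  have hG : Continuous G := by
    show Continuous fun q : ℝ × ℝ => ‖Φ ((q.1:ℂ) + (q.2:ℂ) * Complex.I)‖
    fun_prop
  have hGint : IntegrableOn G (Ioc a b ×ˢ Ioc c d) (volume : Measure (ℝ × ℝ)) := by
    have h1 : IntegrableOn G (Icc a b ×ˢ Icc c d) (volume : Measure (ℝ × ℝ)) :=
      hG.continuousOn.integrableOn_compact (isCompact_Icc.prod isCompact_Icc)
    exact h1.mono_set (prod_mono Ioc_subset_Icc_self Ioc_subset_Icc_self)
  have hpre := Complex.volume_preserving_equiv_real_prod.setIntegral_preimage_emb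
    Complex.measurableEquivRealProd.measurableEmbedding G (Ioc a b ×ˢ Ioc c d)
  have hGe : ∀ z : ℂ, G (Complex.measurableEquivRealProd z) = ‖Φ z‖ := by
    intro z
    show ‖Φ (((Complex.measurableEquivRealProd z).1:ℂ) +
      ((Complex.measurableEquivRealProd z).2:ℂ) * Complex.I)‖ = ‖Φ z‖
    rw [Complex.measurableEquivRealProd_apply]
    simp only [Complex.re_add_im]
  simp only [hGe] at hpre
  have hsub : Metric.ball p R ⊆ Complex.measurableEquivRealProd ⁻¹' (Ioc a b ×ˢ Ioc c d) := by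
    intro z hz
    rw [Metric.mem_ball, Complex.dist_eq] at hz
    have h1 := (Complex.abs_re_le_norm (z - p)).trans_lt hz
    have h2 := (Complex.abs_im_le_norm (z - p)).trans_lt hz
    rw [Complex.sub_re, abs_lt] at h1
    rw [Complex.sub_im, abs_lt] at h2
    rw [mem_preimage, Complex.measurableEquivRealProd_apply, mem_prod]
    exact ⟨⟨by simp only [ha]; linarith, by simp only [hb]; linarith⟩,
      ⟨by simp only [hc]; linarith, by simp only [hd]; linarith⟩⟩
  have hint : IntegrableOn (fun z => ‖Φ z‖)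
      (Complex.measurableEquivRealProd ⁻¹' (Ioc a b ×ˢ Ioc c d)) := by
    have h1 := (Complex.volume_preserving_equiv_real_prod.integrableOn_comp_preimage
      Complex.measurableEquivRealProd.measurableEmbedding (f := G) (s := Ioc a b ×ˢ Ioc c d)).2 hGint
    refine h1.congr_fun (fun z _ => ?_) ?_
    · exact hGe z
    · exact Complex.measurableEquivRealProd.measurable (measurableSet_Ioc.prod measurableSet_Ioc)
  calc ∫ z in Metric.ball p R, ‖Φ z‖
      ≤ ∫ z in Complex.measurableEquivRealProd ⁻¹' (Ioc a b ×ˢ Ioc c d), ‖Φ z‖ := by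
        apply setIntegral_mono_set hint
        · exact Eventually.of_forall fun z => norm_nonneg _
        · exact hsub.eventuallyLE
    _ = ∫ q in Ioc a b ×ˢ Ioc c d, G q := hpre
    _ = ∫ x in Ioc a b, ∫ y in Ioc c d, G (x, y) := by
        rw [Measure.volume_eq_prod] at hGint ⊢
        exact setIntegral_prod _ hGint
    _ ≤ 2 * R * B * (volume.real (Ioc a b)) := by
        refine le_trans (le_abs_self _) ?_
        rw [← Real.norm_eq_abs]
        apply norm_setIntegral_le_of_norm_le_const (by simp)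
        intro x hx
        have hxσ : x ≤ σ := hx.2.trans hp
        have hcd : c ≤ d := by simp only [hc, hd]; linarith
        rw [Real.norm_eq_abs, abs_of_nonneg]
        · rw [← intervalIntegral.integral_of_le hcd]
          have h1 := hinner x hxσ c
          have h2 : c + 2 * R = d := by simp only [hc, hd]; ring
          rw [h2] at h1
          exact h1
        · apply integral_nonneg
          intro y; exact norm_nonneg _
    _ = 4 * R ^ 2 * B := by
        rw [Real.volume_real_Ioc_of_le (by simp only [ha, hb]; linarith)]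
        simp only [ha, hb]; ring

theorem dj5_norm (τ x : ℝ) : ‖Complex.exp ((τ:ℂ) * (x:ℂ) * Complex.I)‖ = 1 := by
  rw [← Complex.ofReal_mul]
  exact Complex.norm_exp_ofReal_mul_I _

theorem dj5_swap {f h : ℝ → ℂ} (hf : Integrable f) (hh : Integrable h) :
    ∫ τ, h τ * ∫ x, f x * Complex.exp ((τ:ℂ) * (x:ℂ) * Complex.I) =
      ∫ x, f x * ∫ τ, h τ * Complex.exp ((τ:ℂ) * (x:ℂ) * Complex.I) := by
  have h1 : Integrable (Function.uncurry fun (τ x : ℝ) =>
      h τ * (f x * Complex.exp ((τ:ℂ) * (x:ℂ) * Complex.I))) (volume.prod volume) := by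
    have h2 : Integrable (fun z : ℝ × ℝ => h z.1 * f z.2) (volume.prod volume) := hh.mul_prod hf
    have h3 : Continuous (fun z : ℝ × ℝ => Complex.exp ((z.1:ℂ) * (z.2:ℂ) * Complex.I)) := by
      fun_prop
    have h4 : Integrable (fun z : ℝ × ℝ => h z.1 * f z.2 *
        Complex.exp ((z.1:ℂ) * (z.2:ℂ) * Complex.I)) (volume.prod volume) := by
      refine h2.mono (h2.aestronglyMeasurable.mul h3.aestronglyMeasurable)
        (Eventually.of_forall fun z => ?_)
      rw [norm_mul, dj5_norm, mul_one]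
    refine h4.congr (Eventually.of_forall fun z => ?_)
    show h z.1 * f z.2 * Complex.exp ((z.1:ℂ) * (z.2:ℂ) * Complex.I) =
      h z.1 * (f z.2 * Complex.exp ((z.1:ℂ) * (z.2:ℂ) * Complex.I))
    ring
  calc ∫ τ, h τ * ∫ x, f x * Complex.exp ((τ:ℂ) * (x:ℂ) * Complex.I)
      = ∫ τ, ∫ x, h τ * (f x * Complex.exp ((τ:ℂ) * (x:ℂ) * Complex.I)) := by
        refine integral_congr_ae (Eventually.of_forall fun τ => ?_)
        exact (integral_const_mul _ _).symm
    _ = ∫ x, ∫ τ, h τ * (f x * Complex.exp ((τ:ℂ) * (x:ℂ) * Complex.I)) :=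
        integral_integral_swap h1
    _ = ∫ x, f x * ∫ τ, h τ * Complex.exp ((τ:ℂ) * (x:ℂ) * Complex.I) := by
        refine integral_congr_ae (Eventually.of_forall fun x => ?_)
        show _ = f x * _
        rw [← integral_const_mul]
        refine integral_congr_ae (Eventually.of_forall fun τ => ?_)
        show h τ * (f x * _) = f x * (h τ * _)
        ring

theorem dj5_gauss (s : ℝ) :
    ‖∫ τ : ℝ, (Real.exp (-τ ^ 2 / 2) : ℂ) * Complex.exp ((τ:ℂ) * (s:ℂ) * Complex.I)‖ =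
      √(2 * Real.pi) * Real.exp (-s ^ 2 / 2) := by
  have h1 := fourierIntegral_gaussian (b := (1 / 2 : ℂ)) (by norm_num) (s : ℂ)
  have h2 : ∫ τ : ℝ, (Real.exp (-τ ^ 2 / 2) : ℂ) * Complex.exp ((τ:ℂ) * (s:ℂ) * Complex.I) =
      ∫ x : ℝ, Complex.exp (Complex.I * s * x) * Complex.exp (-(1 / 2) * (x:ℂ) ^ 2) := by
    refine integral_congr_ae (Eventually.of_forall fun τ => ?_)
    show (Real.exp (-τ ^ 2 / 2) : ℂ) * Complex.exp ((τ:ℂ) * (s:ℂ) * Complex.I) =
      Complex.exp (Complex.I * s * τ) * Complex.exp (-(1 / 2) * (τ:ℂ) ^ 2)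
    rw [Complex.ofReal_exp, mul_comm]
    congr 2
    · ring
    · push_cast; ring
  rw [h2, h1, norm_mul]
  congr 1
  · have h3 : (Real.pi : ℂ) / (1 / 2) = ((2 * Real.pi : ℝ) : ℂ) := by push_cast; ring
    rw [h3, Complex.norm_cpow_eq_rpow_re_of_pos (by positivity), Real.sqrt_eq_rpow]
    norm_num
  · rw [Complex.norm_exp]
    congr 1
    have h4 : -(s:ℂ) ^ 2 / (4 * (1 / 2)) = ((-s ^ 2 / 2 : ℝ) : ℂ) := by push_cast; ring
    rw [h4, Complex.ofReal_re]

theorem dj5_w_int : Integrable fun τ : ℝ => Real.exp (-τ ^ 2 / 2) := by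
  have := integrable_exp_neg_mul_sq (b := 1 / 2) (by norm_num)
  refine this.congr (Eventually.of_forall fun τ => ?_)
  show Real.exp (-(1 / 2) * τ ^ 2) = Real.exp (-τ ^ 2 / 2)
  congr 1; ring

theorem dj5_w_val : ∫ τ : ℝ, Real.exp (-τ ^ 2 / 2) = √(2 * Real.pi) := by
  have := integral_gaussian (1 / 2)
  have h2 : ∫ τ : ℝ, Real.exp (-τ ^ 2 / 2) = ∫ x : ℝ, Real.exp (-(1 / 2) * x ^ 2) := by
    refine integral_congr_ae (Eventually.of_forall fun τ => ?_)
    show Real.exp (-τ ^ 2 / 2) = Real.exp (-(1 / 2) * τ ^ 2)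
    congr 1; ring
  rw [h2, this]
  congr 1; ring

theorem dj5_shift (b x : ℝ) :
    (Integrable fun y : ℝ => Real.exp (-b * y) * Real.exp (-(y - x) ^ 2 / 2)) ∧
    ∫ y : ℝ, Real.exp (-b * y) * Real.exp (-(y - x) ^ 2 / 2) =
      √(2 * Real.pi) * (Real.exp (b ^ 2 / 2) * Real.exp (-b * x)) := by
  have h1 : ∀ y : ℝ, Real.exp (-b * y) * Real.exp (-(y - x) ^ 2 / 2) =
      (Real.exp (b ^ 2 / 2) * Real.exp (-b * x)) * Real.exp (-(y + (b - x)) ^ 2 / 2) := by
    intro y
    rw [← Real.exp_add, ← Real.exp_add, ← Real.exp_add]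
    congr 1; ring
  simp only [h1]
  constructor
  · exact (dj5_w_int.comp_add_right (b - x)).const_mul _
  · rw [integral_const_mul, integral_add_right_eq_self (fun y : ℝ => Real.exp (-y ^ 2 / 2)),
      dj5_w_val]
    ring

/-- the Gaussian weighted square integral of a Fourier integral -/
theorem dj5_main {f : ℝ → ℂ} (hf : Measurable f) {A b : ℝ} (hA : 0 ≤ A) (hb : 0 < b)
    (h : ∀ x, ‖f x‖ ≤ (Ioi (0:ℝ)).indicator (fun x => A * Real.exp (-b * x)) x) :
    (Continuous fun τ : ℝ => ∫ x, f x * Complex.exp ((τ:ℂ) * (x:ℂ) * Complex.I)) ∧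
    (∀ τ : ℝ, ‖∫ x, f x * Complex.exp ((τ:ℂ) * (x:ℂ) * Complex.I)‖ ≤ A / b) ∧
    (Integrable fun τ : ℝ => Real.exp (-τ ^ 2 / 2) *
      ‖∫ x, f x * Complex.exp ((τ:ℂ) * (x:ℂ) * Complex.I)‖ ^ 2) ∧
    ∫ τ : ℝ, Real.exp (-τ ^ 2 / 2) *
      ‖∫ x, f x * Complex.exp ((τ:ℂ) * (x:ℂ) * Complex.I)‖ ^ 2 ≤
      Real.pi * A ^ 2 * Real.exp (b ^ 2 / 2) / b := by
  have hb' : -b < 0 := by linarith
  have hGi : Integrable ((Ioi (0:ℝ)).indicator (fun x => A * Real.exp (-b * x))) := by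
    rw [integrable_indicator_iff measurableSet_Ioi]
    exact (integrableOn_exp_mul_Ioi hb' 0).const_mul A
  have hGv : ∫ x, (Ioi (0:ℝ)).indicator (fun x => A * Real.exp (-b * x)) x = A / b := by
    rw [integral_indicator measurableSet_Ioi, integral_const_mul, integral_exp_mul_Ioi hb' 0]
    rw [mul_zero, Real.exp_zero]
    field_simp
  have hfi : Integrable f := hGi.mono' hf.aestronglyMeasurable (Eventually.of_forall h)
  obtain ⟨F, hF⟩ : ∃ F : ℝ → ℂ, F = fun τ : ℝ => ∫ x, f x * Complex.exp ((τ:ℂ) * (x:ℂ) * Complex.I) :=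
    ⟨_, rfl⟩
  have hmeas : ∀ τ : ℝ, AEStronglyMeasurable
      (fun x : ℝ => f x * Complex.exp ((τ:ℂ) * (x:ℂ) * Complex.I)) volume := by
    intro τ
    have : Continuous (fun x : ℝ => Complex.exp ((τ:ℂ) * (x:ℂ) * Complex.I)) := by fun_prop
    exact hf.aestronglyMeasurable.mul this.aestronglyMeasurable
  have hFc : Continuous F := by
    rw [hF]
    refine continuous_of_dominated hmeas (fun τ => Eventually.of_forall fun x => ?_) hGi
      (Eventually.of_forall fun x => ?_)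
    · rw [norm_mul, dj5_norm, mul_one]; exact h x
    · fun_prop
  have hFb : ∀ τ, ‖F τ‖ ≤ A / b := by
    intro τ
    rw [hF, ← hGv]
    refine norm_integral_le_of_norm_le hGi (Eventually.of_forall fun x => ?_)
    rw [norm_mul, dj5_norm, mul_one]; exact h x
  have hAb : 0 ≤ A / b := by positivity
  -- integrability of the weighted square
  have hJi : Integrable fun τ : ℝ => Real.exp (-τ ^ 2 / 2) * ‖F τ‖ ^ 2 := by
    refine (dj5_w_int.mul_const ((A / b) ^ 2)).mono' ?_ (Eventually.of_forall fun τ => ?_)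
    · have : Continuous fun τ : ℝ => Real.exp (-τ ^ 2 / 2) * ‖F τ‖ ^ 2 := by fun_prop
      exact this.aestronglyMeasurable
    · rw [Real.norm_of_nonneg (by positivity)]
      exact mul_le_mul_of_nonneg_left (pow_le_pow_left₀ (norm_nonneg _) (hFb τ) 2)
        (Real.exp_nonneg _)
  -- the auxiliary functions
  have hh : Integrable fun τ : ℝ => (Real.exp (-τ ^ 2 / 2) : ℂ) * (starRingEnd ℂ) (F τ) := by
    refine (dj5_w_int.mul_const (A / b)).mono' ?_ (Eventually.of_forall fun τ => ?_)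
    · have h1 : Continuous fun τ : ℝ => (Real.exp (-τ ^ 2 / 2) : ℂ) := by fun_prop
      have h2 : Continuous fun τ : ℝ => (starRingEnd ℂ) (F τ) := Complex.continuous_conj.comp hFc
      exact (h1.mul h2).aestronglyMeasurable
    · rw [norm_mul, Complex.norm_real, Real.norm_of_nonneg (Real.exp_nonneg _), RCLike.norm_conj]
      exact mul_le_mul_of_nonneg_left (hFb τ) (Real.exp_nonneg _)
  have hE : ∫ τ : ℝ, ((Real.exp (-τ ^ 2 / 2) * ‖F τ‖ ^ 2 : ℝ) : ℂ) =
      ∫ x, f x * ∫ τ : ℝ, (Real.exp (-τ ^ 2 / 2) : ℂ) * (starRingEnd ℂ) (F τ) *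
        Complex.exp ((τ:ℂ) * (x:ℂ) * Complex.I) := by
    rw [← dj5_swap hfi hh]
    refine integral_congr_ae (Eventually.of_forall fun τ => ?_)
    show ((Real.exp (-τ ^ 2 / 2) * ‖F τ‖ ^ 2 : ℝ) : ℂ) =
      (Real.exp (-τ ^ 2 / 2) : ℂ) * (starRingEnd ℂ) (F τ) *
        ∫ x, f x * Complex.exp ((τ:ℂ) * (x:ℂ) * Complex.I)
    have h1 : F τ = ∫ x, f x * Complex.exp ((τ:ℂ) * (x:ℂ) * Complex.I) := by rw [hF]
    rw [← h1, mul_assoc, Complex.conj_mul']
    push_cast
    rfl
  -- bound for the inner integral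
  have hK : ∀ x : ℝ, ‖∫ τ : ℝ, (Real.exp (-τ ^ 2 / 2) : ℂ) * (starRingEnd ℂ) (F τ) *
        Complex.exp ((τ:ℂ) * (x:ℂ) * Complex.I)‖ ≤
      2 * Real.pi * A * (Real.exp (b ^ 2 / 2) * Real.exp (-b * x)) := by
    intro x
    have h1 : Integrable fun τ : ℝ => (Real.exp (-τ ^ 2 / 2) : ℂ) *
        Complex.exp ((τ:ℂ) * ((-x : ℝ):ℂ) * Complex.I) := by
      refine dj5_w_int.mono' ?_ (Eventually.of_forall fun τ => ?_)
      · have : Continuous fun τ : ℝ => (Real.exp (-τ ^ 2 / 2) : ℂ) *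
          Complex.exp ((τ:ℂ) * ((-x : ℝ):ℂ) * Complex.I) := by fun_prop
        exact this.aestronglyMeasurable
      · rw [norm_mul, dj5_norm, mul_one, Complex.norm_real, Real.norm_of_nonneg (Real.exp_nonneg _)]
    have h2 : (starRingEnd ℂ) (∫ τ : ℝ, (Real.exp (-τ ^ 2 / 2) : ℂ) * (starRingEnd ℂ) (F τ) *
        Complex.exp ((τ:ℂ) * (x:ℂ) * Complex.I)) =
        ∫ y, f y * ∫ τ : ℝ, (Real.exp (-τ ^ 2 / 2) : ℂ) *
          Complex.exp ((τ:ℂ) * ((y - x : ℝ):ℂ) * Complex.I) := by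
      rw [← integral_conj]
      have h3 := dj5_swap hfi h1
      have h4 : ∀ y : ℝ, ∫ τ : ℝ, (Real.exp (-τ ^ 2 / 2) : ℂ) *
            Complex.exp ((τ:ℂ) * ((-x : ℝ):ℂ) * Complex.I) *
            Complex.exp ((τ:ℂ) * (y:ℂ) * Complex.I) =
          ∫ τ : ℝ, (Real.exp (-τ ^ 2 / 2) : ℂ) *
            Complex.exp ((τ:ℂ) * ((y - x : ℝ):ℂ) * Complex.I) := by
        intro y
        refine integral_congr_ae (Eventually.of_forall fun τ => ?_)
        show (Real.exp (-τ ^ 2 / 2) : ℂ) *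
            Complex.exp ((τ:ℂ) * ((-x : ℝ):ℂ) * Complex.I) *
            Complex.exp ((τ:ℂ) * (y:ℂ) * Complex.I) = (Real.exp (-τ ^ 2 / 2) : ℂ) *
            Complex.exp ((τ:ℂ) * ((y - x : ℝ):ℂ) * Complex.I)
        rw [mul_assoc, ← Complex.exp_add]
        congr 2
        push_cast; ring
      simp only [h4] at h3
      rw [← h3]
      refine integral_congr_ae (Eventually.of_forall fun τ => ?_)
      show (starRingEnd ℂ) ((Real.exp (-τ ^ 2 / 2) : ℂ) * (starRingEnd ℂ) (F τ) *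
        Complex.exp ((τ:ℂ) * (x:ℂ) * Complex.I)) = (Real.exp (-τ ^ 2 / 2) : ℂ) *
            Complex.exp ((τ:ℂ) * ((-x : ℝ):ℂ) * Complex.I) *
            ∫ x, f x * Complex.exp ((τ:ℂ) * (x:ℂ) * Complex.I)
      have h5 : F τ = ∫ x, f x * Complex.exp ((τ:ℂ) * (x:ℂ) * Complex.I) := by rw [hF]
      rw [← h5, map_mul, map_mul, Complex.conj_conj, Complex.conj_ofReal, ← Complex.exp_conj,
        map_mul, map_mul, Complex.conj_ofReal, Complex.conj_ofReal, Complex.conj_I]
      have h6 : (τ:ℂ) * ((-x : ℝ):ℂ) * Complex.I = (τ:ℂ) * (x:ℂ) * -Complex.I := by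
        push_cast; ring
      rw [h6]
      ring
    rw [← RCLike.norm_conj]
    have h2' : ‖(starRingEnd ℂ) (∫ τ : ℝ, (Real.exp (-τ ^ 2 / 2) : ℂ) * (starRingEnd ℂ) (F τ) *
        Complex.exp ((τ:ℂ) * (x:ℂ) * Complex.I))‖ =
        ‖∫ y, f y * ∫ τ : ℝ, (Real.exp (-τ ^ 2 / 2) : ℂ) *
          Complex.exp ((τ:ℂ) * ((y - x : ℝ):ℂ) * Complex.I)‖ := by rw [h2]
    refine (le_of_eq h2').trans ?_
    obtain ⟨hs1, hs2⟩ := dj5_shift b x
    have h7 : ∀ y, ‖f y * ∫ τ : ℝ, (Real.exp (-τ ^ 2 / 2) : ℂ) *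
          Complex.exp ((τ:ℂ) * ((y - x : ℝ):ℂ) * Complex.I)‖ ≤
        (A * √(2 * Real.pi)) * (Real.exp (-b * y) * Real.exp (-(y - x) ^ 2 / 2)) := by
      intro y
      rw [norm_mul, dj5_gauss]
      have h8 : ‖f y‖ ≤ A * Real.exp (-b * y) := by
        refine (h y).trans ?_
        by_cases hy : y ∈ Ioi (0:ℝ)
        · rw [indicator_of_mem hy]
        · rw [indicator_of_notMem hy]; positivity
      calc ‖f y‖ * (√(2 * Real.pi) * Real.exp (-(y - x) ^ 2 / 2))
          ≤ (A * Real.exp (-b * y)) * (√(2 * Real.pi) * Real.exp (-(y - x) ^ 2 / 2)) :=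
            mul_le_mul_of_nonneg_right h8 (by positivity)
        _ = _ := by ring
    refine (norm_integral_le_of_norm_le (hs1.const_mul (A * √(2 * Real.pi)))
      (Eventually.of_forall h7)).trans ?_
    rw [integral_const_mul, hs2]
    have h9 : √(2 * Real.pi) * √(2 * Real.pi) = 2 * Real.pi :=
      Real.mul_self_sqrt (by positivity)
    have h10 : A * √(2 * Real.pi) * (√(2 * Real.pi) * (Real.exp (b ^ 2 / 2) * Real.exp (-b * x))) =
        (√(2 * Real.pi) * √(2 * Real.pi)) * (A * (Real.exp (b ^ 2 / 2) * Real.exp (-b * x))) := by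
      ring
    rw [h10, h9]
    apply le_of_eq; ring
  have hfin : ∫ τ : ℝ, Real.exp (-τ ^ 2 / 2) * ‖F τ‖ ^ 2 ≤
      Real.pi * A ^ 2 * Real.exp (b ^ 2 / 2) / b := by
    have h1 : 0 ≤ ∫ τ : ℝ, Real.exp (-τ ^ 2 / 2) * ‖F τ‖ ^ 2 :=
      integral_nonneg fun τ => by positivity
    have h2 : ∫ τ : ℝ, Real.exp (-τ ^ 2 / 2) * ‖F τ‖ ^ 2 =
        ‖∫ τ : ℝ, ((Real.exp (-τ ^ 2 / 2) * ‖F τ‖ ^ 2 : ℝ) : ℂ)‖ := by
      rw [integral_complex_ofReal, Complex.norm_real, Real.norm_of_nonneg h1]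
    have h2b : -(2 * b) < 0 := by linarith
    have h3 : Integrable ((Ioi (0:ℝ)).indicator (fun x =>
        2 * Real.pi * A ^ 2 * Real.exp (b ^ 2 / 2) * Real.exp (-(2 * b) * x))) := by
      rw [integrable_indicator_iff measurableSet_Ioi]
      exact (integrableOn_exp_mul_Ioi h2b 0).const_mul _
    rw [h2, hE]
    refine (norm_integral_le_of_norm_le h3 (Eventually.of_forall fun x => ?_)).trans ?_
    · rw [norm_mul]
      by_cases hx : x ∈ Ioi (0:ℝ)
      · have h4 := h x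
        rw [indicator_of_mem hx] at h4
        rw [indicator_of_mem hx]
        calc ‖f x‖ * ‖∫ τ : ℝ, (Real.exp (-τ ^ 2 / 2) : ℂ) * (starRingEnd ℂ) (F τ) *
              Complex.exp ((τ:ℂ) * (x:ℂ) * Complex.I)‖
            ≤ (A * Real.exp (-b * x)) *
              (2 * Real.pi * A * (Real.exp (b ^ 2 / 2) * Real.exp (-b * x))) :=
              mul_le_mul h4 (hK x) (norm_nonneg _) (by positivity)
          _ = 2 * Real.pi * A ^ 2 * Real.exp (b ^ 2 / 2) * (Real.exp (-b * x) * Real.exp (-b * x)) := by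
              ring
          _ = _ := by
              rw [← Real.exp_add]
              congr 2; ring
      · have h4 := h x
        rw [indicator_of_notMem hx] at h4
        rw [indicator_of_notMem hx]
        have h5 : ‖f x‖ = 0 := le_antisymm h4 (norm_nonneg _)
        rw [h5, zero_mul]
    · rw [integral_indicator measurableSet_Ioi, integral_const_mul, integral_exp_mul_Ioi h2b 0,
        mul_zero, Real.exp_zero]
      apply le_of_eq
      field_simp
  subst hF
  exact ⟨hFc, hFb, hJi, hfin⟩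

theorem window_fourier {φ : ℝ → ℂ} (hφ : Measurable φ) {A b : ℝ} (hA : 0 ≤ A) (hb : 0 < b)
    (h : ∀ x > 0, ‖φ x‖ ≤ A * Real.exp (-b * x)) (t : ℝ) :
    ∫ τ in (t-1)..(t+1), ‖∫ x in Ioi (0:ℝ), φ x * Complex.exp ((τ:ℂ) * (x:ℂ) * Complex.I)‖
      ≤ 6 * A / Real.sqrt b := by
  obtain ⟨f, hf⟩ : ∃ f : ℝ → ℂ, f = (Ioi (0:ℝ)).indicator
    (fun x => φ x * Complex.exp ((t:ℂ) * (x:ℂ) * Complex.I)) := ⟨_, rfl⟩
  have hfm : Measurable f := by
    rw [hf]
    refine Measurable.indicator ?_ measurableSet_Ioi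
    have : Continuous (fun x : ℝ => Complex.exp ((t:ℂ) * (x:ℂ) * Complex.I)) := by fun_prop
    exact hφ.mul this.measurable
  have hfb : ∀ x, ‖f x‖ ≤ (Ioi (0:ℝ)).indicator (fun x => A * Real.exp (-b * x)) x := by
    intro x
    rw [hf]
    by_cases hx : x ∈ Ioi (0:ℝ)
    · rw [indicator_of_mem hx, indicator_of_mem hx, norm_mul, dj5_norm, mul_one]
      exact h x hx
    · rw [indicator_of_notMem hx, indicator_of_notMem hx, norm_zero]
  obtain ⟨hc, hbd, hJi, hJ⟩ := dj5_main hfm hA hb hfb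
  obtain ⟨F, hF⟩ : ∃ F : ℝ → ℂ, F = fun τ : ℝ => ∫ x, f x * Complex.exp ((τ:ℂ) * (x:ℂ) * Complex.I) :=
    ⟨_, rfl⟩
  have hFt : ∀ τ : ℝ, F τ = ∫ x, f x * Complex.exp ((τ:ℂ) * (x:ℂ) * Complex.I) := by
    intro τ; rw [hF]
  simp only [← hFt] at hc hbd hJi hJ
  have hc' : Continuous F := by
    have : (fun τ : ℝ => F τ) = F := rfl
    rw [this] at hc; exact hc
  -- translation
  have htr : ∫ τ in (t-1)..(t+1), ‖∫ x in Ioi (0:ℝ), φ x * Complex.exp ((τ:ℂ) * (x:ℂ) * Complex.I)‖ =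
      ∫ u in (-1:ℝ)..1, ‖F u‖ := by
    have h1 : ∀ τ : ℝ, ‖∫ x in Ioi (0:ℝ), φ x * Complex.exp ((τ:ℂ) * (x:ℂ) * Complex.I)‖ =
        ‖F (τ - t)‖ := by
      intro τ
      rw [hFt]
      congr 1
      rw [← integral_indicator measurableSet_Ioi]
      refine integral_congr_ae (Eventually.of_forall fun x => ?_)
      show (Ioi (0:ℝ)).indicator (fun x => φ x * Complex.exp ((τ:ℂ) * (x:ℂ) * Complex.I)) x =
        f x * Complex.exp (((τ - t : ℝ):ℂ) * (x:ℂ) * Complex.I)
      rw [hf]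
      by_cases hx : x ∈ Ioi (0:ℝ)
      · rw [indicator_of_mem hx, indicator_of_mem hx, mul_assoc (φ x), ← Complex.exp_add]
        congr 2
        push_cast; ring
      · rw [indicator_of_notMem hx, indicator_of_notMem hx, zero_mul]
    simp only [h1]
    rw [intervalIntegral.integral_comp_sub_right (fun u => ‖F u‖) t]
    congr 1 <;> ring
  rw [htr]
  have hsb : 0 < √b := Real.sqrt_pos.2 hb
  have hsb2 : √b * √b = b := Real.mul_self_sqrt hb.le
  rcases eq_or_lt_of_le hA with hA0 | hA0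
  · -- A = 0
    have h1 : ∀ u, ‖F u‖ = 0 := by
      intro u
      have := hbd u
      rw [← hA0, zero_div] at this
      exact le_antisymm this (norm_nonneg _)
    simp only [h1]
    rw [← hA0]
    simp
  · rcases le_or_gt 1 b with hb1 | hb1
    · -- b ≥ 1
      have h1 : ∫ u in (-1:ℝ)..1, ‖F u‖ ≤ ∫ _u in (-1:ℝ)..1, A / b := by
        refine intervalIntegral.integral_mono_on (by norm_num) ?_ ?_ (fun u _ => hbd u)
        · exact (continuous_norm.comp hc').intervalIntegrable _ _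
        · exact intervalIntegrable_const
      refine h1.trans ?_
      rw [intervalIntegral.integral_const, smul_eq_mul]
      have h2 : √b ≤ b := by
        nlinarith [hsb2, Real.one_le_sqrt.2 hb1]
      rw [div_eq_mul_inv, div_eq_mul_inv]
      have h3 : b⁻¹ ≤ (√b)⁻¹ := inv_anti₀ hsb h2
      have h4 : 0 < (√b)⁻¹ := inv_pos.2 hsb
      nlinarith [mul_le_mul_of_nonneg_left h3 hA0.le, mul_pos hA0 h4]
    · -- b < 1
      have hw : ∀ u ∈ Icc (-1:ℝ) 1, ‖F u‖ ≤
          (√b / (4 * A)) * Real.exp (1 / 2) * (Real.exp (-u ^ 2 / 2) * ‖F u‖ ^ 2) + A / √b := by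
        intro u hu
        have h1 : 1 ≤ Real.exp (1 / 2) * Real.exp (-u ^ 2 / 2) := by
          rw [← Real.exp_add, Real.one_le_exp_iff]
          have : u ^ 2 ≤ 1 := by
            rw [sq_le_one_iff_abs_le_one, abs_le]; exact hu
          linarith
        have h2 : 0 ≤ √b / (4 * A) * ‖F u‖ ^ 2 := by positivity
        have h3 : ‖F u‖ ≤ √b / (4 * A) * ‖F u‖ ^ 2 + A / √b := by
          have h4 : 0 ≤ (√b / (2 * A) * ‖F u‖ - 1) ^ 2 := sq_nonneg _
          have h5 : √b / (4 * A) * ‖F u‖ ^ 2 + A / √b - ‖F u‖ =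
              (A / √b) * (√b / (2 * A) * ‖F u‖ - 1) ^ 2 := by
            field_simp
            ring
          have h6 : 0 ≤ (A / √b) * (√b / (2 * A) * ‖F u‖ - 1) ^ 2 := by positivity
          linarith
        calc ‖F u‖ ≤ √b / (4 * A) * ‖F u‖ ^ 2 * 1 + A / √b := by rw [mul_one]; exact h3
          _ ≤ √b / (4 * A) * ‖F u‖ ^ 2 * (Real.exp (1 / 2) * Real.exp (-u ^ 2 / 2)) + A / √b := by
            have := mul_le_mul_of_nonneg_left h1 h2
            linarith
          _ = _ := by ring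
      have hcw : Continuous fun u : ℝ => Real.exp (-u ^ 2 / 2) * ‖F u‖ ^ 2 := by fun_prop
      have h1 : ∫ u in (-1:ℝ)..1, ‖F u‖ ≤ ∫ u in (-1:ℝ)..1,
          ((√b / (4 * A)) * Real.exp (1 / 2) * (Real.exp (-u ^ 2 / 2) * ‖F u‖ ^ 2) + A / √b) := by
        refine intervalIntegral.integral_mono_on (by norm_num) ?_ ?_ hw
        · exact (continuous_norm.comp hc').intervalIntegrable _ _
        · exact ((continuous_const.mul hcw).add continuous_const).intervalIntegrable _ _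
      have h2 : ∫ u in (-1:ℝ)..1, Real.exp (-u ^ 2 / 2) * ‖F u‖ ^ 2 ≤
          Real.pi * A ^ 2 * Real.exp (b ^ 2 / 2) / b := by
        rw [intervalIntegral.integral_of_le (by norm_num)]
        refine (setIntegral_le_integral hJi (Eventually.of_forall fun u => ?_)).trans hJ
        show (0:ℝ) ≤ _
        positivity
      have h1a := intervalIntegral.integral_add (μ := volume) (a := -1) (b := 1)
        (f := fun u => (√b / (4 * A)) * Real.exp (1 / 2) * (Real.exp (-u ^ 2 / 2) * ‖F u‖ ^ 2))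
        (g := fun _ => A / √b)
        ((continuous_const.mul hcw).intervalIntegrable _ _) intervalIntegrable_const
      rw [h1a, intervalIntegral.integral_const_mul,
        intervalIntegral.integral_const, smul_eq_mul] at h1
      have h3 : Real.exp (1 / 2) * Real.exp (b ^ 2 / 2) ≤ Real.exp 1 := by
        rw [← Real.exp_add]
        apply Real.exp_le_exp.2
        nlinarith
      have h4 : Real.exp 1 < 2.7182818286 := Real.exp_one_lt_d9
      have h5 : Real.pi < 3.15 := Real.pi_lt_d2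
      have h6 : √b / (4 * A) * Real.exp (1 / 2) * (Real.pi * A ^ 2 * Real.exp (b ^ 2 / 2) / b) ≤
          (9 / 4) * (A / √b) := by
        have h7 : √b / (4 * A) * Real.exp (1 / 2) * (Real.pi * A ^ 2 * Real.exp (b ^ 2 / 2) / b) =
            (Real.pi / 4 * (Real.exp (1 / 2) * Real.exp (b ^ 2 / 2))) * (A / √b) := by
          have hA' : A ≠ 0 := hA0.ne'
          have hs' : √b ≠ 0 := hsb.ne'
          have hbb : √b ^ 2 = b := by rw [sq]; exact hsb2
          have hb'' : b ≠ 0 := hb.ne'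
          rw [div_mul_eq_mul_div, div_mul_eq_mul_div, mul_div_assoc', div_div, div_mul_eq_mul_div,
            ← mul_div_assoc, div_eq_div_iff (by positivity) (by positivity)]
          linear_combination (Real.pi * A ^ 2 * Real.exp (1 / 2) * Real.exp (b ^ 2 / 2)) * hbb
        rw [h7]
        refine mul_le_mul_of_nonneg_right ?_ (by positivity)
        have h8 : 0 < Real.pi := Real.pi_pos
        nlinarith [mul_le_mul_of_nonneg_left h3 h8.le]
      have h9 : √b / (4 * A) * Real.exp (1 / 2) *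
          ∫ u in (-1:ℝ)..1, Real.exp (-u ^ 2 / 2) * ‖F u‖ ^ 2 ≤
          √b / (4 * A) * Real.exp (1 / 2) * (Real.pi * A ^ 2 * Real.exp (b ^ 2 / 2) / b) :=
        mul_le_mul_of_nonneg_left h2 (by positivity)
      have h10 : 6 * A / √b = 6 * (A / √b) := by ring
      have h11 : 0 < A / √b := by positivity
      rw [h10]
      linarith

noncomputable def J46_f (u : ℝ) : ℝ≥0∞ := (ENNReal.ofReal |u|) ^ (-(1/2) : ℝ)

noncomputable def J46_h (u : ℝ) : ℝ≥0∞ := (Ioc (0 : ℝ) (1/4)).indicator J46_f u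

theorem J46_f_meas : Measurable J46_f := by
  unfold J46_f
  exact (ENNReal.measurable_ofReal.comp (measurable_id.abs)).pow_const _

theorem J46_h_int : ∫⁻ u, J46_h u = 1 := by
  unfold J46_h
  rw [lintegral_indicator measurableSet_Ioc]
  have h1 : ∫⁻ u in Ioc (0 : ℝ) (1/4), J46_f u =
      ∫⁻ u in Ioc (0 : ℝ) (1/4), ENNReal.ofReal (u ^ (-(1/2) : ℝ)) := by
    apply setLIntegral_congr_fun measurableSet_Ioc
    intro u hu
    show (ENNReal.ofReal |u|) ^ (-(1/2) : ℝ) = _
    rw [abs_of_pos hu.1, ENNReal.ofReal_rpow_of_pos hu.1]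
  rw [h1]
  have hii : IntervalIntegrable (fun u : ℝ => u ^ (-(1/2) : ℝ)) volume 0 (1/4) :=
    intervalIntegral.intervalIntegrable_rpow' (by norm_num)
  rw [← ofReal_integral_eq_lintegral_ofReal]
  · rw [← intervalIntegral.integral_of_le (by norm_num), integral_rpow (by left; norm_num)]
    have e : (-(1/2) : ℝ) + 1 = 1/2 := by norm_num
    rw [e, Real.zero_rpow (by norm_num), sub_zero]
    have e2 : ((1/4 : ℝ)) ^ (1/2 : ℝ) = 1/2 := by
      rw [← Real.sqrt_eq_rpow]
      rw [show (1/4 : ℝ) = (1/2) ^ 2 by norm_num]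
      exact Real.sqrt_sq (by norm_num)
    rw [e2]
    norm_num
  · exact (intervalIntegrable_iff_integrableOn_Ioc_of_le (by norm_num)).mp hii
  · filter_upwards [ae_restrict_mem measurableSet_Ioc] with u hu
    exact Real.rpow_nonneg hu.1.le _

theorem J46_bound (u : ℝ) (hu : u ≠ 0) : J46_f u ≤ (J46_h u + J46_h (-u)) + 2 := by
  rcases lt_or_ge |u| (1/4) with h | h
  · rcases lt_or_gt_of_ne hu with h0 | h0
    · have hm : -u ∈ Ioc (0 : ℝ) (1/4) := ⟨by linarith, by rw [abs_of_neg h0] at h; exact h.le⟩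
      have e : J46_h (-u) = J46_f u := by
        unfold J46_h
        rw [indicator_of_mem hm]
        unfold J46_f
        rw [abs_neg]
      rw [e]
      calc J46_f u ≤ J46_h u + J46_f u := le_add_self
        _ ≤ _ := le_self_add
    · have hm : u ∈ Ioc (0 : ℝ) (1/4) := ⟨h0, by rw [abs_of_pos h0] at h; exact h.le⟩
      have e : J46_h u = J46_f u := by
        unfold J46_h
        rw [indicator_of_mem hm]
      rw [e]
      calc J46_f u ≤ J46_f u + J46_h (-u) := le_self_add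
        _ ≤ _ := le_self_add
  · have h2 : J46_f u ≤ 2 := by
      unfold J46_f
      rw [ENNReal.ofReal_rpow_of_pos (by linarith)]
      rw [show (2 : ℝ≥0∞) = ENNReal.ofReal 2 by norm_num]
      apply ENNReal.ofReal_le_ofReal
      calc |u| ^ (-(1/2) : ℝ) ≤ (1/4 : ℝ) ^ (-(1/2) : ℝ) :=
            Real.rpow_le_rpow_of_nonpos (by norm_num) h (by norm_num)
        _ = 2 := by
            rw [Real.rpow_neg (by norm_num), ← Real.sqrt_eq_rpow,
              show (1/4 : ℝ) = (1/2) ^ 2 by norm_num, Real.sqrt_sq (by norm_num)]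
            norm_num
    exact h2.trans le_add_self

theorem J46_kernel (τ α : ℝ) :
    ∫⁻ σ in Icc τ (τ + 1), (ENNReal.ofReal |σ - α|) ^ (-(1/2) : ℝ) ≤ 4 := by
  have hhm : Measurable J46_h := J46_f_meas.indicator measurableSet_Ioc
  have h1 : ∫⁻ σ in Icc τ (τ + 1), (ENNReal.ofReal |σ - α|) ^ (-(1/2) : ℝ) ≤
      ∫⁻ σ in Icc τ (τ + 1), ((J46_h (σ - α) + J46_h (-(σ - α))) + 2) := by
    apply lintegral_mono_ae
    have hne : ∀ᵐ σ : ℝ ∂(volume.restrict (Icc τ (τ + 1))), σ ≠ α :=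
      ae_restrict_of_ae (by
        rw [ae_iff]; simp)
    filter_upwards [hne] with σ hσ
    exact J46_bound (σ - α) (sub_ne_zero.mpr hσ)
  refine h1.trans ?_
  have hm1 : Measurable (fun σ : ℝ => J46_h (σ - α)) := hhm.comp (measurable_id.sub_const α)
  have hm2 : Measurable (fun σ : ℝ => J46_h (-(σ - α))) :=
    hhm.comp (measurable_id.sub_const α).neg
  rw [lintegral_add_right _ measurable_const, lintegral_add_left hm1, lintegral_const]
  have h2 : ∫⁻ σ in Icc τ (τ + 1), J46_h (σ - α) ≤ 1 := by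
    refine (setLIntegral_le_lintegral _ _).trans ?_
    rw [lintegral_sub_right_eq_self J46_h α, J46_h_int]
  have h3 : ∫⁻ σ in Icc τ (τ + 1), J46_h (-(σ - α)) ≤ 1 := by
    refine (setLIntegral_le_lintegral _ _).trans ?_
    rw [lintegral_sub_right_eq_self (fun u => J46_h (-u)) α, lintegral_neg_eq_self J46_h, J46_h_int]
  have h4 : (volume.restrict (Icc τ (τ + 1))) univ = 1 := by
    rw [Measure.restrict_apply_univ, Real.volume_Icc]
    simp
  rw [h4, mul_one]
  calc _ ≤ (1 + 1 + 2 : ℝ≥0∞) := add_le_add (add_le_add h2 h3) le_rfl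
    _ = 4 := by norm_num

theorem exists_good_level {ν : Measure ℝ} [SFinite ν] {a : ℝ → ℝ} {v : ℝ → ℝ≥0∞}
    (hv : Measurable v) (ha : Measurable a) (τ : ℝ) :
    ∃ σ ∈ Icc τ (τ+1), ∫⁻ y, v y * (ENNReal.ofReal |σ - a y|) ^ (-(1/2) : ℝ) ∂ν
      ≤ 4 * ∫⁻ y, v y ∂ν := by
  have hjoint : Measurable (fun p : ℝ × ℝ =>
      v p.2 * (ENNReal.ofReal |p.1 - a p.2|) ^ (-(1/2) : ℝ)) := by
    apply (hv.comp measurable_snd).mul
    exact (ENNReal.measurable_ofReal.comp
      ((measurable_fst.sub (ha.comp measurable_snd)).abs)).pow_const _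
  have hmΨ : Measurable (fun σ : ℝ =>
      ∫⁻ y, v y * (ENNReal.ofReal |σ - a y|) ^ (-(1/2) : ℝ) ∂ν) := hjoint.lintegral_prod_right'
  have hvol : volume (Icc τ (τ + 1)) = 1 := by
    rw [Real.volume_Icc]; simp
  obtain ⟨σ, hσ, hle⟩ := exists_le_setLAverage (μ := volume) (s := Icc τ (τ + 1))
    (f := fun σ : ℝ => ∫⁻ y, v y * (ENNReal.ofReal |σ - a y|) ^ (-(1/2) : ℝ) ∂ν)
    (by rw [hvol]; exact one_ne_zero) (by rw [hvol]; exact ENNReal.one_ne_top) hmΨ.aemeasurable
  refine ⟨σ, hσ, hle.trans ?_⟩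
  rw [setLAverage_eq, hvol, div_one]
  rw [lintegral_lintegral_swap hjoint.aemeasurable]
  have h1 : ∀ y, ∫⁻ σ in Icc τ (τ + 1), v y * (ENNReal.ofReal |σ - a y|) ^ (-(1/2) : ℝ) ≤
      4 * v y := by
    intro y
    rw [lintegral_const_mul]
    · rw [mul_comm]
      exact mul_le_mul' (J46_kernel τ (a y)) le_rfl
    · exact (ENNReal.measurable_ofReal.comp ((measurable_id.sub_const (a y)).abs)).pow_const _
  calc _ ≤ ∫⁻ y, 4 * v y ∂ν := lintegral_mono h1
    _ = 4 * ∫⁻ y, v y ∂ν := lintegral_const_mul _ hv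

open scoped FourierTransform SchwartzMap ContDiff RealInnerProductSpace in
theorem fourier_injective {k : ℝ → ℂ} (hk : Integrable k)
    (h : ∀ t : ℝ, ∫ x, k x * Complex.exp ((t:ℂ) * (x:ℂ) * Complex.I) = 0) :
    k =ᵐ[volume] 0 := by
  have hF : ∀ ξ : ℝ,
      VectorFourier.fourierIntegral Real.fourierChar volume (innerₗ ℝ) k ξ = 0 := by
    intro ξ
    rw [← h (-2 * Real.pi * ξ)]
    unfold VectorFourier.fourierIntegral
    congr 1
    ext x
    rw [Circle.smul_def, Real.fourierChar_apply, smul_eq_mul, mul_comm]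
    congr 2
    have : (innerₗ ℝ) x ξ = x * ξ := by
      rw [innerₗ_apply_apply]
      simp [mul_comm]
    rw [this]
    push_cast
    ring
  refine ae_eq_zero_of_integral_contDiff_smul_eq_zero hk.locallyIntegrable ?_
  intro g hg hgc
  have hg₁ : HasCompactSupport (Complex.ofRealCLM ∘ g) := hgc.comp_left rfl
  have hg₂ : ContDiff ℝ ∞ (Complex.ofRealCLM ∘ g) := by fun_prop
  let G : 𝓢(ℝ, ℂ) := hg₁.toSchwartzMap hg₂
  have h1 := VectorFourier.integral_fourierIntegral_smul_eq_flip (L := innerₗ ℝ) (f := k)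
    (g := ((𝓕⁻ G : 𝓢(ℝ, ℂ)) : ℝ → ℂ)) Real.continuous_fourierChar continuous_inner hk
    ((𝓕⁻ G : 𝓢(ℝ, ℂ)).integrable (μ := volume))
  simp only [hF, zero_smul, integral_zero] at h1
  have h2 : ∀ x, VectorFourier.fourierIntegral Real.fourierChar volume (innerₗ ℝ).flip
      ((𝓕⁻ G : 𝓢(ℝ, ℂ)) : ℝ → ℂ) x = (g x : ℂ) := by
    intro x
    have h3 : (𝓕 (𝓕⁻ G) : 𝓢(ℝ, ℂ)) = G := FourierTransform.fourier_fourierInv_eq G
    have h4 : (𝓕 (𝓕⁻ G) : 𝓢(ℝ, ℂ)) x = (g x : ℂ) := by rw [h3]; rfl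
    rw [← h4, flip_innerₗ]
    rfl
  simp only [h2] at h1
  rw [h1]
  congr 1
  ext x
  show (g x : ℝ) • k x = k x • (g x : ℂ)
  rw [Complex.real_smul, smul_eq_mul, mul_comm]

theorem laplace_differentiable {ν : Measure ℝ} {u : ℝ → ℂ} (hu : AEStronglyMeasurable u ν)
    (h : ∀ c : ℝ, Integrable (fun x => ‖u x‖ * Real.exp (c * |x|)) ν) :
    Differentiable ℂ (fun s : ℂ => ∫ x, u x * Complex.exp (s * (x:ℂ)) ∂ν) := by
  intro s0
  have key := hasDerivAt_integral_of_dominated_loc_of_deriv_le (μ := ν)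
    (F := fun (s : ℂ) (x : ℝ) => u x * Complex.exp (s * (x:ℂ)))
    (F' := fun (s : ℂ) (x : ℝ) => u x * ((x:ℂ) * Complex.exp (s * (x:ℂ))))
    (x₀ := s0) (s := Metric.ball s0 1)
    (bound := fun x : ℝ => ‖u x‖ * Real.exp ((‖s0‖ + 2) * |x|))
    (Metric.ball_mem_nhds s0 one_pos) ?_ ?_ ?_ ?_ ?_ ?_
  · exact key.2.differentiableAt
  · refine Filter.Eventually.of_forall fun s => ?_
    exact hu.mul (Continuous.aestronglyMeasurable (by fun_prop))
  · refine (h ‖s0‖).mono' (hu.mul (Continuous.aestronglyMeasurable (by fun_prop))) ?_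
    refine Filter.Eventually.of_forall fun x => ?_
    rw [norm_mul, Complex.norm_exp]
    gcongr
    calc (s0 * (x:ℂ)).re ≤ ‖s0 * (x:ℂ)‖ := Complex.re_le_norm _
      _ = ‖s0‖ * |x| := by rw [norm_mul, Complex.norm_real, Real.norm_eq_abs]
  · exact hu.mul (Continuous.aestronglyMeasurable (by fun_prop))
  · refine Filter.Eventually.of_forall fun x s hs => ?_
    have hs' : ‖s‖ ≤ ‖s0‖ + 1 := by
      have h1 : ‖s - s0‖ < 1 := by simpa [dist_eq_norm] using hs
      calc ‖s‖ = ‖s0 + (s - s0)‖ := by congr 1; ring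
        _ ≤ ‖s0‖ + ‖s - s0‖ := norm_add_le _ _
        _ ≤ ‖s0‖ + 1 := by linarith
    rw [norm_mul, norm_mul, Complex.norm_exp, Complex.norm_real, Real.norm_eq_abs]
    gcongr
    have h2 : |x| ≤ Real.exp |x| := by
      have := Real.add_one_le_exp |x|
      linarith
    have h3 : (s * (x:ℂ)).re ≤ (‖s0‖ + 1) * |x| := by
      calc (s * (x:ℂ)).re ≤ ‖s * (x:ℂ)‖ := Complex.re_le_norm _
        _ = ‖s‖ * |x| := by rw [norm_mul, Complex.norm_real, Real.norm_eq_abs]
        _ ≤ (‖s0‖ + 1) * |x| := by gcongr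
    calc |x| * Real.exp (s * (x:ℂ)).re ≤ Real.exp |x| * Real.exp ((‖s0‖ + 1) * |x|) := by
          gcongr
      _ = Real.exp ((‖s0‖ + 2) * |x|) := by rw [← Real.exp_add]; congr 1; ring
  · exact h (‖s0‖ + 2)
  · refine Filter.Eventually.of_forall fun x s hs => ?_
    have h1 : HasDerivAt (fun s : ℂ => s * (x : ℂ)) (x : ℂ) s := by
      simpa using (hasDerivAt_id s).mul_const (x : ℂ)
    have h2 := (h1.cexp).const_mul (u x)
    have e : u x * ((x:ℂ) * Complex.exp (s * (x:ℂ))) = u x * (Complex.exp (s * (x:ℂ)) * (x:ℂ)) := by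
      ring
    rw [e]
    exact h2

theorem exists_large_laplace_bnd {f : ℝ → ℂ} (hf : IntegrableOn f (Ioc 0 1)) {A : Set ℝ}
    (hA : MeasurableSet A) (hA1 : A ⊆ Ioc 0 1) {g : ℝ → ℂ} {M : ℝ} (hM : 0 ≤ M)
    (hg : ∀ x ∈ A, ‖g x‖ ≤ M) :
    ‖∫ x in A, f x * g x‖ ≤ M * ∫ x in Ioc (0:ℝ) 1, ‖f x‖ := by
  have h1 : ‖∫ x in A, f x * g x‖ ≤ ∫ x in A, M * ‖f x‖ := by
    refine norm_integral_le_of_norm_le ((hf.mono_set hA1).norm.const_mul M) ?_
    refine (ae_restrict_mem hA).mono fun x hx => ?_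
    rw [norm_mul, mul_comm]
    exact mul_le_mul_of_nonneg_right (hg x hx) (norm_nonneg _)
  refine h1.trans ?_
  rw [integral_const_mul]
  refine mul_le_mul_of_nonneg_left ?_ hM
  exact setIntegral_mono_set hf.norm (Eventually.of_forall fun x => norm_nonneg _)
    hA1.eventuallyLE

theorem exists_large_laplace_aux
    (J10 : ∀ k : ℝ → ℂ, Integrable k →
      (∀ t : ℝ, ∫ x, k x * Complex.exp ((t:ℂ) * (x:ℂ) * Complex.I) = 0) → k =ᵐ[volume] 0)
    (J14 : ∀ (ν : Measure ℝ) (u : ℝ → ℂ), AEStronglyMeasurable u ν →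
      (∀ c : ℝ, Integrable (fun x => ‖u x‖ * Real.exp (c * |x|)) ν) →
      Differentiable ℂ (fun s : ℂ => ∫ x, u x * Complex.exp (s * (x:ℂ)) ∂ν))
    {f : ℝ → ℂ} (hf : IntegrableOn f (Ioc 0 1)) {ε : ℝ} (hε : 0 < ε) (hε1 : ε ≤ 1)
    (h0 : ¬ (∀ᵐ x : ℝ, 0 < x → x < ε → f x = 0)) {T : ℝ} (hT : 0 ≤ T)
    (hcon : ∀ P : ℝ, T ≤ P →
      ‖∫ x in Ioc (0:ℝ) 1, f x * Complex.exp (-(P:ℂ) * (x:ℂ))‖ < Real.exp (-ε * P)) : False := by
  have hsub : Ioc 0 ε ⊆ Ioc (0:ℝ) 1 := Ioc_subset_Ioc_right hε1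
  have hfε : IntegrableOn f (Ioc 0 ε) := hf.mono_set hsub
  set N : ℝ := ∫ x in Ioc (0:ℝ) 1, ‖f x‖ with hN
  have hN0 : 0 ≤ N := integral_nonneg fun x => norm_nonneg _
  have hL : Differentiable ℂ (fun s : ℂ => ∫ x in Ioc (0:ℝ) ε, f x * Complex.exp (s * (x:ℂ))) := by
    refine J14 _ f hfε.aestronglyMeasurable fun c => ?_
    exact IntegrableOn.mul_continuousOn_of_subset (K := Icc 0 ε) hfε.norm
      (by fun_prop) measurableSet_Ioc isCompact_Icc Ioc_subset_Icc_self
  let H : ℂ → ℂ := fun s => Complex.exp (ε * s) * ∫ x in Ioc (0:ℝ) ε, f x * Complex.exp ((-s) * (x:ℂ))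
  have hHd : Differentiable ℂ H := by
    refine Differentiable.mul (by fun_prop) ?_
    exact hL.comp differentiable_neg
  have hH : ∀ s, H s = ∫ x in Ioc (0:ℝ) ε, f x * Complex.exp (s * ((ε - x : ℝ) : ℂ)) := by
    intro s
    show Complex.exp (ε * s) * ∫ x in Ioc (0:ℝ) ε, f x * Complex.exp ((-s) * (x:ℂ)) = _
    rw [← integral_const_mul]
    congr 1
    funext x
    rw [show s * ((ε - x : ℝ) : ℂ) = ε * s + (-s) * (x : ℂ) by push_cast; ring, Complex.exp_add]
    ring
  have hre : ∀ (s : ℂ) (x : ℝ), ‖Complex.exp (s * ((ε - x : ℝ) : ℂ))‖ = Real.exp (s.re * (ε - x)) := by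
    intro s x
    rw [Complex.norm_exp, Complex.re_mul_ofReal]
  have hleft : ∀ s : ℂ, s.re ≤ 0 → ‖H s‖ ≤ N := by
    intro s hs
    rw [hH]
    have := exists_large_laplace_bnd hf measurableSet_Ioc hsub (M := 1)
      (g := fun x : ℝ => Complex.exp (s * ((ε - x : ℝ) : ℂ))) zero_le_one (by
        intro x hx
        rw [hre]
        exact Real.exp_le_one_iff.2 (mul_nonpos_of_nonpos_of_nonneg hs (sub_nonneg.2 hx.2)))
    rwa [one_mul] at this
  have hgrow : ∀ s : ℂ, ‖H s‖ ≤ Real.exp (ε * ‖s‖) * N := by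
    intro s
    rw [hH]
    refine exists_large_laplace_bnd hf measurableSet_Ioc hsub (M := Real.exp (ε * ‖s‖))
      (g := fun x : ℝ => Complex.exp (s * ((ε - x : ℝ) : ℂ))) (Real.exp_nonneg _) ?_
    intro x hx
    rw [hre]
    refine Real.exp_le_exp.2 ?_
    have h1 := Complex.re_le_norm s
    have h2 : s.re * (ε - x) ≤ ‖s‖ * (ε - x) := mul_le_mul_of_nonneg_right h1 (sub_nonneg.2 hx.2)
    have h3 : ‖s‖ * (ε - x) ≤ ‖s‖ * ε := mul_le_mul_of_nonneg_left (by linarith [hx.1]) (norm_nonneg _)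
    linarith [mul_comm ‖s‖ ε]
  have hreal : ∀ P : ℝ, T ≤ P → ‖H P‖ ≤ 1 + N := by
    intro P hP
    have hP0 := hT.trans hP
    have hint : ∀ A : Set ℝ, MeasurableSet A → A ⊆ Ioc (0:ℝ) 1 →
        IntegrableOn (fun x : ℝ => f x * Complex.exp (-(P:ℂ) * (x:ℂ))) A := by
      intro A hA hA1
      exact IntegrableOn.mul_continuousOn_of_subset (K := Icc 0 1) (hf.mono_set hA1)
        (by fun_prop) hA isCompact_Icc (hA1.trans Ioc_subset_Icc_self)
    have hsub2 : Ioc ε 1 ⊆ Ioc (0:ℝ) 1 := Ioc_subset_Ioc_left hε.le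
    have h1 : ∫ x in Ioc (0:ℝ) 1, f x * Complex.exp (-(P:ℂ) * (x:ℂ))
        = (∫ x in Ioc (0:ℝ) ε, f x * Complex.exp (-(P:ℂ) * (x:ℂ)))
          + ∫ x in Ioc ε 1, f x * Complex.exp (-(P:ℂ) * (x:ℂ)) := by
      rw [← Ioc_union_Ioc_eq_Ioc hε.le hε1]
      refine setIntegral_union ?_ measurableSet_Ioc (hint _ measurableSet_Ioc hsub)
        (hint _ measurableSet_Ioc hsub2)
      rw [Set.disjoint_left]
      intro x hx hx2
      exact absurd hx.2 (not_le.2 hx2.1)
    have h2 : ‖∫ x in Ioc ε 1, f x * Complex.exp (-(P:ℂ) * (x:ℂ))‖ ≤ Real.exp (-ε * P) * N := by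
      refine exists_large_laplace_bnd hf measurableSet_Ioc hsub2 (M := Real.exp (-ε * P))
        (g := fun x : ℝ => Complex.exp (-(P:ℂ) * (x:ℂ))) (Real.exp_nonneg _) ?_
      intro x hx
      rw [Complex.norm_exp, Complex.re_mul_ofReal, Complex.neg_re, Complex.ofReal_re]
      refine Real.exp_le_exp.2 ?_
      nlinarith [hx.1]
    have h3 := hcon P hP
    have h4 : ‖H P‖ = Real.exp (ε * P) * ‖∫ x in Ioc (0:ℝ) ε, f x * Complex.exp (-(P:ℂ) * (x:ℂ))‖ := by
      show ‖Complex.exp (ε * (P : ℂ)) * ∫ x in Ioc (0:ℝ) ε, f x * Complex.exp ((-(P : ℂ)) * (x:ℂ))‖ = _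
      rw [norm_mul, Complex.norm_exp, ← Complex.ofReal_mul, Complex.ofReal_re]
    have h5 : ‖∫ x in Ioc (0:ℝ) ε, f x * Complex.exp (-(P:ℂ) * (x:ℂ))‖
        ≤ Real.exp (-ε * P) + Real.exp (-ε * P) * N := by
      have h6 : ∫ x in Ioc (0:ℝ) ε, f x * Complex.exp (-(P:ℂ) * (x:ℂ))
          = (∫ x in Ioc (0:ℝ) 1, f x * Complex.exp (-(P:ℂ) * (x:ℂ)))
            - ∫ x in Ioc ε 1, f x * Complex.exp (-(P:ℂ) * (x:ℂ)) := by rw [h1]; ring
      rw [h6]
      exact (norm_sub_le _ _).trans (add_le_add h3.le h2)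
    rw [h4]
    refine (mul_le_mul_of_nonneg_left h5 (Real.exp_nonneg _)).trans (le_of_eq ?_)
    have h7 : Real.exp (ε * P) * Real.exp (-ε * P) = 1 := by
      rw [← Real.exp_add]; simp
    calc Real.exp (ε * P) * (Real.exp (-ε * P) + Real.exp (-ε * P) * N)
        = (Real.exp (ε * P) * Real.exp (-ε * P)) * (1 + N) := by ring
      _ = 1 + N := by rw [h7, one_mul]
  have hall : ∀ z : ℂ, ‖H z‖ ≤ N := by
    intro z
    rcases le_total 0 z.re with hz | hz
    · refine PhragmenLindelof.right_half_plane_of_bounded_on_real (f := H) hHd.diffContOnCl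
        ⟨1, by norm_num, ε, ?_⟩ ?_ ?_ hz
      · refine Asymptotics.IsBigO.of_bound N (Eventually.of_forall fun s => ?_)
        rw [Real.norm_eq_abs, abs_of_nonneg (Real.exp_nonneg _), Real.rpow_one, mul_comm N]
        exact hgrow s
      · exact isBoundedUnder_of_eventually_le (a := 1 + N)
          ((eventually_ge_atTop T).mono fun P hP => hreal P hP)
      · intro x
        exact hleft _ (by simp)
    · exact hleft z hz
  have hconst : ∀ z w : ℂ, H z = H w := by
    intro z w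
    refine hHd.apply_eq_apply_of_bounded ?_ z w
    rw [isBounded_iff_forall_norm_le]
    exact ⟨N, by rintro _ ⟨z, rfl⟩; exact hall z⟩
  have hlim : Tendsto (fun n : ℕ => H (-(n : ℂ))) atTop (nhds 0) := by
    have e : ∫ x in Ioc (0:ℝ) ε, (0 : ℂ) = 0 := by simp
    rw [← e]
    have : (fun n : ℕ => H (-(n : ℂ)))
        = fun n : ℕ => ∫ x in Ioc (0:ℝ) ε, f x * Complex.exp (-(n : ℂ) * ((ε - x : ℝ) : ℂ)) := by
      funext n; rw [hH]
    rw [this]
    refine tendsto_integral_of_dominated_convergence (fun x => ‖f x‖) ?_ hfε.norm ?_ ?_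
    · intro n
      exact hfε.aestronglyMeasurable.mul
        (Continuous.aestronglyMeasurable (by fun_prop))
    · intro n
      refine (ae_restrict_mem measurableSet_Ioc).mono fun x hx => ?_
      rw [norm_mul, hre]
      refine mul_le_of_le_one_right (norm_nonneg _) (Real.exp_le_one_iff.2 ?_)
      rw [Complex.neg_re, Complex.natCast_re]
      exact mul_nonpos_of_nonpos_of_nonneg (neg_nonpos.2 n.cast_nonneg) (sub_nonneg.2 hx.2)
    · have hne : ∀ᵐ x ∂((volume : Measure ℝ).restrict (Ioc 0 ε)), x ≠ ε :=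
        compl_mem_ae_iff.2 (measure_singleton ε)
      filter_upwards [ae_restrict_mem measurableSet_Ioc, hne] with x hx hx2
      have hlt : 0 < ε - x := sub_pos.2 (lt_of_le_of_ne hx.2 hx2)
      rw [show (0 : ℂ) = f x * 0 by simp]
      refine Tendsto.const_mul _ ?_
      rw [tendsto_zero_iff_norm_tendsto_zero]
      have e2 : (fun n : ℕ => ‖Complex.exp (-(n : ℂ) * ((ε - x : ℝ) : ℂ))‖)
          = fun n : ℕ => Real.exp (-((n : ℝ) * (ε - x))) := by
        funext n
        rw [hre, Complex.neg_re, Complex.natCast_re, neg_mul]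
      rw [e2]
      refine Real.tendsto_exp_neg_atTop_nhds_zero.comp ?_
      exact tendsto_natCast_atTop_atTop.atTop_mul_const hlt
  have hzero : ∀ z, H z = 0 := by
    intro z
    have : (fun n : ℕ => H (-(n : ℂ))) = fun _ => H z := by funext n; exact hconst _ _
    rw [this] at hlim
    exact tendsto_nhds_unique tendsto_const_nhds hlim
  have hLz : ∀ s : ℂ, ∫ x in Ioc (0:ℝ) ε, f x * Complex.exp (s * (x:ℂ)) = 0 := by
    intro s
    have h1 : Complex.exp (ε * (-s)) * ∫ x in Ioc (0:ℝ) ε, f x * Complex.exp ((-(-s)) * (x:ℂ)) = 0 :=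
      hzero (-s)
    rw [neg_neg] at h1
    exact (mul_eq_zero.1 h1).resolve_left (Complex.exp_ne_zero _)
  have hk := J10 ((Ioc 0 ε).indicator f) ((integrable_indicator_iff measurableSet_Ioc).2 hfε) (by
    intro t
    have h1 : (fun x : ℝ => (Ioc 0 ε).indicator f x * Complex.exp ((t:ℂ) * (x:ℂ) * Complex.I))
        = (Ioc 0 ε).indicator fun x : ℝ => f x * Complex.exp ((t * Complex.I) * (x:ℂ)) := by
      funext x
      by_cases hx : x ∈ Ioc 0 ε
      · rw [indicator_of_mem hx, indicator_of_mem hx]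
        congr 2
        ring
      · rw [indicator_of_notMem hx, indicator_of_notMem hx, zero_mul]
    rw [h1, integral_indicator measurableSet_Ioc]
    exact hLz _)
  apply h0
  filter_upwards [hk] with x hx hx0 hxε
  rwa [indicator_of_mem (show x ∈ Ioc 0 ε from ⟨hx0, hxε.le⟩)] at hx

theorem exists_large_laplace_pre
    (J10 : ∀ k : ℝ → ℂ, Integrable k →
      (∀ t : ℝ, ∫ x, k x * Complex.exp ((t:ℂ) * (x:ℂ) * Complex.I) = 0) → k =ᵐ[volume] 0)
    (J14 : ∀ (ν : Measure ℝ) (u : ℝ → ℂ), AEStronglyMeasurable u ν →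
      (∀ c : ℝ, Integrable (fun x => ‖u x‖ * Real.exp (c * |x|)) ν) →
      Differentiable ℂ (fun s : ℂ => ∫ x, u x * Complex.exp (s * (x:ℂ)) ∂ν))
    {f : ℝ → ℂ} (hf : IntegrableOn f (Ioc 0 1))
    (h0 : ∀ ε > 0, ¬ (∀ᵐ x : ℝ, 0 < x → x < ε → f x = 0)) :
    ∀ ε > 0, ∀ T : ℝ, ∃ P : ℝ, T ≤ P ∧
      Real.exp (-ε * P) ≤ ‖∫ x in Ioc (0:ℝ) 1, f x * Complex.exp (-(P:ℂ) * (x:ℂ))‖ := by
  intro ε hε T
  by_contra hcon
  push Not at hcon
  have hε' : 0 < min ε 1 := lt_min hε one_pos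
  refine exists_large_laplace_aux J10 J14 hf hε' (min_le_right _ _) (h0 _ hε')
    (T := max T 0) (le_max_right _ _) fun P hP => ?_
  refine (hcon P ((le_max_left _ _).trans hP)).trans_le (Real.exp_le_exp.2 ?_)
  have hP0 : 0 ≤ P := (le_max_right _ _).trans hP
  have := mul_le_mul_of_nonneg_right (min_le_left ε 1) hP0
  linarith

theorem exists_large_laplace
    {f : ℝ → ℂ} (hf : IntegrableOn f (Ioc 0 1))
    (h0 : ∀ ε > 0, ¬ (∀ᵐ x : ℝ, 0 < x → x < ε → f x = 0)) :
    ∀ ε > 0, ∀ T : ℝ, ∃ P : ℝ, T ≤ P ∧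
      Real.exp (-ε * P) ≤ ‖∫ x in Ioc (0:ℝ) 1, f x * Complex.exp (-(P:ℂ) * (x:ℂ))‖ :=
  exists_large_laplace_pre (fun _ hk h => fourier_injective hk h)
    (fun _ _ hu h => laplace_differentiable hu h) hf h0


theorem bounded_of_small_growth {G : ℂ → ℂ} (hG : Differentiable ℂ G) {M C : ℝ}
    (hM : ∀ s : ℂ, s.re ≤ 0 → ‖G s‖ ≤ M)
    (hC : ∀ ε > 0, ∀ T : ℝ, ∃ R : ℝ, T ≤ R ∧ ∀ z : ℂ, ‖z‖ ≤ R → ‖G z‖ ≤ C * Real.exp (ε * R)) :
    ∀ z, ‖G z‖ ≤ max M C := by
  intro z
  rcases le_or_gt z.re 0 with hz | hz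
  · exact le_trans (hM z hz) (le_max_left _ _)
  have hmax0 : 0 ≤ max M C := le_trans (le_trans (norm_nonneg _) (hM 0 (by simp))) (le_max_left _ _)
  have key : ∀ ε : ℝ, 0 < ε → ‖G z‖ ≤ max M C * Real.exp (3 * ε * ‖z‖) := by
    intro ε hε
    obtain ⟨R, hR1, hR2⟩ := hC ε hε (‖z‖ + 1)
    have hzn : 0 ≤ ‖z‖ := norm_nonneg z
    have hR0 : 0 < R := by linarith
    have hC0 : 0 ≤ C := by
      have h1 := hR2 0 (by simpa using hR0.le)
      have h2 : 0 ≤ C * Real.exp (ε * R) := le_trans (norm_nonneg _) h1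
      by_contra h
      rw [not_le] at h
      have := mul_neg_of_neg_of_pos h (Real.exp_pos (ε * R))
      linarith
    let E : ℂ → ℂ := fun s => Complex.exp (-(ε * R : ℂ) * (2 * s / R - s ^ 2 / R ^ 2))
    have hE : Differentiable ℂ E := by
      intro s
      apply DifferentiableAt.cexp
      fun_prop
    have hEn : ∀ s : ℂ, ‖E s‖ = Real.exp (-(ε * R) * (2 * s.re / R - (s.re ^ 2 - s.im ^ 2) / R ^ 2)) := by
      intro s
      show ‖Complex.exp _‖ = _
      rw [Complex.norm_exp]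
      congr 1
      have h1 : (-(ε * R : ℂ) * (2 * s / R - s ^ 2 / R ^ 2)) =
          ((-(ε * R) : ℝ) : ℂ) * (2 * s / (R : ℂ) - s ^ 2 / ((R ^ 2 : ℝ) : ℂ)) := by
        push_cast; ring
      rw [h1, Complex.re_ofReal_mul, Complex.sub_re, Complex.div_ofReal_re, Complex.div_ofReal_re]
      congr 3
      · simp
      · rw [pow_two, Complex.mul_re]; ring
    set U : Set ℂ := Metric.ball (0:ℂ) R ∩ {s | 0 < s.re} with hUdef
    have hUb : Bornology.IsBounded U := Metric.isBounded_ball.subset inter_subset_left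
    have hzU : z ∈ U := ⟨by rw [mem_ball_zero_iff]; linarith, hz⟩
    have hfr : ∀ s ∈ frontier U, ‖G s * E s‖ ≤ max M C := by
      intro s hs
      have hs' := frontier_inter_subset _ _ hs
      rw [frontier_ball _ hR0.ne', Complex.closure_setOfPred_lt_re, closure_ball _ hR0.ne',
        Complex.frontier_setOfPred_lt_re] at hs'
      rw [norm_mul, hEn]
      rcases hs' with ⟨h1, h2⟩ | ⟨h1, h2⟩
      · have hsn : ‖s‖ = R := by simpa using h1
        have hre : 0 ≤ s.re := h2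
        have hsq : s.re ^ 2 + s.im ^ 2 = R ^ 2 := by
          rw [← hsn, ← Complex.normSq_eq_norm_sq, Complex.normSq_apply]; ring
        have hreR : s.re ≤ R := by rw [← hsn]; exact Complex.re_le_norm s
        have hval : 1 ≤ 2 * s.re / R - (s.re ^ 2 - s.im ^ 2) / R ^ 2 := by
          have h3 : s.im ^ 2 = R ^ 2 - s.re ^ 2 := by linarith
          rw [h3]
          have h4 : 2 * s.re / R - (s.re ^ 2 - (R ^ 2 - s.re ^ 2)) / R ^ 2 =
              1 + 2 * s.re * (R - s.re) / R ^ 2 := by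
            field_simp
            ring
          rw [h4]
          have : 0 ≤ 2 * s.re * (R - s.re) / R ^ 2 := by
            apply div_nonneg _ (by positivity)
            apply mul_nonneg (by positivity)
            linarith
          linarith
        have h5 : Real.exp (-(ε * R) * (2 * s.re / R - (s.re ^ 2 - s.im ^ 2) / R ^ 2)) ≤
            Real.exp (-(ε * R)) := by
          apply Real.exp_le_exp.2
          have : 0 < ε * R := by positivity
          nlinarith
        calc ‖G s‖ * Real.exp (-(ε * R) * (2 * s.re / R - (s.re ^ 2 - s.im ^ 2) / R ^ 2))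
            ≤ (C * Real.exp (ε * R)) * Real.exp (-(ε * R)) :=
              mul_le_mul (hR2 s hsn.le) h5 (Real.exp_pos _).le
                (mul_nonneg hC0 (Real.exp_pos _).le)
          _ = C := by rw [mul_assoc, ← Real.exp_add, add_neg_cancel, Real.exp_zero, mul_one]
          _ ≤ max M C := le_max_right _ _
      · have hre : s.re = 0 := h2
        have h5 : Real.exp (-(ε * R) * (2 * s.re / R - (s.re ^ 2 - s.im ^ 2) / R ^ 2)) ≤ 1 := by
          rw [Real.exp_le_one_iff, hre]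
          have h6 : 0 ≤ s.im ^ 2 / R ^ 2 := by positivity
          have h7 : 0 < ε * R := by positivity
          have h8 : 2 * 0 / R - ((0:ℝ) ^ 2 - s.im ^ 2) / R ^ 2 = s.im ^ 2 / R ^ 2 := by ring
          rw [h8]
          nlinarith
        calc ‖G s‖ * Real.exp (-(ε * R) * (2 * s.re / R - (s.re ^ 2 - s.im ^ 2) / R ^ 2))
            ≤ M * 1 := mul_le_mul (hM s hre.le) h5 (Real.exp_pos _).le
              (le_trans (norm_nonneg _) (hM s hre.le))
          _ = M := mul_one _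
          _ ≤ max M C := le_max_left _ _
    have hmain := Complex.norm_le_of_forall_mem_frontier_norm_le hUb
      ((hG.mul hE).diffContOnCl) hfr (subset_closure hzU)
    have hmain' : ‖G z‖ * ‖E z‖ ≤ max M C := by rw [← norm_mul]; exact hmain
    rw [hEn] at hmain'
    have hlow : Real.exp (-(3 * ε * ‖z‖)) ≤
        Real.exp (-(ε * R) * (2 * z.re / R - (z.re ^ 2 - z.im ^ 2) / R ^ 2)) := by
      apply Real.exp_le_exp.2
      have h1 : z.re ≤ ‖z‖ := Complex.re_le_norm z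
      have h2 : z.re ^ 2 + z.im ^ 2 = ‖z‖ ^ 2 := by
        rw [← Complex.normSq_eq_norm_sq, Complex.normSq_apply]; ring
      have h3 : (ε * R) * (2 * z.re / R - (z.re ^ 2 - z.im ^ 2) / R ^ 2) =
          ε * (2 * z.re) + ε * ((z.im ^ 2 - z.re ^ 2) / R) := by
        field_simp
        ring
      have h4 : (z.im ^ 2 - z.re ^ 2) / R ≤ ‖z‖ := by
        rw [div_le_iff₀ hR0]
        have h5 : ‖z‖ ≤ R := by linarith
        nlinarith [sq_nonneg z.re, sq_nonneg z.im]
      have h6 : (ε * R) * (2 * z.re / R - (z.re ^ 2 - z.im ^ 2) / R ^ 2) ≤ 3 * ε * ‖z‖ := by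
        rw [h3]
        nlinarith
      linarith
    have h7 : ‖G z‖ * Real.exp (-(3 * ε * ‖z‖)) ≤ max M C :=
      le_trans (mul_le_mul_of_nonneg_left hlow (norm_nonneg _)) hmain'
    calc ‖G z‖ = ‖G z‖ * Real.exp (-(3 * ε * ‖z‖)) * Real.exp (3 * ε * ‖z‖) := by
          rw [mul_assoc, ← Real.exp_add, neg_add_cancel, Real.exp_zero, mul_one]
      _ ≤ max M C * Real.exp (3 * ε * ‖z‖) :=
          mul_le_mul_of_nonneg_right h7 (Real.exp_pos _).le
  have hlim : Tendsto (fun ε : ℝ => max M C * Real.exp (3 * ε * ‖z‖)) (nhdsWithin 0 (Ioi 0))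
      (nhds (max M C)) := by
    have hc : Continuous (fun ε : ℝ => max M C * Real.exp (3 * ε * ‖z‖)) := by fun_prop
    have := hc.tendsto 0
    simp only [mul_zero, zero_mul, Real.exp_zero, mul_one] at this
    exact this.mono_left nhdsWithin_le_nhds
  refine ge_of_tendsto hlim ?_
  filter_upwards [self_mem_nhdsWithin] with ε hε
  exact key ε hε

theorem exists_dual_rep {α : Type*} [MeasurableSpace α] {μ : Measure α} [IsFiniteMeasure μ]
    (Λ : Lp ℂ 1 μ →L[ℂ] ℂ) :
    ∃ κ : α → ℂ, Measurable κ ∧ (∀ x, ‖κ x‖ ≤ ‖Λ‖) ∧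
      ∀ f : Lp ℂ 1 μ, Λ f = ∫ x, f x * κ x ∂μ := by
  classical
  let B : ℂ →L[ℂ] ℂ →L[ℂ] ℂ := ContinuousLinearMap.mul ℂ ℂ
  let T : Lp ℂ 2 μ →L[ℂ] Lp ℂ 1 μ := (B.holderL μ 2 2 1) (Lp.const 2 μ (1 : ℂ))
  have hT : ∀ f : Lp ℂ 2 μ, (T f : α → ℂ) =ᵐ[μ] f := by
    intro f
    have h1 : (T f : α → ℂ) =ᵐ[μ] fun x => B ((Lp.const 2 μ (1 : ℂ) : Lp ℂ 2 μ) x) (f x) :=
      ContinuousLinearMap.coeFn_holder B _ _
    have h2 := Lp.coeFn_const (p := 2) (μ := μ) (c := (1 : ℂ))
    filter_upwards [h1, h2] with x hx1 hx2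
    rw [hx1, hx2]
    simp [B]
  let Λ2 : Lp ℂ 2 μ →L[ℂ] ℂ := Λ.comp T
  let g : Lp ℂ 2 μ := (InnerProductSpace.toDual ℂ (Lp ℂ 2 μ)).symm Λ2
  have hg : ∀ f : Lp ℂ 2 μ, Λ2 f = inner ℂ g f := by
    intro f
    exact (InnerProductSpace.toDual_symm_apply).symm
  let κ0 : α → ℂ := fun x => (starRingEnd ℂ) (g x)
  have hgm : Measurable (g : α → ℂ) := (Lp.stronglyMeasurable g).measurable
  have hκ0m : Measurable κ0 := Complex.continuous_conj.measurable.comp hgm
  have hκ0L2 : MemLp κ0 2 μ := by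
    have h1 : MemLp (g : α → ℂ) 2 μ := Lp.memLp g
    refine h1.of_le hκ0m.aestronglyMeasurable ?_
    filter_upwards with x
    simp [κ0]
  have hκ0i : Integrable κ0 μ := hκ0L2.integrable (by norm_num)
  -- (I)
  have hI : ∀ (f0 : α → ℂ) (h1 : MemLp f0 1 μ) (_ : MemLp f0 2 μ),
      Λ (h1.toLp f0) = ∫ x, f0 x * κ0 x ∂μ := by
    intro f0 h1 h2
    have h3 : T (h2.toLp f0) = h1.toLp f0 := by
      apply Lp.ext
      exact (hT _).trans (h2.coeFn_toLp.trans h1.coeFn_toLp.symm)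
    rw [← h3]
    show Λ2 _ = _
    rw [hg, L2.inner_def]
    refine integral_congr_ae ?_
    filter_upwards [h2.coeFn_toLp] with x hx
    rw [hx]
    simp [κ0]
  -- (II)
  have hII : μ {x | ‖Λ‖ < ‖κ0 x‖} = 0 := by
    set A : Set α := {x | ‖Λ‖ < ‖κ0 x‖} with hA
    have hAm : MeasurableSet A := measurableSet_lt measurable_const hκ0m.norm
    let v : α → ℂ := A.indicator fun x => (starRingEnd ℂ) (κ0 x) / (‖κ0 x‖ : ℂ)
    have hvm : Measurable v := by
      refine Measurable.indicator ?_ hAm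
      exact (Complex.continuous_conj.measurable.comp hκ0m).div
        (Complex.measurable_ofReal.comp hκ0m.norm)
    have hvle : ∀ x, ‖v x‖ ≤ A.indicator (fun _ => (1 : ℝ)) x := by
      intro x
      by_cases hx : x ∈ A
      · simp only [v, Set.indicator_of_mem hx]
        rw [norm_div]
        simp only [RCLike.norm_conj, Complex.norm_real, norm_norm]
        exact div_self_le_one _
      · simp [v, Set.indicator_of_notMem hx]
    have hvle1 : ∀ x, ‖v x‖ ≤ 1 := fun x => (hvle x).trans (by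
      by_cases hx : x ∈ A <;> simp [hx])
    have hv1 : MemLp v 1 μ := MemLp.of_bound hvm.aestronglyMeasurable 1
      (Filter.Eventually.of_forall hvle1)
    have hv2 : MemLp v 2 μ := MemLp.of_bound hvm.aestronglyMeasurable 1
      (Filter.Eventually.of_forall hvle1)
    have h3 := hI v hv1 hv2
    have h4 : ∫ x, v x * κ0 x ∂μ = ((∫ x in A, ‖κ0 x‖ ∂μ : ℝ) : ℂ) := by
      rw [← integral_complex_ofReal, ← integral_indicator hAm]
      refine integral_congr_ae (Filter.Eventually.of_forall fun x => ?_)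
      by_cases hx : x ∈ A
      · simp only [v, Set.indicator_of_mem hx]
        have h5 : (‖κ0 x‖ : ℂ) ≠ 0 := by
          have : 0 < ‖κ0 x‖ := lt_of_le_of_lt (norm_nonneg _) hx
          exact_mod_cast this.ne'
        rw [div_mul_eq_mul_div, Complex.conj_mul']
        field_simp
      · simp only [v, Set.indicator_of_notMem hx, zero_mul]
    have h6 : ‖Λ (hv1.toLp v)‖ = ∫ x in A, ‖κ0 x‖ ∂μ := by
      rw [h3, h4, Complex.norm_real, Real.norm_of_nonneg]
      exact integral_nonneg fun x => norm_nonneg _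
    have h7 : ‖hv1.toLp v‖ ≤ μ.real A := by
      have h8 : ‖hv1.toLp v‖ = ∫ x, ‖v x‖ ∂μ := by
        rw [L1.norm_eq_integral_norm]
        refine integral_congr_ae ?_
        filter_upwards [hv1.coeFn_toLp] with x hx
        rw [hx]
      rw [h8]
      calc ∫ x, ‖v x‖ ∂μ ≤ ∫ x, A.indicator (fun _ => (1 : ℝ)) x ∂μ := by
            refine integral_mono (hv1.integrable le_rfl).norm ?_ hvle
            exact (integrable_const (1 : ℝ)).indicator hAm
        _ = μ.real A := by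
            rw [integral_indicator hAm]
            simp
    have h9 : ∫ x in A, ‖κ0 x‖ ∂μ ≤ ‖Λ‖ * μ.real A := by
      rw [← h6]
      exact (Λ.le_opNorm _).trans (mul_le_mul_of_nonneg_left h7 (norm_nonneg _))
    have h10 : ∫ x in A, (‖κ0 x‖ - ‖Λ‖) ∂μ ≤ 0 := by
      rw [integral_sub hκ0i.norm.integrableOn (integrable_const _).integrableOn]
      simp only [setIntegral_const, smul_eq_mul]
      linarith
    by_contra hne
    have hpos : 0 < μ (Function.support (fun x => ‖κ0 x‖ - ‖Λ‖) ∩ A) := by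
      have : Function.support (fun x => ‖κ0 x‖ - ‖Λ‖) ∩ A = A := by
        apply Set.inter_eq_right.2
        intro x hx
        have hx' : ‖Λ‖ < ‖κ0 x‖ := hx
        simp only [Function.mem_support]
        linarith
      rw [this]
      exact pos_iff_ne_zero.2 hne
    have h11 := (setIntegral_pos_iff_support_of_nonneg_ae (μ := μ) (s := A)
      (f := fun x => ‖κ0 x‖ - ‖Λ‖) ?_ ?_).2 hpos
    · linarith
    · rw [Filter.EventuallyLE, ae_restrict_iff' hAm]
      filter_upwards with x hx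
      have hx' : ‖Λ‖ < ‖κ0 x‖ := hx
      simp only [Pi.zero_apply]
      linarith
    · exact (hκ0i.norm.sub (integrable_const _)).integrableOn
  -- (III)
  let κ : α → ℂ := fun x => if ‖κ0 x‖ ≤ ‖Λ‖ then κ0 x else 0
  have hκm : Measurable κ :=
    Measurable.ite (measurableSet_le hκ0m.norm measurable_const) hκ0m measurable_const
  have hκb : ∀ x, ‖κ x‖ ≤ ‖Λ‖ := by
    intro x
    simp only [κ]
    split_ifs with h
    · exact h
    · simp
  have hκae : κ =ᵐ[μ] κ0 := by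
    have : ∀ᵐ x ∂μ, ¬ (‖Λ‖ < ‖κ0 x‖) := by
      rw [ae_iff]
      simpa using hII
    filter_upwards [this] with x hx
    simp only [κ]
    rw [if_pos (not_lt.1 hx)]
  have hκtop : MemLp κ ⊤ μ := memLp_top_of_bound hκm.aestronglyMeasurable ‖Λ‖
    (Filter.Eventually.of_forall hκb)
  refine ⟨κ, hκm, hκb, ?_⟩
  -- (IV)
  let Λ' : Lp ℂ 1 μ →L[ℂ] ℂ := (B.lpPairing μ 1 ⊤).flip (hκtop.toLp κ)
  have hΛ' : ∀ f : Lp ℂ 1 μ, Λ' f = ∫ x, f x * κ x ∂μ := by
    intro f
    show B.lpPairing μ 1 ⊤ f (hκtop.toLp κ) = _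
    rw [ContinuousLinearMap.lpPairing_eq_integral]
    refine integral_congr_ae ?_
    filter_upwards [hκtop.coeFn_toLp] with x hx
    rw [hx]
    simp [B]
  intro f
  rw [← hΛ']
  refine Lp.induction (p := 1) (by norm_num) (fun f => Λ f = Λ' f) ?_ ?_ ?_ f
  · intro c s hs hμs
    have h1 : MemLp (s.indicator fun _ => c) 1 μ := memLp_indicator_const 1 hs c (Or.inr hμs.ne)
    have h2 : MemLp (s.indicator fun _ => c) 2 μ := memLp_indicator_const 2 hs c (Or.inr hμs.ne)
    have h3 : ((Lp.simpleFunc.indicatorConst 1 hs hμs.ne c : Lp.simpleFunc ℂ 1 μ) : Lp ℂ 1 μ) =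
        h1.toLp _ := by
      rw [Lp.simpleFunc.coe_indicatorConst]
      rfl
    rw [h3, hI _ h1 h2, hΛ']
    refine integral_congr_ae ?_
    filter_upwards [h1.coeFn_toLp, hκae] with x hx1 hx2
    rw [hx1, hx2]
  · intro f g hf hg _ h1 h2
    rw [map_add, map_add, h1, h2]
  · exact isClosed_eq Λ.continuous Λ'.continuous

theorem exists_subgradient {ψ : ℝ → ℝ} (hψ : ConvexOn ℝ (Ici 0) ψ) :
    ∃ a : ℝ → ℝ, Measurable a ∧ ∀ y > 0, ∀ z ≥ 0, ψ y + a y * (z - y) ≤ ψ z := by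
  obtain ⟨b, hbdef⟩ : ∃ b : ℝ → ℝ, b = fun y => sInf ((fun z => (ψ z - ψ y) / (z - y)) '' Ioi y) :=
    ⟨_, rfl⟩
  -- slopes on the left are lower bounds
  have hlow : ∀ y > 0, ∀ z, 0 ≤ z → z < y →
      ∀ t ∈ ((fun z => (ψ z - ψ y) / (z - y)) '' Ioi y), (ψ y - ψ z) / (y - z) ≤ t := by
    rintro y hy z hz hzy t ⟨w, hw, rfl⟩
    have hw' : y < w := hw
    exact hψ.slope_mono_adjacent (show (0 : ℝ) ≤ z from hz) (show (0 : ℝ) ≤ w by linarith) hzy hw'
  have hbdd : ∀ y > 0, BddBelow ((fun z => (ψ z - ψ y) / (z - y)) '' Ioi y) := fun y hy =>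
    ⟨(ψ y - ψ 0) / (y - 0), fun t ht => hlow y hy 0 le_rfl hy t ht⟩
  have hne : ∀ y, ((fun z => (ψ z - ψ y) / (z - y)) '' Ioi y).Nonempty := fun y =>
    ⟨_, y + 1, show y < y + 1 by linarith, rfl⟩
  have hsub : ∀ y > 0, ∀ z ≥ 0, ψ y + b y * (z - y) ≤ ψ z := by
    intro y hy z hz
    rcases lt_trichotomy z y with h | h | h
    · have h1 : (ψ y - ψ z) / (y - z) ≤ b y := by
        rw [hbdef]
        exact le_csInf (hne y) (hlow y hy z hz h)
      have h2 : 0 < y - z := sub_pos.mpr h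
      rw [div_le_iff₀ h2] at h1
      linarith
    · rw [h]; simp
    · have h1 : b y ≤ (ψ z - ψ y) / (z - y) := by
        rw [hbdef]
        exact csInf_le (hbdd y hy) ⟨z, h, rfl⟩
      have h2 : 0 < z - y := sub_pos.mpr h
      rw [le_div_iff₀ h2] at h1
      linarith
  have hmono : ∀ y1 > 0, ∀ y2, y1 ≤ y2 → b y1 ≤ b y2 := by
    intro y1 h1 y2 h12
    rcases eq_or_lt_of_le h12 with h | h
    · rw [h]
    · have k1 := hsub y1 h1 y2 (by linarith)
      have k2 := hsub y2 (by linarith) y1 h1.le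
      have k3 : 0 < y2 - y1 := sub_pos.mpr h
      by_contra hcon
      push Not at hcon
      nlinarith [mul_pos k3 (sub_pos.mpr hcon)]
  have hB : Monotone (fun t : ℝ => b (Real.exp t)) := fun s t hst =>
    hmono _ (Real.exp_pos s) _ (Real.exp_le_exp.mpr hst)
  refine ⟨fun y => b (Real.exp (Real.log y)), hB.measurable.comp Real.measurable_log, ?_⟩
  intro y hy z hz
  show ψ y + b (Real.exp (Real.log y)) * (z - y) ≤ ψ z
  rw [Real.exp_log hy]
  exact hsub y hy z hz

end Pool.Agent.Helper73.Dom
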